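import Pool.Agent.R876.KS.Stm

/-!
# Project KS, piece A
-/

namespace R876.KS

open Metric Filter Topology Module

variable {X : Type*} [NormedAddCommGroup X] [NormedSpace ℝ X]

/-- A ball contains a basis. -/
theorem exists_basis_in_ball [FiniteDimensional ℝ X] {n : ℕ} (hfin : finrank ℝ X = n)
    (x0 : X) {δ : ℝ} (hδ : 0 < δ) :
    ∃ f : Fin n → X, (∀ i, f i ∈ ball x0 δ) ∧ LinearIndependent ℝ f := by
  have hspan : Submodule.span ℝ (ball x0 δ) = ⊤ := by
    apply Submodule.eq_top_of_nonempty_interior'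
    refine ⟨x0, ?_⟩
    rw [mem_interior_iff_mem_nhds]
    exact Filter.mem_of_superset (ball_mem_nhds x0 hδ) Submodule.subset_span
  have h := Submodule.exists_fun_fin_finrank_span_eq ℝ (ball x0 δ)
  have hn : finrank ℝ (Submodule.span ℝ (ball x0 δ)) = n := by
    rw [hspan, finrank_top, hfin]
  rw [hn] at h
  obtain ⟨f, hf, -, hli⟩ := h
  exact ⟨f, hf, hli⟩

/-- KS-A1. -/
theorem gp [FiniteDimensional ℝ X] : GPStm X := by
  intro n hn hfin h1 T hT O hO hne hloc
  have hnt : Nontrivial X := by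
    apply Module.nontrivial_of_finrank_pos (R := ℝ); omega
  obtain ⟨x0, hx0O, hx0⟩ := (dense_compl_singleton (0 : X)).inter_open_nonempty O hO hne
  have hx0n : 0 < ‖x0‖ := norm_pos_iff.2 hx0
  obtain ⟨ε, hε, hball⟩ := Metric.isOpen_iff.1 hO x0 hx0O
  set δ := min ε (‖x0‖ / 4) with hδ
  have hδ0 : 0 < δ := lt_min hε (by positivity)
  obtain ⟨f, hf, hli⟩ := exists_basis_in_ball hfin x0 hδ0
  have hsub : ∀ y ∈ ball x0 δ, ‖T y‖ = ‖y‖ := fun y hy =>
    hloc y (hball (ball_subset_ball (min_le_left _ _) hy))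
  have hpres : ∀ i, PresAt T (f i) := by
    intro i
    have h2 : dist (f i) x0 < δ := hf i
    apply PresAt.of_local (ε := δ - dist (f i) x0) (by linarith)
    intro y hy
    apply hsub
    rw [mem_ball]
    calc dist y x0 ≤ dist y (f i) + dist (f i) x0 := dist_triangle _ _ _
      _ < δ := by rw [dist_eq_norm y (f i)]; linarith
  obtain ⟨S, ⟨i, hi⟩, ⟨j, hj⟩, hS⟩ := h1 T hT f hli hpres
  refine not_BJ_of_close ?_ (hS i hi j hj)
  have h2 : ‖f i - x0‖ < δ := by rw [← dist_eq_norm]; exact hf i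
  have h3 : ‖f j - x0‖ < δ := by rw [← dist_eq_norm]; exact hf j
  have h4 : δ ≤ ‖x0‖ / 4 := min_le_right _ _
  have h5 : ‖f i - f j‖ ≤ ‖f i - x0‖ + ‖f j - x0‖ := by
    have : f i - f j = (f i - x0) - (f j - x0) := by abel
    rw [this]; exact norm_sub_le _ _
  have h6 : ‖x0‖ ≤ ‖f i‖ + ‖f i - x0‖ := by
    have : x0 = f i - (f i - x0) := by abel
    calc ‖x0‖ = ‖f i - (f i - x0)‖ := by rw [← this]
      _ ≤ _ := norm_sub_le _ _
  linarith

theorem range_snoc' {r : ℕ} (x : Fin r → X) (y : X) :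
    Set.range (Fin.snoc x y : Fin (r + 1) → X) = insert y (Set.range x) := by
  ext z
  constructor
  · rintro ⟨i, rfl⟩
    refine Fin.lastCases ?_ (fun i => ?_) i
    · rw [Fin.snoc_last]; exact Set.mem_insert _ _
    · rw [Fin.snoc_castSucc]; exact Set.mem_insert_of_mem _ ⟨i, rfl⟩
  · rintro (rfl | ⟨i, rfl⟩)
    · exact ⟨Fin.last r, Fin.snoc_last _ _⟩
    · exact ⟨i.castSucc, Fin.snoc_castSucc _ _ _⟩

/-- KS-A2. -/
theorem f5 [FiniteDimensional ℝ X] : F5Stm X := by
  intro n hn hfin h1 r hr x hxs hnd O hO hne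
  have hnt : Nontrivial X := by
    apply Module.nontrivial_of_finrank_pos (R := ℝ); omega
  by_contra hcon
  push Not at hcon
  set L : Submodule ℝ X := Submodule.span ℝ (Set.range x) with hL
  have hLdim : finrank ℝ L = r := by
    rw [hL, finrank_span_eq_card hnd.1, Fintype.card_fin]
  let Ψ : X →ₗ[ℝ] (Fin r → ℝ) := LinearMap.pi fun i => (gr (x i)).toLinearMap
  have hΨ : ∀ y i, Ψ y i = gr (x i) y := fun y i => rfl
  let Φ : L →ₗ[ℝ] (Fin r → ℝ) := Ψ.comp L.subtype
  have hinj : Function.Injective Φ := by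
    rw [← LinearMap.ker_eq_bot, LinearMap.ker_eq_bot']
    intro v hv
    exact Subtype.ext (hnd.2 (v : X) v.2 (fun i => congrFun hv i))
  let e : L ≃ₗ[ℝ] (Fin r → ℝ) :=
    LinearMap.linearEquivOfInjective Φ hinj (by rw [hLdim, finrank_fin_fun])
  have he : ∀ v : L, e v = Ψ (v : X) := fun v => rfl
  let P : X →ₗ[ℝ] X := L.subtype.comp (e.symm.toLinearMap.comp Ψ)
  have hPL : ∀ y, P y ∈ L := fun y => (e.symm (Ψ y)).2
  have hΨP : ∀ y, Ψ (P y) = Ψ y := by
    intro y
    have : e (e.symm (Ψ y)) = Ψ y := e.apply_symm_apply _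
    rw [he] at this
    exact this
  have hPid : ∀ l ∈ L, P l = l := by
    intro l hl
    have h2 : e.symm (Ψ l) = ⟨l, hl⟩ := by
      rw [LinearEquiv.symm_apply_eq]; rfl
    change ((e.symm (Ψ l) : L) : X) = l
    rw [h2]
  have hPP : ∀ y, P (P y) = P y := fun y => hPid _ (hPL y)
  -- Claim 1
  have c1 : ∀ y ∈ O, y ∈ Sm X → gr y (y - P y) = 0 := by
    intro y hy hys
    by_contra h0
    apply hcon y hy hys
    have hyL : y ∉ L := by
      intro hyL
      apply h0
      rw [hPid y hyL, sub_self, map_zero]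
    refine ⟨linearIndependent_finSnoc.2 ⟨hnd.1, hyL⟩, ?_⟩
    intro v hv hgv
    rw [range_snoc', Submodule.mem_span_insert] at hv
    obtain ⟨c, l, hl, rfl⟩ := hv
    have h2 : ∀ i, gr (x i) (c • y + l) = 0 := by
      intro i
      have := hgv i.castSucc
      rwa [Fin.snoc_castSucc] at this
    have h3 : gr y (c • y + l) = 0 := by
      have := hgv (Fin.last r)
      rwa [Fin.snoc_last] at this
    have h4 : c • P y + l = 0 := by
      apply hnd.2 _ (L.add_mem (L.smul_mem _ (hPL y)) hl)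
      intro i
      have := congrFun (hΨP y) i
      rw [hΨ, hΨ] at this
      rw [map_add, map_smul, this, ← map_smul, ← map_add]
      exact h2 i
    have h5 : c • y + l = c • (y - P y) := by
      rw [smul_sub]
      have : l = -(c • P y) := by rw [eq_neg_iff_add_eq_zero, add_comm]; exact h4
      rw [this]; abel
    rw [h5, map_smul, smul_eq_mul] at h3
    rcases mul_eq_zero.1 h3 with h | h
    · rw [h5, h, zero_smul]
    · exact absurd h h0
  -- Claim 2
  have c2 : ∀ y ∈ O, ∃ h ∈ Sub y, h (y - P y) = 0 := by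
    intro y hy
    have hex : ∀ j : ℕ, ∃ z ∈ O, z ∈ Sm X ∧ ‖z - y‖ < 1 / ((j : ℝ) + 1) := by
      intro j
      have hop : IsOpen (O ∩ ball y (1 / ((j : ℝ) + 1))) := hO.inter isOpen_ball
      obtain ⟨z, ⟨hz1, hz2⟩, hz⟩ := (dense_sm (X := X)).inter_open_nonempty _ hop
        ⟨y, hy, mem_ball_self (by positivity)⟩
      exact ⟨z, hz1, hz, by rw [← dist_eq_norm]; exact hz2⟩
    choose z hzO hzS hzn using hex
    have hzlim : Tendsto z atTop (𝓝 y) := by
      rw [tendsto_iff_norm_sub_tendsto_zero]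
      exact squeeze_zero (fun _ => norm_nonneg _) (fun n => (hzn n).le)
        tendsto_one_div_add_atTop_nhds_zero_nat
    obtain ⟨h, -, φ, hφ, hlim⟩ := (isCompact_closedBall (0 : X →L[ℝ] ℝ) 1).tendsto_subseq
      (x := fun j => gr (z j)) (fun j => by simpa using (gr_mem (z j)).1)
    have hzφ := hzlim.comp hφ.tendsto_atTop
    have hmem : h ∈ Sub y := sub_closed hzφ hlim (fun j => gr_mem _)
    refine ⟨h, hmem, ?_⟩
    have hPc : Continuous P := P.continuous_of_finiteDimensional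
    have h2 : Tendsto (fun j => gr (z (φ j)) (z (φ j) - P (z (φ j)))) atTop
        (𝓝 (h (y - P y))) :=
      ((isBoundedBilinearMap_apply (𝕜 := ℝ) (E := X) (F := ℝ)).continuous.tendsto
          (h, y - P y)).comp (hlim.prodMk_nhds (hzφ.sub ((hPc.tendsto y).comp hzφ)))
    have h3 : (fun j => gr (z (φ j)) (z (φ j) - P (z (φ j)))) = fun _ => (0 : ℝ) := by
      funext j; exact c1 _ (hzO _) (hzS _)
    rw [h3] at h2
    exact (tendsto_nhds_unique h2 tendsto_const_nhds)
  -- the case r = 0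
  rcases Nat.eq_zero_or_pos r with hr0 | hr0
  · obtain ⟨y, hy, hys⟩ := (dense_sm (X := X)).inter_open_nonempty O hO hne
    have h2 := c1 y hy hys
    have h3 : P y = 0 := by
      have hL0 : L = ⊥ := by
        rw [← Submodule.finrank_eq_zero (R := ℝ), hLdim, hr0]
      have := hPL y
      rw [hL0, Submodule.mem_bot] at this
      exact this
    rw [h3, sub_zero, gr_self] at h2
    exact sm_ne hys (norm_eq_zero.1 h2)
  -- Claim 3
  obtain ⟨y0, hy0⟩ := hne
  obtain ⟨ε, hε, hball⟩ := Metric.isOpen_iff.1 hO y0 hy0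
  let Q : X →L[ℝ] X := LinearMap.toContinuousLinearMap (LinearMap.id - P)
  have hQ : ∀ y, Q y = y - P y := fun y => rfl
  set C : ℝ := ‖Q‖ * (‖y0‖ + ε) + 1 with hC
  have hC0 : 0 < C := by positivity
  set τ : ℝ := ε / (4 * C) with hτ
  have hτ0 : 0 < τ := by positivity
  let T : X →ₗ[ℝ] X := LinearMap.id + τ • (LinearMap.id - P)
  have hT : ∀ y, T y = y + τ • (y - P y) := fun y => rfl
  have hloc : ∀ y ∈ ball y0 (ε / 2), ‖T y‖ = ‖y‖ := by
    intro y hy
    have hyO : y ∈ O := hball (ball_subset_ball (by linarith) hy)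
    have hyn : ‖y‖ ≤ ‖y0‖ + ε := by
      have : ‖y - y0‖ < ε / 2 := by rw [← dist_eq_norm]; exact hy
      calc ‖y‖ = ‖y0 + (y - y0)‖ := by congr 1; abel
        _ ≤ ‖y0‖ + ‖y - y0‖ := norm_add_le _ _
        _ ≤ ‖y0‖ + ε := by linarith
    have hQy : ‖y - P y‖ ≤ C := by
      rw [← hQ]
      calc ‖Q y‖ ≤ ‖Q‖ * ‖y‖ := Q.le_opNorm y
        _ ≤ ‖Q‖ * (‖y0‖ + ε) := mul_le_mul_of_nonneg_left hyn (norm_nonneg _)
        _ ≤ C := by rw [hC]; linarith
    have hTyO : T y ∈ O := by
      apply hball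
      rw [mem_ball, dist_eq_norm, hT]
      have e1 : y + τ • (y - P y) - y0 = (y - y0) + τ • (y - P y) := by abel
      rw [e1]
      have e2 : ‖y - y0‖ < ε / 2 := by rw [← dist_eq_norm]; exact hy
      have e3 : ‖τ • (y - P y)‖ ≤ ε / 4 := by
        rw [norm_smul, Real.norm_of_nonneg hτ0.le]
        calc τ * ‖y - P y‖ ≤ τ * C := mul_le_mul_of_nonneg_left hQy hτ0.le
          _ = ε / 4 := by rw [hτ]; field_simp
      calc ‖(y - y0) + τ • (y - P y)‖ ≤ ‖y - y0‖ + ‖τ • (y - P y)‖ := norm_add_le _ _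
        _ < ε := by linarith
    apply le_antisymm
    · obtain ⟨h, hh, hh0⟩ := c2 (T y) hTyO
      have e1 : T y - P (T y) = (1 + τ) • (y - P y) := by
        rw [hT, map_add, map_smul, map_sub, hPP, sub_self, smul_zero, add_zero, add_smul,
          one_smul]
        abel
      have e2 : h (y - P y) = 0 := by
        rw [e1, map_smul, smul_eq_mul] at hh0
        rcases mul_eq_zero.1 hh0 with h' | h'
        · linarith
        · exact h'
      have e3 : h y = ‖T y‖ := by
        rw [← hh.2, hT, map_add, map_smul, e2, smul_zero, add_zero]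
      rw [← e3]; exact sub_le hh y
    · obtain ⟨h, hh, hh0⟩ := c2 y hyO
      have e3 : h (T y) = ‖y‖ := by
        rw [← hh.2, hT, map_add, map_smul, hh0, smul_zero, add_zero]
      rw [← e3]; exact sub_le hh _
  have hnot : ¬ IsScaledIso T := by
    -- a vector in `L`
    let i0 : Fin r := ⟨0, hr0⟩
    have hx0 : x i0 ∈ L := Submodule.subset_span ⟨i0, rfl⟩
    have hx0n : x i0 ≠ 0 := sm_ne (hxs i0)
    -- a vector in `ker P`
    obtain ⟨v, hv0, hv⟩ : ∃ v : X, v ≠ 0 ∧ P v = 0 := by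
      by_contra hcon2
      push Not at hcon2
      have hPinj : Function.Injective P := by
        rw [← LinearMap.ker_eq_bot, LinearMap.ker_eq_bot']
        intro v hv
        by_contra h0
        exact hcon2 v h0 hv
      have h2 : finrank ℝ X ≤ finrank ℝ L := by
        have h3 : LinearMap.range P ≤ L := by
          rintro _ ⟨y, rfl⟩; exact hPL y
        have h4 := LinearMap.finrank_range_of_inj hPinj
        rw [← h4]
        exact Submodule.finrank_mono h3
      omega
    apply not_scaled hx0n hv0 (a := 1) (b := 1 + τ)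
    · rw [hT, hPid _ hx0, sub_self, smul_zero, add_zero, one_mul]
    · rw [hT, hv, sub_zero]
      have : v + τ • v = (1 + τ) • v := by rw [add_smul, one_smul]
      rw [this, norm_smul, Real.norm_of_nonneg (by linarith)]
    · linarith
  exact gp n hn hfin h1 T hnot (ball y0 (ε / 2)) isOpen_ball ⟨y0, mem_ball_self (by linarith)⟩ hloc

end R876.KS
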