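import Pool.Agent.R876.KS.A

/-!
# Project KS, piece B: generic hyperplanes (Baire)
-/

namespace R876.KS

open Metric Filter Topology Module

variable {X : Type*} [NormedAddCommGroup X] [NormedSpace ℝ X]

/-- Linear combinations. -/
def comb {k : ℕ} (c : Fin k → ℝ) (v : Fin k → X) : X := ∑ i, c i • v i

/-- Robustly nondegenerate families. -/
def Rb (X : Type*) [NormedAddCommGroup X] [NormedSpace ℝ X] (k : ℕ) : Set (Fin k → X) :=
  {x | ∀ h : Fin k → X →L[ℝ] ℝ, (∀ i, h i ∈ Sub (x i)) →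
    ∀ c : Fin k → ℝ, (∀ i, h i (comb c x) = 0) → c = 0}

theorem continuous_comb_left {k : ℕ} (v : Fin k → X) :
    Continuous fun c : Fin k → ℝ => comb c v := by
  unfold comb; fun_prop

theorem continuous_comb_right {k : ℕ} (c : Fin k → ℝ) :
    Continuous fun v : Fin k → X => comb c v := by
  unfold comb; fun_prop

theorem isOpen_Rb [FiniteDimensional ℝ X] (k : ℕ) : IsOpen (Rb X k) := by
  rw [← isClosed_compl_iff]
  apply IsSeqClosed.isClosed
  intro x x0 hx hlim hx0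
  have hex : ∀ j, ∃ (h : Fin k → X →L[ℝ] ℝ) (c : Fin k → ℝ), (∀ i, h i ∈ Sub (x j i)) ∧
      (∀ i, h i (comb c (x j)) = 0) ∧ ‖c‖ = 1 := by
    intro j
    have h1 := hx j
    simp only [Rb, Set.mem_compl_iff, Set.mem_ofPred_eq] at h1
    push Not at h1
    obtain ⟨h, hh, c, hc, hc0⟩ := h1
    have hcn : ‖c‖ ≠ 0 := norm_ne_zero_iff.2 hc0
    refine ⟨h, ‖c‖⁻¹ • c, hh, ?_, ?_⟩
    · intro i
      have : comb (‖c‖⁻¹ • c) (x j) = ‖c‖⁻¹ • comb c (x j) := by
        unfold comb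
        rw [Finset.smul_sum]
        apply Finset.sum_congr rfl
        intro i _
        rw [Pi.smul_apply, smul_eq_mul, mul_smul]
      rw [this, map_smul, hc, smul_zero]
    · rw [norm_smul, norm_inv, norm_norm, inv_mul_cancel₀ hcn]
  choose h c hh hc hcn using hex
  have hcpt : IsCompact ((Set.pi Set.univ fun _ : Fin k => closedBall (0 : X →L[ℝ] ℝ) 1) ×ˢ
      (sphere (0 : Fin k → ℝ) 1)) :=
    (isCompact_univ_pi fun _ => isCompact_closedBall _ _).prod (isCompact_sphere _ _)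
  obtain ⟨⟨h0, c0⟩, hmem, φ, hφ, hl⟩ := hcpt.tendsto_subseq (x := fun j => (h j, c j))
    (fun j => ⟨fun i _ => by simpa using (hh j i).1, by simpa using hcn j⟩)
  have hhl : Tendsto (fun j => h (φ j)) atTop (𝓝 h0) := (continuous_fst.tendsto _).comp hl
  have hcl : Tendsto (fun j => c (φ j)) atTop (𝓝 c0) := (continuous_snd.tendsto _).comp hl
  have hxl : Tendsto (fun j => x (φ j)) atTop (𝓝 x0) := hlim.comp hφ.tendsto_atTop
  have h1 : ∀ i, h0 i ∈ Sub (x0 i) := fun i =>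
    sub_closed ((tendsto_pi_nhds.1 hxl) i) ((tendsto_pi_nhds.1 hhl) i) (fun j => hh (φ j) i)
  have h2 : ∀ i, h0 i (comb c0 x0) = 0 := by
    intro i
    have t1 : Tendsto (fun j => comb (c (φ j)) (x (φ j))) atTop (𝓝 (comb c0 x0)) := by
      unfold comb
      apply tendsto_finsetSum
      intro i _
      exact ((tendsto_pi_nhds.1 hcl) i).smul ((tendsto_pi_nhds.1 hxl) i)
    have t2 : Tendsto (fun j => h (φ j) i (comb (c (φ j)) (x (φ j)))) atTop
        (𝓝 (h0 i (comb c0 x0))) :=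
      ((isBoundedBilinearMap_apply (𝕜 := ℝ) (E := X) (F := ℝ)).continuous.tendsto
          (h0 i, comb c0 x0)).comp (((tendsto_pi_nhds.1 hhl) i).prodMk_nhds t1)
    have t3 : (fun j => h (φ j) i (comb (c (φ j)) (x (φ j)))) = fun _ => (0 : ℝ) := by
      funext j; exact hc (φ j) i
    rw [t3] at t2
    exact tendsto_nhds_unique t2 tendsto_const_nhds
  have h3 := hx0 h0 h1 c0 h2
  have h4 : ‖c0‖ = 1 := by simpa using hmem.2
  rw [h3, norm_zero] at h4
  exact zero_ne_one h4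

theorem Rb_nd {k : ℕ} {x : Fin k → X} (hx : x ∈ Rb X k) : ND x := by
  have key := hx (fun i => gr (x i)) (fun i => gr_mem _)
  constructor
  · rw [Fintype.linearIndependent_iff]
    intro c hc i
    have : c = 0 := by
      apply key
      intro i
      have h0 : comb c x = 0 := hc
      rw [h0, map_zero]
    rw [this]; rfl
  · intro v hv hgv
    obtain ⟨c, rfl⟩ := (Submodule.mem_span_range_iff_exists_fun ℝ).1 hv
    have : c = 0 := key c hgv
    rw [this]; simp

theorem nd_Rb {k : ℕ} {x : Fin k → X} (hs : ∀ i, x i ∈ Sm X) (hx : ND x) : x ∈ Rb X k := by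
  intro h hh c hc
  have h1 : ∀ i, h i = gr (x i) := fun i => sm_eq_gr (hs i) (hh i)
  have h2 : comb c x = 0 := by
    apply hx.2
    · exact (Submodule.mem_span_range_iff_exists_fun ℝ).2 ⟨c, rfl⟩
    · intro i; rw [← h1]; exact hc i
  have h3 := Fintype.linearIndependent_iff.1 hx.1 c h2
  funext i; exact h3 i

/-- Almost smooth points. -/
def Dl (X : Type*) [NormedAddCommGroup X] [NormedSpace ℝ X] (l : ℕ) : Set X :=
  {x | x ≠ 0 ∧ ∀ h ∈ Sub x, ∀ h' ∈ Sub x, ‖h - h'‖ < 1 / ((l : ℝ) + 1)}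

theorem isOpen_Dl [FiniteDimensional ℝ X] (l : ℕ) : IsOpen (Dl X l) := by
  rw [← isClosed_compl_iff]
  apply IsSeqClosed.isClosed
  intro x x0 hx hlim hx0
  obtain ⟨hx00, hx0'⟩ := hx0
  have hev : ∀ᶠ j in atTop, x j ≠ 0 := hlim.eventually (isOpen_compl_singleton.mem_nhds hx00)
  obtain ⟨N, hN⟩ := eventually_atTop.1 hev
  have hex : ∀ j, ∃ (h h' : X →L[ℝ] ℝ), h ∈ Sub (x (N + j)) ∧ h' ∈ Sub (x (N + j)) ∧
      1 / ((l : ℝ) + 1) ≤ ‖h - h'‖ := by
    intro j
    have h1 := hx (N + j)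
    simp only [Dl, Set.mem_compl_iff, Set.mem_ofPred_eq] at h1
    push Not at h1
    obtain ⟨h, hh, h', hh', hle⟩ := h1 (hN _ (Nat.le_add_right _ _))
    exact ⟨h, h', hh, hh', hle⟩
  choose h h' hh hh' hle using hex
  obtain ⟨⟨a, a'⟩, -, φ, hφ, hl⟩ :=
    ((isCompact_closedBall (0 : X →L[ℝ] ℝ) 1).prod
      (isCompact_closedBall (0 : X →L[ℝ] ℝ) 1)).tendsto_subseq (x := fun j => (h j, h' j))
    (fun j => ⟨by simpa using (hh j).1, by simpa using (hh' j).1⟩)
  have t1 : Tendsto (fun j => h (φ j)) atTop (𝓝 a) := (continuous_fst.tendsto _).comp hl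
  have t2 : Tendsto (fun j => h' (φ j)) atTop (𝓝 a') := (continuous_snd.tendsto _).comp hl
  have hxl : Tendsto (fun j => x (N + φ j)) atTop (𝓝 x0) :=
    hlim.comp (tendsto_atTop_mono (fun j => Nat.le_add_left _ _) hφ.tendsto_atTop)
  have m1 : a ∈ Sub x0 := sub_closed hxl t1 (fun j => hh _)
  have m2 : a' ∈ Sub x0 := sub_closed hxl t2 (fun j => hh' _)
  have h3 : 1 / ((l : ℝ) + 1) ≤ ‖a - a'‖ :=
    ge_of_tendsto ((t1.sub t2).norm) (Eventually.of_forall fun j => hle (φ j))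
  exact absurd (hx0' a m1 a' m2) (not_lt.2 h3)

theorem sm_iff_Dl {x : X} : x ∈ Sm X ↔ ∀ l, x ∈ Dl X l := by
  constructor
  · intro hx l
    refine ⟨sm_ne hx, fun h hh h' hh' => ?_⟩
    rw [hx.2 hh hh', sub_self, norm_zero]; positivity
  · intro hx
    refine ⟨(hx 0).1, ?_⟩
    intro h hh h' hh'
    by_contra hne
    have hpos : 0 < ‖h - h'‖ := norm_pos_iff.2 (sub_ne_zero.2 hne)
    obtain ⟨l, hl⟩ := exists_nat_one_div_lt hpos
    exact absurd ((hx l).2 h hh h' hh') (not_lt.2 hl.le)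

theorem dense_Dl [FiniteDimensional ℝ X] [Nontrivial X] (l : ℕ) : Dense (Dl X l) :=
  dense_sm.mono fun _ hx => sm_iff_Dl.1 hx l

/-- Families of smooth points in prescribed open sets. -/
theorem f5_family [FiniteDimensional ℝ X] (hF : F5Stm X) {n : ℕ} (hn : 2 ≤ n)
    (hfin : finrank ℝ X = n) (h1 : P1 X n) : ∀ k, k ≤ n → ∀ O : Fin k → Set X,
    (∀ i, IsOpen (O i)) → (∀ i, (O i).Nonempty) →
    ∃ x : Fin k → X, (∀ i, x i ∈ O i ∧ x i ∈ Sm X) ∧ ND x := by
  intro k
  induction k with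
  | zero =>
    intro _ O _ _
    refine ⟨Fin.elim0, fun i => i.elim0, linearIndependent_empty_type, ?_⟩
    intro v hv _
    have : Set.range (Fin.elim0 : Fin 0 → X) = ∅ := Set.range_eq_empty _
    rw [this, Submodule.span_empty, Submodule.mem_bot] at hv
    exact hv
  | succ k ih =>
    intro hk O hO hne
    obtain ⟨x, hx, hnd⟩ := ih (by omega) (fun i => O i.castSucc) (fun i => hO _) (fun i => hne _)
    obtain ⟨y, hyO, hyS, hnd'⟩ := hF n hn hfin h1 k (by omega) x (fun i => (hx i).2) hnd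
      (O (Fin.last k)) (hO _) (hne _)
    refine ⟨Fin.snoc x y, fun i => ?_, hnd'⟩
    refine Fin.lastCases ?_ (fun i => ?_) i
    · rw [Fin.snoc_last]; exact ⟨hyO, hyS⟩
    · rw [Fin.snoc_castSucc]; exact hx i

theorem f5_family' [FiniteDimensional ℝ X] (hF : F5Stm X) {m : ℕ}
    (hfin : finrank ℝ X = m + 2) (h1 : P1 X (m + 2)) (O : Fin (m + 1) → Set X)
    (hO : ∀ i, IsOpen (O i)) (hne : ∀ i, (O i).Nonempty) :
    ∃ x : Fin (m + 1) → X, (∀ i, x i ∈ O i ∧ x i ∈ Sm X) ∧ ND x ∧ ND (Fin.init x) := by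
  obtain ⟨x, hx, hnd⟩ := f5_family hF (by omega) hfin h1 m (by omega)
    (fun i => O i.castSucc) (fun i => hO _) (fun i => hne _)
  obtain ⟨y, hyO, hyS, hnd'⟩ := hF (m + 2) (by omega) hfin h1 m (by omega) x
    (fun i => (hx i).2) hnd (O (Fin.last m)) (hO _) (hne _)
  refine ⟨Fin.snoc x y, fun i => ?_, hnd', ?_⟩
  · refine Fin.lastCases ?_ (fun i => ?_) i
    · rw [Fin.snoc_last]; exact ⟨hyO, hyS⟩
    · rw [Fin.snoc_castSucc]; exact hx i
  · rw [Fin.init_snoc]; exact hnd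

/-- The good set of families. -/
def Rob (X : Type*) [NormedAddCommGroup X] [NormedSpace ℝ X] (m : ℕ) : Set (Fin (m + 1) → X) :=
  {x | x ∈ Rb X (m + 1) ∧ Fin.init (α := fun _ => X) x ∈ Rb X m}

theorem isOpen_Rob [FiniteDimensional ℝ X] (m : ℕ) : IsOpen (Rob X m) := by
  have hc : Continuous fun x : Fin (m + 1) → X => (Fin.init (α := fun _ => X) x : Fin m → X) := by
    apply continuous_pi
    intro i
    exact continuous_apply _
  exact (isOpen_Rb (m + 1)).inter ((isOpen_Rb m).preimage hc)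

/-- First family of dense open sets. -/
def Ab (X : Type*) [NormedAddCommGroup X] [NormedSpace ℝ X] (m : ℕ)
    (b : Set (Fin (m + 1) → ℝ)) : Set (Fin (m + 1) → X) :=
  {v | ∃ c : Fin (m + 1) → (Fin (m + 1) → ℝ), (∀ j, c j ∈ b) ∧
    (fun j => comb (c j) v) ∈ Rob X m}

/-- Second family of dense open sets. -/
def Al (X : Type*) [NormedAddCommGroup X] [NormedSpace ℝ X] (m : ℕ)
    (b : Set (Fin (m + 1) → ℝ)) (l : ℕ) : Set (Fin (m + 1) → X) :=
  {v | ∃ c ∈ b, comb c v ∈ Dl X l}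

theorem isOpen_Ab [FiniteDimensional ℝ X] (m : ℕ) (b : Set (Fin (m + 1) → ℝ)) :
    IsOpen (Ab X m b) := by
  have : Ab X m b = ⋃ c ∈ {c : Fin (m + 1) → (Fin (m + 1) → ℝ) | ∀ j, c j ∈ b},
      (fun v : Fin (m + 1) → X => fun j => comb (c j) v) ⁻¹' Rob X m := by
    ext v
    simp [Ab]
  rw [this]
  apply isOpen_biUnion
  intro c _
  apply (isOpen_Rob m).preimage
  apply continuous_pi
  intro j
  exact continuous_comb_right _

theorem isOpen_Al [FiniteDimensional ℝ X] (m : ℕ) (b : Set (Fin (m + 1) → ℝ)) (l : ℕ) :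
    IsOpen (Al X m b l) := by
  have : Al X m b l = ⋃ c ∈ b, (fun v : Fin (m + 1) → X => comb c v) ⁻¹' Dl X l := by
    ext v
    simp [Al]
  rw [this]
  apply isOpen_biUnion
  intro c _
  exact (isOpen_Dl l).preimage (continuous_comb_right _)

theorem dense_Ab [FiniteDimensional ℝ X] (hF : F5Stm X) {m : ℕ} (hfin : finrank ℝ X = m + 2)
    (h1 : P1 X (m + 2)) {b : Set (Fin (m + 1) → ℝ)} (hb : IsOpen b) (hbn : b.Nonempty) :
    Dense (Ab X m b) := by
  rw [dense_iff_inter_open]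
  rintro U hU ⟨v, hv⟩
  obtain ⟨c0, hc0⟩ := hbn
  obtain ⟨δ, hδ, hball⟩ := Metric.isOpen_iff.1 hb c0 hc0
  obtain ⟨c, hc, hli⟩ := exists_basis_in_ball (X := Fin (m + 1) → ℝ) (n := m + 1)
    (finrank_fin_fun ℝ) c0 hδ
  let M : Matrix (Fin (m + 1)) (Fin (m + 1)) ℝ := Matrix.of c
  have hM : IsUnit M := by
    rw [← Matrix.linearIndependent_rows_iff_isUnit]
    exact hli
  have hMM : M * M⁻¹ = 1 := Matrix.mul_nonsing_inv M ((Matrix.isUnit_iff_isUnit_det M).1 hM)
  let Λ : (Fin (m + 1) → X) → (Fin (m + 1) → X) := fun v j => comb (c j) v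
  let Λ' : (Fin (m + 1) → X) → (Fin (m + 1) → X) := fun x i => comb (M⁻¹ i) x
  have hΛ' : Continuous Λ' := continuous_pi fun i => continuous_comb_right _
  have hΛΛ' : ∀ x, Λ (Λ' x) = x := by
    intro x
    funext j
    change ∑ i, c j i • ∑ l, M⁻¹ i l • x l = x j
    simp_rw [Finset.smul_sum, smul_smul]
    rw [Finset.sum_comm]
    simp_rw [← Finset.sum_smul]
    have : ∀ l, ∑ i, c j i * M⁻¹ i l = (1 : Matrix (Fin (m + 1)) (Fin (m + 1)) ℝ) j l := by
      intro l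
      rw [← hMM, Matrix.mul_apply]
      rfl
    simp_rw [this, Matrix.one_apply]
    simp
  have hΛadd : ∀ x y, Λ (x + y) = Λ x + Λ y := by
    intro x y
    funext j
    simp only [Λ, comb, Pi.add_apply, smul_add, Finset.sum_add_distrib]
  have hΛ'0 : Λ' 0 = 0 := by
    funext i
    simp [Λ', comb]
  let G : Set (Fin (m + 1) → X) := (fun x => v + Λ' (x - Λ v)) ⁻¹' U
  have hG : IsOpen G := hU.preimage (continuous_const.add (hΛ'.comp (continuous_id.sub
    continuous_const)))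
  have hvG : Λ v ∈ G := by
    change v + Λ' (Λ v - Λ v) ∈ U
    rw [sub_self, hΛ'0, add_zero]; exact hv
  obtain ⟨ε, hε, hballG⟩ := Metric.isOpen_iff.1 hG _ hvG
  obtain ⟨x, hx, hnd, hnd'⟩ := f5_family' hF hfin h1 (fun i => ball (Λ v i) ε)
    (fun i => isOpen_ball) (fun i => ⟨_, mem_ball_self hε⟩)
  have hxG : x ∈ G := by
    apply hballG
    rw [mem_ball, dist_pi_lt_iff hε]
    intro i
    exact (hx i).1
  refine ⟨v + Λ' (x - Λ v), hxG, c, fun j => hball (hc j), ?_⟩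
  have e1 : (fun j => comb (c j) (v + Λ' (x - Λ v))) = x := by
    change Λ (v + Λ' (x - Λ v)) = x
    rw [hΛadd, hΛΛ']; abel
  rw [e1]
  exact ⟨nd_Rb (fun i => (hx i).2) hnd, nd_Rb (fun i => (hx i.castSucc).2) hnd'⟩

theorem dense_Al [FiniteDimensional ℝ X] [Nontrivial X] {m : ℕ}
    {b : Set (Fin (m + 1) → ℝ)} (hb : IsOpen b) (hbn : b.Nonempty) (l : ℕ) :
    Dense (Al X m b l) := by
  classical
  rw [dense_iff_inter_open]
  rintro U hU ⟨v, hv⟩
  obtain ⟨c, hcb, hc0⟩ := (dense_compl_singleton (0 : Fin (m + 1) → ℝ)).inter_open_nonempty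
    b hb hbn
  obtain ⟨i0, hi0⟩ : ∃ i, c i ≠ 0 := by
    by_contra hcon
    push Not at hcon
    exact hc0 (funext hcon)
  let Θ : X → (Fin (m + 1) → X) := fun x => v + Pi.single i0 ((c i0)⁻¹ • (x - comb c v))
  have hΘ : Continuous Θ := by
    apply continuous_const.add
    apply (continuous_single i0).comp
    fun_prop
  have hΘ0 : Θ (comb c v) = v := by simp [Θ]
  have hcomb : ∀ x, comb c (Θ x) = x := by
    intro x
    have e1 : comb c (Θ x) = comb c v + comb c (Pi.single i0 ((c i0)⁻¹ • (x - comb c v))) := by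
      simp only [Θ, comb, Pi.add_apply, smul_add, Finset.sum_add_distrib]
    have e2 : comb c (Pi.single i0 ((c i0)⁻¹ • (x - comb c v))) = x - comb c v := by
      unfold comb
      rw [Finset.sum_eq_single i0]
      · rw [Pi.single_eq_same, smul_smul, mul_inv_cancel₀ hi0, one_smul]
      · intro j _ hj
        rw [Pi.single_eq_of_ne hj, smul_zero]
      · intro h; exact absurd (Finset.mem_univ _) h
    rw [e1, e2]; abel
  obtain ⟨x, hxU, hxD⟩ := (dense_Dl (X := X) l).inter_open_nonempty (Θ ⁻¹' U) (hU.preimage hΘ)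
    ⟨comb c v, by rw [Set.mem_preimage, hΘ0]; exact hv⟩
  exact ⟨Θ x, hxU, c, hcb, by rw [hcomb]; exact hxD⟩

/-- KS-B. -/
theorem gen_of_f5 [FiniteDimensional ℝ X] (hF : F5Stm X) : GenStm X := by
  intro m hfin h1 U hU hUn
  have hnt : Nontrivial X := by
    apply Module.nontrivial_of_finrank_pos (R := ℝ); omega
  haveI : CompleteSpace X := FiniteDimensional.complete ℝ X
  let B := TopologicalSpace.countableBasis (Fin (m + 1) → ℝ)
  have hBc : B.Countable := TopologicalSpace.countable_countableBasis _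
  haveI : Countable B := hBc.to_subtype
  have hBb := TopologicalSpace.isBasis_countableBasis (Fin (m + 1) → ℝ)
  have hBo : ∀ b : B, IsOpen (b : Set (Fin (m + 1) → ℝ)) := fun b =>
    TopologicalSpace.isOpen_of_mem_countableBasis b.2
  have hBn : ∀ b : B, (b : Set (Fin (m + 1) → ℝ)).Nonempty := fun b =>
    TopologicalSpace.nonempty_of_mem_countableBasis b.2
  have hd : Dense (⋂ s : B × ℕ, (Ab X m (s.1 : Set (Fin (m + 1) → ℝ)) ∩
      Al X m (s.1 : Set (Fin (m + 1) → ℝ)) s.2)) := by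
    apply dense_iInter_of_isOpen
    · intro s
      exact (isOpen_Ab m _).inter (isOpen_Al m _ _)
    · intro s
      exact (dense_Ab hF hfin h1 (hBo s.1) (hBn s.1)).inter_of_isOpen_left
        (dense_Al (hBo s.1) (hBn s.1) s.2) (isOpen_Ab m _)
  obtain ⟨v, hvU, hv⟩ := hd.inter_open_nonempty U hU hUn
  rw [Set.mem_iInter] at hv
  refine ⟨v, hvU, ?_⟩
  -- smooth combinations are dense
  have hsd : Dense {c : Fin (m + 1) → ℝ | comb c v ∈ Sm X} := by
    have h2 : Dense (⋂ l : ℕ, (fun c : Fin (m + 1) → ℝ => comb c v) ⁻¹' Dl X l) := by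
      apply dense_iInter_of_isOpen
      · intro l
        exact (isOpen_Dl l).preimage (continuous_comb_left v)
      · intro l
        rw [dense_iff_inter_open]
        rintro O hO ⟨c, hc⟩
        obtain ⟨b, hb, hcb, hbO⟩ := hBb.exists_subset_of_mem_open hc hO
        obtain ⟨c', hc', hc'D⟩ := (hv (⟨b, hb⟩, l)).2
        exact ⟨c', hbO hc', hc'D⟩
    refine h2.mono fun c hc => ?_
    rw [Set.mem_iInter] at hc
    exact sm_iff_Dl.2 hc
  intro y hy ε hε
  obtain ⟨c0, hc0⟩ := (Submodule.mem_span_range_iff_exists_fun ℝ).1 hy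
  have hc0' : comb c0 v = y := hc0
  have hNo : IsOpen {c : Fin (m + 1) → ℝ | ‖comb c v - y‖ < ε} :=
    isOpen_lt ((continuous_comb_left v).sub continuous_const).norm continuous_const
  obtain ⟨b, hb, hcb, hbN⟩ := hBb.exists_subset_of_mem_open
    (show c0 ∈ {c : Fin (m + 1) → ℝ | ‖comb c v - y‖ < ε} by
      rw [Set.mem_ofPred_eq, hc0', sub_self, norm_zero]; exact hε) hNo
  obtain ⟨c, hc, hcR⟩ := (hv (⟨b, hb⟩, 0)).1
  have hbo : IsOpen b := hBo ⟨b, hb⟩
  let H : Set (Fin (m + 1) → (Fin (m + 1) → ℝ)) :=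
    (Set.pi Set.univ fun _ => b) ∩
      (fun c : Fin (m + 1) → (Fin (m + 1) → ℝ) => fun j => comb (c j) v) ⁻¹' Rob X m
  have hH : IsOpen H := by
    apply IsOpen.inter
    · exact isOpen_set_pi Set.finite_univ fun _ _ => hbo
    · apply (isOpen_Rob m).preimage
      apply continuous_pi
      intro j
      exact (continuous_comb_left v).comp (continuous_apply j)
  have hpd : Dense (Set.pi Set.univ fun _ : Fin (m + 1) =>
      {c : Fin (m + 1) → ℝ | comb c v ∈ Sm X}) := dense_pi _ fun _ _ => hsd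
  obtain ⟨c', ⟨hc'b, hc'R⟩, hc'S⟩ := hpd.inter_open_nonempty H hH ⟨c, fun j _ => hc j, hcR⟩
  refine ⟨fun j => comb (c' j) v, fun j => ⟨?_, hc'S j (Set.mem_univ _), ?_⟩,
    Rb_nd hc'R.1, Rb_nd hc'R.2⟩
  · exact (Submodule.mem_span_range_iff_exists_fun ℝ).2 ⟨c' j, rfl⟩
  · exact hbN (hc'b j (Set.mem_univ _))

end R876.KS
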