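import Pool.Agent.R876.KS.D

/-!
# Project KS, piece C: selection of the open sets
-/

namespace R876.KS

namespace PC

open Metric Filter Topology Module

variable {X : Type*} [NormedAddCommGroup X] [NormedSpace ℝ X]

/-- `b` is killed by the gradients at all smooth points of `O ∩ V`. -/
def Kill (V : Submodule ℝ X) (O : Set X) (b : X) : Prop :=
  ∀ x ∈ O, x ∈ V → x ∈ Sm X → gr x b = 0

theorem Kill.mono {V : Submodule ℝ X} {O O' : Set X} {b : X} (h : Kill V O b) (hs : O' ⊆ O) :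
    Kill V O' b := fun x hx hxV hxS => h x (hs hx) hxV hxS

/-- Nondegenerate families exist near each point of `V`. -/
theorem n0 {m : ℕ} {V : Submodule ℝ X} (hG : Gen m V) {O : Set X} (hO : IsOpen O) {y : X}
    (hy : y ∈ O) (hyV : y ∈ V) : ∃ x : Fin (m + 1) → X,
      (∀ i, x i ∈ O ∧ x i ∈ V ∧ x i ∈ Sm X) ∧ ND x ∧ ND (Fin.init x) := by
  obtain ⟨ε, hε, hb⟩ := Metric.isOpen_iff.1 hO y hy
  obtain ⟨x, hx, h1, h2⟩ := hG y hyV ε hε
  refine ⟨x, fun i => ⟨hb ?_, (hx i).1, (hx i).2.1⟩, h1, h2⟩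
  rw [mem_ball, dist_eq_norm]
  exact (hx i).2.2

theorem n0' {m : ℕ} {V : Submodule ℝ X} (hG : Gen m V) {O : Set X} (hO : IsOpen O) {y : X}
    (hy : y ∈ O) (hyV : y ∈ V) : ∃ x, x ∈ O ∧ x ∈ V ∧ x ∈ Sm X := by
  obtain ⟨x, hx, -, -⟩ := n0 hG hO hy hyV
  exact ⟨x 0, hx 0⟩

theorem n1 [FiniteDimensional ℝ X] {m : ℕ} {V : Submodule ℝ X} (hV : finrank ℝ V = m + 1)
    (hG : Gen m V) {O : Set X} (hO : IsOpen O) {y : X}
    (hy : y ∈ O) (hyV : y ∈ V) {b : X} (hb : b ∈ V) (hk : Kill V O b) : b = 0 := by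
  obtain ⟨x, hx, h1, -⟩ := n0 hG hO hy hyV
  apply h1.2 b
  · rw [span_eq_of_li hV (fun i => (hx i).2.1) h1.1]; exact hb
  · intro i
    exact hk (x i) (hx i).1 (hx i).2.1 (hx i).2.2

theorem n3 [FiniteDimensional ℝ X] {m : ℕ} (hfin : finrank ℝ X = m + 2) {V : Submodule ℝ X}
    (hV : finrank ℝ V = m + 1) (hG : Gen m V) {O : Set X} (hO : IsOpen O) {y : X}
    (hy : y ∈ O) (hyV : y ∈ V) {b b' : X} (hb0 : b ≠ 0) (hk : Kill V O b) (hk' : Kill V O b') :
    ∃ c : ℝ, b' = c • b := by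
  obtain ⟨g, -, hg⟩ := exists_functional hfin hV
  have hgb : g b ≠ 0 := by
    intro h
    exact hb0 (n1 hV hG hO hy hyV ((hg b).1 h) hk)
  refine ⟨g b' / g b, ?_⟩
  have h1 : b' - (g b' / g b) • b ∈ V := by
    rw [← hg, map_sub, map_smul, smul_eq_mul, div_mul_cancel₀ _ hgb, sub_self]
  have h2 : Kill V O (b' - (g b' / g b) • b) := by
    intro x hx hxV hxS
    rw [map_sub, map_smul, hk x hx hxV hxS, hk' x hx hxV hxS, smul_zero, sub_zero]
  have h3 := n1 hV hG hO hy hyV h1 h2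
  exact sub_eq_zero.1 h3

/-- The condition `gr x y ≠ 0` is open at smooth `x`. -/
theorem opn [FiniteDimensional ℝ X] {x y : X} (hx : x ∈ Sm X) (h : gr x y ≠ 0) :
    ∃ δ > 0, ∀ x' y', ‖x' - x‖ < δ → ‖y' - y‖ < δ → gr x' y' ≠ 0 := by
  have hpos : 0 < |gr x y| := abs_pos.2 h
  set a := |gr x y| with ha
  obtain ⟨δ, hδ, hd⟩ := sm_usc hx (ε := a / (2 * (‖y‖ + 1))) (by positivity)
  refine ⟨min δ (a / 2), by positivity, fun x' y' h1 h2 h3 => ?_⟩
  have e1 := hd x' (lt_of_lt_of_le h1 (min_le_left _ _)) (gr x') (gr_mem x')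
  have e2 : ‖y' - y‖ < a / 2 := lt_of_lt_of_le h2 (min_le_right _ _)
  have e3 : gr x y = gr x' y' - gr x' (y' - y) - (gr x' - gr x) y := by
    rw [map_sub, sub_apply]; ring
  have e4 : |gr x' (y' - y)| ≤ ‖y' - y‖ := sub_abs_le (gr_mem x') _
  have e5 : |(gr x' - gr x) y| ≤ ‖gr x' - gr x‖ * ‖y‖ := (gr x' - gr x).le_opNorm y
  have e6 : ‖gr x' - gr x‖ * ‖y‖ ≤ a / (2 * (‖y‖ + 1)) * (‖y‖ + 1) := by
    apply mul_le_mul e1.le (by linarith) (norm_nonneg _) (by positivity)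
  have e7 : a / (2 * (‖y‖ + 1)) * (‖y‖ + 1) = a / 2 := by
    have : ‖y‖ + 1 ≠ 0 := by positivity
    field_simp
  have e8 : a ≤ |gr x' (y' - y)| + |(gr x' - gr x) y| := by
    rw [ha, e3, h3, zero_sub]
    have := abs_sub (-(gr x' (y' - y))) ((gr x' - gr x) y)
    rwa [abs_neg] at this
  linarith

/-- The property (*) of the notes. -/
def Star (V : Submodule ℝ X) (O1 O2 : Set X) : Prop :=
  ∀ x1, x1 ∈ O1 → x1 ∈ V → x1 ∈ Sm X → ∀ x2, x2 ∈ O2 → x2 ∈ V → x2 ∈ Sm X →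
    ∀ w, w ≠ 0 → gr x1 w = 0 → gr x2 w = 0 → ∀ O' : Set X, IsOpen O' → (∃ y ∈ O', y ∈ V) →
      (O' ⊆ O1 ∨ O' ⊆ O2) → ¬ Kill V O' w

theorem exists_star [FiniteDimensional ℝ X] {m : ℕ} (hfin : finrank ℝ X = m + 2)
    {V : Submodule ℝ X} (hV : finrank ℝ V = m + 1) (hG : Gen m V) (hno : ¬ HasPole V) :
    ∃ O1 O2 : Set X, IsOpen O1 ∧ (∃ y ∈ O1, y ∈ V) ∧ IsOpen O2 ∧ (∃ y ∈ O2, y ∈ V) ∧
      Star V O1 O2 := by
  by_cases hA : ∃ O : Set X, IsOpen O ∧ (∃ y ∈ O, y ∈ V) ∧ ∀ O' : Set X, O' ⊆ O → IsOpen O' →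
      (∃ y ∈ O', y ∈ V) → ∀ b, Kill V O' b → b = 0
  · obtain ⟨O, hO, hy, h⟩ := hA
    refine ⟨O, O, hO, hy, hO, hy, ?_⟩
    intro x1 _ _ _ x2 _ _ _ w hw _ _ O' hO' hy' hs hk
    exact hw (h O' (by tauto) hO' hy' w hk)
  · push Not at hA
    obtain ⟨O1, -, hO1, ⟨y1, hy1, hy1V⟩, w1, hk1, hw1⟩ := hA Set.univ isOpen_univ
      ⟨0, Set.mem_univ _, V.zero_mem⟩
    -- a smooth point of `V` not killing `w1`
    obtain ⟨x, hxV, hxS, hxw⟩ : ∃ x ∈ V, x ∈ Sm X ∧ gr x w1 ≠ 0 := by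
      by_contra hcon
      push Not at hcon
      apply hno
      refine ⟨w1, hw1, fun v hv t => ?_⟩
      apply le_of_forall_pos_le_add
      intro ε hε
      obtain ⟨x, hx, hxV, hxS⟩ := n0' hG (isOpen_ball (x := v) (ε := ε / 2))
        (mem_ball_self (by positivity)) hv
      rw [mem_ball, dist_eq_norm] at hx
      have h1 : BJ x w1 := (sm_BJ_iff hxS).2 (hcon x hxV hxS)
      have h2 := h1 t
      have h3 : ‖v‖ ≤ ‖x‖ + ‖x - v‖ := by
        have : v = x - (x - v) := by abel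
        calc ‖v‖ = ‖x - (x - v)‖ := by rw [← this]
          _ ≤ ‖x‖ + ‖x - v‖ := norm_sub_le _ _
      have h4 : ‖x + t • w1‖ ≤ ‖v + t • w1‖ + ‖x - v‖ := by
        have : x + t • w1 = (v + t • w1) + (x - v) := by abel
        rw [this]; exact norm_add_le _ _
      linarith
    obtain ⟨δ, hδ, hd⟩ := opn hxS hxw
    obtain ⟨O2, hs2, hO2, ⟨y2, hy2, hy2V⟩, w2, hk2, hw2⟩ := hA (ball x δ) isOpen_ball
      ⟨x, mem_ball_self hδ, hxV⟩
    have f2 : ∀ x' ∈ O2, gr x' w1 ≠ 0 := by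
      intro x' hx'
      have := hs2 hx'
      rw [mem_ball, dist_eq_norm] at this
      exact hd x' w1 this (by simpa using hδ)
    obtain ⟨z, hz, hzV, hzS, hzw⟩ : ∃ z ∈ O1, z ∈ V ∧ z ∈ Sm X ∧ gr z w2 ≠ 0 := by
      by_contra hcon
      push Not at hcon
      have hk : Kill V O1 w2 := fun x hx hxV hxS => hcon x hx hxV hxS
      obtain ⟨c, hc⟩ := n3 hfin hV hG hO1 hy1 hy1V hw1 hk1 hk
      obtain ⟨x', hx', hx'V, hx'S⟩ := n0' hG hO2 hy2 hy2V
      have h1 := hk2 x' hx' hx'V hx'S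
      rw [hc, map_smul, smul_eq_mul] at h1
      rcases mul_eq_zero.1 h1 with h | h
      · apply hw2; rw [hc, h, zero_smul]
      · exact f2 x' hx' h
    obtain ⟨δ', hδ', hd'⟩ := opn hzS hzw
    have f1 : ∀ x' ∈ O1 ∩ ball z δ', gr x' w2 ≠ 0 := by
      intro x' hx'
      have := hx'.2
      rw [mem_ball, dist_eq_norm] at this
      exact hd' x' w2 this (by simpa using hδ')
    refine ⟨O1 ∩ ball z δ', O2, hO1.inter isOpen_ball, ⟨z, ⟨hz, mem_ball_self hδ'⟩, hzV⟩,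
      hO2, ⟨y2, hy2, hy2V⟩, ?_⟩
    intro x1 hx1 _ _ x2 hx2 _ _ w hw hg1 hg2 O' hO' ⟨y, hy, hyV⟩ hs hk
    rcases hs with hs | hs
    · obtain ⟨c, hc⟩ := n3 hfin hV hG hO' hy hyV hw1
        (hk1.mono (hs.trans Set.inter_subset_left)) hk
      rw [hc, map_smul, smul_eq_mul] at hg2
      rcases mul_eq_zero.1 hg2 with h | h
      · apply hw; rw [hc, h, zero_smul]
      · exact f2 x2 hx2 h
    · obtain ⟨c, hc⟩ := n3 hfin hV hG hO' hy hyV hw2 (hk2.mono hs) hk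
      rw [hc, map_smul, smul_eq_mul] at hg1
      rcases mul_eq_zero.1 hg1 with h | h
      · apply hw; rw [hc, h, zero_smul]
      · exact f1 x1 hx1 h

/-- Nondegeneracy is an open condition. -/
theorem nd_open [FiniteDimensional ℝ X] {m : ℕ} {V : Submodule ℝ X}
    (hV : finrank ℝ V = m + 1) {p0 : Fin (m + 1) → X} (hp0 : ∀ i, p0 i ∈ V ∧ p0 i ∈ Sm X)
    (hnd : ND p0) : ∃ r > 0, ∀ p : Fin (m + 1) → X, (∀ i, p i ∈ V ∧ ‖p i - p0 i‖ < r) →
      ND p := by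
  have hspan := span_eq_of_li hV (fun i => (hp0 i).1) hnd.1
  have hopen : IsOpen {f : Fin (m + 1) → X | LinearIndependent ℝ f} :=
    isOpen_setOfPred_linearIndependent
  obtain ⟨r1, hr1, hb1⟩ := Metric.isOpen_iff.1 hopen p0 hnd.1
  let Φ : V →ₗ[ℝ] (Fin (m + 1) → ℝ) :=
    LinearMap.pi fun i => ((gr (p0 i)).toLinearMap.comp V.subtype)
  have hinj : LinearMap.ker Φ = ⊥ := by
    rw [LinearMap.ker_eq_bot']
    intro v hv
    have h1 : ∀ i, gr (p0 i) (v : X) = 0 := fun i => congrFun hv i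
    have h2 := hnd.2 (v : X) (by rw [hspan]; exact v.2) h1
    exact Subtype.ext h2
  obtain ⟨K, hK, hanti⟩ := Φ.exists_antilipschitzWith hinj
  have hK' : (0 : ℝ) < K := by exact_mod_cast hK
  have hdel : ∀ i, ∃ δ > 0, ∀ y, ‖y - p0 i‖ < δ → ∀ h ∈ Sub y, ‖h - gr (p0 i)‖ < 1 / (2 * K) :=
    fun i => sm_usc (hp0 i).2 (by positivity)
  choose δ hδ hd using hdel
  obtain ⟨r2, hr2, hr2'⟩ : ∃ r > 0, ∀ i, r ≤ δ i := by
    refine ⟨Finset.univ.inf' ⟨0, Finset.mem_univ _⟩ δ, ?_, fun i => Finset.inf'_le _ (Finset.mem_univ i)⟩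
    exact (Finset.lt_inf'_iff _).2 fun i _ => hδ i
  refine ⟨min r1 r2, by positivity, fun p hp => ?_⟩
  have hli : LinearIndependent ℝ p := by
    apply hb1
    rw [mem_ball, dist_pi_lt_iff hr1]
    intro i
    rw [dist_eq_norm]
    exact lt_of_lt_of_le (hp i).2 (min_le_left _ _)
  refine ⟨hli, fun v hv hkill => ?_⟩
  rw [span_eq_of_li hV (fun i => (hp i).1) hli] at hv
  have h1 : ‖(⟨v, hv⟩ : V)‖ ≤ K * ‖Φ ⟨v, hv⟩‖ := by
    have := hanti.le_mul_dist ⟨v, hv⟩ 0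
    rwa [map_zero, dist_zero_right, dist_zero_right] at this
  have h2 : ‖Φ ⟨v, hv⟩‖ ≤ 1 / (2 * K) * ‖v‖ := by
    rw [pi_norm_le_iff_of_nonneg (by positivity)]
    intro i
    have e1 : Φ ⟨v, hv⟩ i = -((gr (p i) - gr (p0 i)) v) := by
      change gr (p0 i) v = _
      rw [sub_apply, hkill i]; ring
    rw [e1, norm_neg]
    refine ((gr (p i) - gr (p0 i)).le_opNorm v).trans ?_
    apply mul_le_mul_of_nonneg_right _ (norm_nonneg _)
    exact (hd i (p i) (lt_of_lt_of_le (hp i).2 ((min_le_right _ _).trans (hr2' i))) _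
      (gr_mem _)).le
  have h3 : ‖(⟨v, hv⟩ : V)‖ = ‖v‖ := rfl
  rw [h3] at h1
  have h4 : ‖v‖ ≤ ‖v‖ / 2 := by
    calc ‖v‖ ≤ K * ‖Φ ⟨v, hv⟩‖ := h1
      _ ≤ K * (1 / (2 * K) * ‖v‖) := mul_le_mul_of_nonneg_left h2 hK'.le
      _ = ‖v‖ / 2 := by field_simp
  have h5 : ‖v‖ = 0 := by linarith [norm_nonneg v]
  exact norm_eq_zero.1 h5

/-- Moving a point of `O ∩ V` out of a proper closed subspace. -/
theorem avoid {V L : Submodule ℝ X} {O : Set X} (hO : IsOpen O) {z b : X} (hz : z ∈ O)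
    (hzV : z ∈ V) (hb : b ∈ V) (hbL : b ∉ L) : ∃ z' ∈ O, z' ∈ V ∧ z' ∉ L := by
  by_cases hzL : z ∈ L
  · have hcont : Tendsto (fun t : ℝ => z + t • b) (𝓝[≠] 0) (𝓝 z) := by
      have h1 : Continuous fun t : ℝ => z + t • b := by fun_prop
      have h2 := (h1.tendsto 0).mono_left (nhdsWithin_le_nhds (s := {(0 : ℝ)}ᶜ))
      simpa using h2
    have h3 : ∀ᶠ t in 𝓝[≠] (0 : ℝ), z + t • b ∈ O := hcont.eventually (hO.mem_nhds hz)
    obtain ⟨t, ht, ht0⟩ := (h3.and self_mem_nhdsWithin).exists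
    refine ⟨z + t • b, ht, V.add_mem hzV (V.smul_mem _ hb), fun hL => hbL ?_⟩
    have h4 : t • b ∈ L := by
      have := L.sub_mem hL hzL
      rwa [add_sub_cancel_left] at this
    exact (L.smul_mem_iff ht0).1 h4
  · exact ⟨z, hz, hzV, hzL⟩

end PC

open Metric Filter Topology Module PC

theorem sel (X : Type*) [NormedAddCommGroup X] [NormedSpace ℝ X] [FiniteDimensional ℝ X] :
    SelStm X := by
  intro m hm hfin V hV hG hno
  obtain ⟨O1, O2, hO1, ⟨a1, ha1, ha1V⟩, hO2, ⟨a2, ha2, ha2V⟩, hstar⟩ :=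
    exists_star hfin hV hG hno
  -- Step 1
  obtain ⟨y, hy, hyV, hyS⟩ := n0' hG hO2 ha2 ha2V
  have hy0 : y ≠ 0 := hyS.1
  have hgy : gr y y ≠ 0 := by rw [gr_self]; exact norm_ne_zero_iff.2 hy0
  obtain ⟨z, hz, hzV, hzL⟩ := avoid (L := LinearMap.ker (gr y).toLinearMap) hO1 ha1 ha1V hyV
    (by rw [LinearMap.mem_ker]; exact hgy)
  have hopen1 : IsOpen (O1 ∩ {z | gr y z ≠ 0}) :=
    hO1.inter (isOpen_ne_fun (gr y).continuous continuous_const)
  obtain ⟨x1, hx1, hx1V, hx1S, hx1y⟩ : ∃ x ∈ O1 ∩ {z | gr y z ≠ 0}, x ∈ V ∧ x ∈ Sm X ∧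
      gr x y ≠ 0 := by
    by_contra hcon
    push Not at hcon
    exact hy0 (n1 hV hG hopen1 (y := z) ⟨hz, hzL⟩ hzV hyV fun x hx hxV hxS => hcon x hx hxV hxS)
  obtain ⟨d1, hd1, e1⟩ := opn hyS hx1.2
  obtain ⟨d2, hd2, e2⟩ := opn hx1S hx1y
  obtain ⟨d3, hd3, e3⟩ := opn hyS hgy
  set d := min d1 (min d2 d3) with hd
  have hd0 : 0 < d := by positivity
  have hdd1 : d ≤ d1 := min_le_left _ _
  have hdd2 : d ≤ d2 := (min_le_right _ _).trans (min_le_left _ _)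
  have hdd3 : d ≤ d3 := (min_le_right _ _).trans (min_le_right _ _)
  set b1 := O1 ∩ ball x1 d with hb1
  set b2 := O2 ∩ ball y d with hb2
  have hb1o : IsOpen b1 := hO1.inter isOpen_ball
  have hb2o : IsOpen b2 := hO2.inter isOpen_ball
  have n1b : ∀ x ∈ b1, ‖x - x1‖ < d := by
    intro x hx
    have := hx.2
    rwa [mem_ball, dist_eq_norm] at this
  have n2b : ∀ x ∈ b2, ‖x - y‖ < d := by
    intro x hx
    have := hx.2
    rwa [mem_ball, dist_eq_norm] at this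
  -- Step 2
  obtain ⟨q, hq, hqnd, hqi⟩ := n0 hG hb2o (y := y) ⟨hy, mem_ball_self hd0⟩ hyV
  obtain ⟨b, hbV, hb⟩ := dual_vec hV (fun i => (hq i).2.1) hqnd
    (fun i => if i = Fin.last m then 1 else 0)
  have hb0 : b ≠ 0 := by
    intro h
    have := hb (Fin.last m)
    rw [h, map_zero, if_pos rfl] at this
    exact zero_ne_one this
  have hbi : ∀ i : Fin m, gr (Fin.init q i) b = 0 := by
    intro i
    have := hb i.castSucc
    rwa [if_neg (Fin.castSucc_lt_last i).ne] at this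
  have hone : ∀ v ∈ V, (∀ i : Fin m, gr (Fin.init q i) v = 0) → ∃ c : ℝ, v = c • b := by
    intro v hv hvk
    refine ⟨gr (q (Fin.last m)) v, ?_⟩
    have h1 := hqnd.2 (v - gr (q (Fin.last m)) v • b) (by
      rw [span_eq_of_li hV (fun i => (hq i).2.1) hqnd.1]
      exact V.sub_mem hv (V.smul_mem _ hbV)) (by
      intro i
      rw [map_sub, map_smul, hb i, smul_eq_mul]
      by_cases hi : i = Fin.last m
      · rw [if_pos hi, hi]; ring
      · rw [if_neg hi, mul_zero, sub_zero]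
        obtain ⟨j, rfl⟩ := Fin.exists_castSucc_eq.2 hi
        exact hvk j)
    exact sub_eq_zero.1 h1
  have hbL : b ∉ Submodule.span ℝ (Set.range (Fin.init q)) := fun h => hb0 (hqi.2 b h hbi)
  -- Step 3
  obtain ⟨z', hz', hz'V, hz'L⟩ := avoid hb1o (z := x1) ⟨hx1.1, mem_ball_self hd0⟩ hx1V hbV hbL
  have hLc : IsOpen (b1 ∩ ((Submodule.span ℝ (Set.range (Fin.init q)) : Submodule ℝ X) :
      Set X)ᶜ) :=
    hb1o.inter (Submodule.closed_of_finiteDimensional _).isOpen_compl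
  obtain ⟨u, hu, huV, huS, hub⟩ : ∃ x ∈ b1 ∩ ((Submodule.span ℝ (Set.range (Fin.init q)) :
      Submodule ℝ X) : Set X)ᶜ, x ∈ V ∧ x ∈ Sm X ∧ gr x b ≠ 0 := by
    by_contra hcon
    push Not at hcon
    exact hb0 (n1 hV hG hLc (y := z') ⟨hz', hz'L⟩ hz'V hbV
      fun x hx hxV hxS => hcon x hx hxV hxS)
  set p0 : Fin (m + 1) → X := Fin.snoc (Fin.init q) u with hp0
  have hp0l : p0 (Fin.last m) = u := by rw [hp0, Fin.snoc_last]
  have hp0c : ∀ i : Fin m, p0 i.castSucc = q i.castSucc := by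
    intro i
    rw [hp0, Fin.snoc_castSucc]; rfl
  have hp0VS : ∀ i, p0 i ∈ V ∧ p0 i ∈ Sm X := by
    intro i
    refine Fin.lastCases ?_ (fun j => ?_) i
    · rw [hp0l]; exact ⟨huV, huS⟩
    · rw [hp0c]; exact (hq _).2
  have hli0 : LinearIndependent ℝ p0 := by
    rw [hp0, linearIndependent_finSnoc]
    exact ⟨hqi.1, hu.2⟩
  have hnd0 : ND p0 := by
    refine ⟨hli0, fun v hv hk => ?_⟩
    rw [span_eq_of_li hV (fun i => (hp0VS i).1) hli0] at hv
    obtain ⟨c, hc⟩ := hone v hv (fun i => by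
      have := hk i.castSucc
      rw [hp0c] at this
      exact this)
    have h1 := hk (Fin.last m)
    rw [hp0l, hc, map_smul, smul_eq_mul] at h1
    rcases mul_eq_zero.1 h1 with h | h
    · rw [hc, h, zero_smul]
    · exact absurd h hub
  -- Step 4
  obtain ⟨r, hr, hrnd⟩ := nd_open hV hp0VS hnd0
  set W : Fin (m + 1) → Set X := fun i => (if i = Fin.last m then b1 else b2) ∩ ball (p0 i) r
    with hW
  have hWo : ∀ i, IsOpen (W i) := by
    intro i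
    apply IsOpen.inter _ isOpen_ball
    by_cases hi : i = Fin.last m
    · rw [if_pos hi]; exact hb1o
    · rw [if_neg hi]; exact hb2o
  have hW1 : W (Fin.last m) ⊆ b1 := by
    intro x hx
    have := hx.1
    rwa [if_pos rfl] at this
  have hW2 : ∀ i, i ≠ Fin.last m → W i ⊆ b2 := by
    intro i hi x hx
    have := hx.1
    rwa [if_neg hi] at this
  refine ⟨W, hWo, ⟨p0, fun i => ⟨⟨?_, mem_ball_self hr⟩, hp0VS i⟩⟩, ?_⟩
  · refine Fin.lastCases ?_ (fun j => ?_) i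
    · rw [if_pos rfl, hp0l]; exact hu.1
    · rw [if_neg (Fin.castSucc_lt_last j).ne, hp0c]; exact (hq _).1
  intro p hp
  have hndp : ND p := by
    apply hrnd p
    intro i
    refine ⟨(hp i).2.1, ?_⟩
    have := (hp i).1.2
    rwa [mem_ball, dist_eq_norm] at this
  refine ⟨hndp, ?_, ?_⟩
  · intro i j
    by_cases hi : i = Fin.last m
    · by_cases hj : j = Fin.last m
      · rw [hi, hj, gr_self]
        exact norm_ne_zero_iff.2 (hp _).2.2.1
      · apply e2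
        · rw [hi]
          exact lt_of_lt_of_le (n1b _ (hW1 (hp _).1)) hdd2
        · exact lt_of_lt_of_le (n2b _ (hW2 j hj (hp _).1)) hdd2
    · by_cases hj : j = Fin.last m
      · apply e1
        · exact lt_of_lt_of_le (n2b _ (hW2 i hi (hp _).1)) hdd1
        · rw [hj]
          exact lt_of_lt_of_le (n1b _ (hW1 (hp _).1)) hdd1
      · apply e3
        · exact lt_of_lt_of_le (n2b _ (hW2 i hi (hp _).1)) hdd3
        · exact lt_of_lt_of_le (n2b _ (hW2 j hj (hp _).1)) hdd3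
  · intro w hw hkw i ε hε
    have h0l : (0 : Fin (m + 1)) ≠ Fin.last m := by
      intro h
      have := congrArg Fin.val h
      simp at this
      omega
    have hnk := hstar (p (Fin.last m)) (hW1 (hp _).1).1 (hp _).2.1 (hp _).2.2
      (p 0) (hW2 0 h0l (hp _).1).1 (hp _).2.1 (hp _).2.2 w hw (hkw _) (hkw _)
      (W i ∩ ball (p i) ε) ((hWo i).inter isOpen_ball)
      ⟨p i, ⟨(hp i).1, mem_ball_self hε⟩, (hp i).2.1⟩ (by
        by_cases hi : i = Fin.last m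
        · left
          intro x hx
          rw [hi] at hx
          exact (hW1 hx.1).1
        · right
          intro x hx
          exact (hW2 i hi hx.1).1)
    by_contra hcon
    push Not at hcon
    apply hnk
    intro x hx hxV hxS
    have h1 := hx.2
    rw [mem_ball, dist_eq_norm] at h1
    exact hcon x hx.1 hxV hxS h1

end R876.KS
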