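import Pool.Agent.R876.KS.Stm

/-!
# Project KS, piece D: the core argument
-/

namespace R876.KS

open Metric Filter Topology Module

variable {X : Type*} [NormedAddCommGroup X] [NormedSpace ℝ X]

/-- A hyperplane is the kernel of a continuous functional. -/
theorem exists_functional [FiniteDimensional ℝ X] {m : ℕ} (hfin : finrank ℝ X = m + 2)
    {V : Submodule ℝ X} (hV : finrank ℝ V = m + 1) :
    ∃ g : X →L[ℝ] ℝ, g ≠ 0 ∧ ∀ v, g v = 0 ↔ v ∈ V := by
  have hlt : V < ⊤ := by
    apply Submodule.lt_top_of_finrank_lt_finrank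
    rw [hV, hfin]; omega
  obtain ⟨f, hf, hle⟩ := V.exists_le_ker_of_lt_top hlt
  have hker : finrank ℝ (LinearMap.ker f) = m + 1 := by
    have h1 := LinearMap.finrank_range_add_finrank_ker f
    have h2 : finrank ℝ (LinearMap.range f) = 1 := by
      have h3 : finrank ℝ (LinearMap.range f) ≤ 1 := by
        have := Submodule.finrank_le (LinearMap.range f)
        simpa using this
      have h4 : finrank ℝ (LinearMap.range f) ≠ 0 := by
        intro h0
        rw [Submodule.finrank_eq_zero] at h0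
        exact hf (LinearMap.range_eq_bot.1 h0)
      omega
    omega
  have heq : V = LinearMap.ker f :=
    Submodule.eq_of_le_of_finrank_eq hle (by rw [hV, hker])
  refine ⟨LinearMap.toContinuousLinearMap f, ?_, ?_⟩
  · intro h0
    apply hf
    ext v
    have := congrArg (fun φ : X →L[ℝ] ℝ => φ v) h0
    simpa using this
  · intro v
    rw [heq]
    simp

/-- The span of a nondegenerate family of full size in `V` is `V`. -/
theorem span_eq_of_li [FiniteDimensional ℝ X] {m : ℕ} {V : Submodule ℝ X}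
    (hV : finrank ℝ V = m + 1) {p : Fin (m + 1) → X} (hp : ∀ i, p i ∈ V)
    (hli : LinearIndependent ℝ p) : Submodule.span ℝ (Set.range p) = V := by
  apply Submodule.eq_of_le_of_finrank_eq
  · rw [Submodule.span_le]
    rintro _ ⟨i, rfl⟩
    exact hp i
  · rw [finrank_span_eq_card hli, hV, Fintype.card_fin]

/-- Dual vectors of a nondegenerate family. -/
theorem dual_vec [FiniteDimensional ℝ X] {m : ℕ} {V : Submodule ℝ X}
    (hV : finrank ℝ V = m + 1) {p : Fin (m + 1) → X} (hp : ∀ i, p i ∈ V)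
    (hnd : ND p) (c : Fin (m + 1) → ℝ) : ∃ v ∈ V, ∀ i, gr (p i) v = c i := by
  have hspan := span_eq_of_li hV hp hnd.1
  let Φ : V →ₗ[ℝ] (Fin (m + 1) → ℝ) :=
    LinearMap.pi fun i => ((gr (p i)).toLinearMap.comp V.subtype)
  have hinj : Function.Injective Φ := by
    rw [← LinearMap.ker_eq_bot, LinearMap.ker_eq_bot']
    intro v hv
    have h1 : ∀ i, gr (p i) (v : X) = 0 := fun i => congrFun hv i
    have h2 := hnd.2 (v : X) (by rw [hspan]; exact v.2) h1
    exact Subtype.ext h2
  have hsurj : Function.Surjective Φ :=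
    (LinearMap.injective_iff_surjective_of_finrank_eq_finrank (by
      rw [hV, finrank_fin_fun])).1 hinj
  obtain ⟨v, hv⟩ := hsurj c
  exact ⟨v, v.2, fun i => congrFun hv i⟩

/-- A limit lemma for real sequences. -/
theorem lim_lemma {a A A' : ℕ → ℝ} {α β : ℝ} (ha : Tendsto a atTop (𝓝 0)) (ha0 : ∀ j, a j ≠ 0)
    (hA : Tendsto A atTop (𝓝 α)) (hA' : Tendsto A' atTop (𝓝 β))
    (h1 : ∀ j, (1 + a j * A j ≤ 0 ∨ 1 - a j * β ≤ 0 ∨ (1 + a j * A j) * (1 - a j * β) ≤ 1))
    (h2 : ∀ j, (1 + a j * A' j ≤ 0 ∨ 1 - a j * α ≤ 0 ∨ (1 + a j * A' j) * (1 - a j * α) ≤ 1)) :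
    α = β := by
  have key : ∀ {B : ℕ → ℝ} {γ δ : ℝ}, Tendsto B atTop (𝓝 γ) →
      (∀ j, (1 + a j * B j ≤ 0 ∨ 1 - a j * δ ≤ 0 ∨ (1 + a j * B j) * (1 - a j * δ) ≤ 1)) →
      ∀ᶠ j in atTop, a j * (B j - δ - a j * (B j * δ)) ≤ 0 := by
    intro B γ δ hB h
    have e1 : Tendsto (fun j => 1 + a j * B j) atTop (𝓝 (1 + 0 * γ)) :=
      tendsto_const_nhds.add (ha.mul hB)
    have e2 : Tendsto (fun j => 1 - a j * δ) atTop (𝓝 (1 - 0 * δ)) :=
      tendsto_const_nhds.sub (ha.mul tendsto_const_nhds)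
    have f1 : ∀ᶠ j in atTop, 0 < 1 + a j * B j := e1.eventually_const_lt (by norm_num)
    have f2 : ∀ᶠ j in atTop, 0 < 1 - a j * δ := e2.eventually_const_lt (by norm_num)
    filter_upwards [f1, f2] with j g1 g2
    rcases h j with h | h | h
    · linarith
    · linarith
    · nlinarith
  have k1 := key hA h1
  have k2 := key hA' h2
  have t1 : Tendsto (fun j => A j - β - a j * (A j * β)) atTop (𝓝 (α - β - 0 * (α * β))) :=
    (hA.sub tendsto_const_nhds).sub (ha.mul (hA.mul tendsto_const_nhds))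
  have t2 : Tendsto (fun j => A' j - α - a j * (A' j * α)) atTop (𝓝 (β - α - 0 * (β * α))) :=
    (hA'.sub tendsto_const_nhds).sub (ha.mul (hA'.mul tendsto_const_nhds))
  rcases lt_trichotomy α β with hlt | heq | hgt
  · exfalso
    have s1 : ∀ᶠ j in atTop, A j - β - a j * (A j * β) < 0 :=
      t1.eventually_lt_const (by linarith)
    have s2 : ∀ᶠ j in atTop, 0 < A' j - α - a j * (A' j * α) :=
      t2.eventually_const_lt (by linarith)
    obtain ⟨j, k1, k2, s1, s2⟩ := (k1.and (k2.and (s1.and s2))).exists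
    rcases lt_or_gt_of_ne (ha0 j) with h | h
    · nlinarith
    · nlinarith
  · exact heq
  · exfalso
    have s1 : ∀ᶠ j in atTop, 0 < A j - β - a j * (A j * β) :=
      t1.eventually_const_lt (by linarith)
    have s2 : ∀ᶠ j in atTop, A' j - α - a j * (A' j * α) < 0 :=
      t2.eventually_lt_const (by linarith)
    obtain ⟨j, k1, k2, s1, s2⟩ := (k1.and (k2.and (s1.and s2))).exists
    rcases lt_or_gt_of_ne (ha0 j) with h | h
    · nlinarith
    · nlinarith

/-- The shear `y ↦ y + g y • a`. -/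
noncomputable def sh (g : X →L[ℝ] ℝ) (a : X) : X →ₗ[ℝ] X :=
  LinearMap.id + g.toLinearMap.smulRight a

theorem sh_apply (g : X →L[ℝ] ℝ) (a y : X) : sh g a y = y + g y • a := by
  simp [sh]

/-- The data found at each stage of the induction. -/
def Stage {m : ℕ} (V : Submodule ℝ X) (g : X →L[ℝ] ℝ) (r : ℕ) (p : Fin (m + 1) → X) : Prop :=
  ∃ (w z : X) (k : Fin (m + 1) → X →L[ℝ] ℝ), g w = 1 ∧ (∀ i, gr (p i) w = 0) ∧ ‖z‖ = 1 ∧
    0 < g z ∧ (∀ y, ‖z + g z • w‖ * ‖y‖ ≤ ‖y + g y • w‖) ∧ ‖z + g z • w‖ < 1 ∧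
    (∀ i, k i ∈ Sub z ∧ k i (p i) = 0) ∧
    (∀ b ∈ V, (∀ i : Fin (m + 1), r ≤ (i : ℕ) → gr (p i) b = 0) → ∀ i j, k i b = k j b)

/-- If the shear never contracts then `w` is a pole. -/
theorem exists_contract {V : Submodule ℝ X} (hno : ¬ HasPole V) {g : X →L[ℝ] ℝ}
    (hg : ∀ v, g v = 0 ↔ v ∈ V) {w : X} (hw : g w = 1) : ∃ y, ‖y + g y • w‖ < ‖y‖ := by
  by_contra hcon
  push Not at hcon
  apply hno
  refine ⟨w, ?_, ?_⟩
  · rintro rfl
    rw [map_zero] at hw
    exact zero_ne_one hw
  · intro v hv t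
    have hgv : g v = 0 := (hg v).2 hv
    have hstep : ∀ s : ℝ, ‖v + s • w‖ ≤ ‖v + (2 * s) • w‖ := by
      intro s
      have h1 := hcon (v + s • w)
      have h2 : g (v + s • w) = s := by rw [map_add, map_smul, hgv, hw]; simp
      rw [h2, add_assoc, ← add_smul] at h1
      rw [two_mul]; exact h1
    have hk : ∀ k : ℕ, ‖v + (t / 2 ^ k) • w‖ ≤ ‖v + t • w‖ := by
      intro k
      induction k with
      | zero => simp
      | succ k ih =>
        refine le_trans ?_ ih
        have := hstep (t / 2 ^ (k + 1))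
        have e : 2 * (t / 2 ^ (k + 1)) = t / 2 ^ k := by
          rw [pow_succ]; field_simp
        rwa [e] at this
    have hlim : Tendsto (fun k : ℕ => ‖v + (t / 2 ^ k) • w‖) atTop (𝓝 ‖v + (0 : ℝ) • w‖) := by
      apply Tendsto.norm
      apply tendsto_const_nhds.add
      apply Tendsto.smul_const
      have : Tendsto (fun k : ℕ => t * (1 / 2 : ℝ) ^ k) atTop (𝓝 (t * 0)) :=
        tendsto_const_nhds.mul
          (tendsto_pow_atTop_nhds_zero_of_lt_one (by norm_num) (by norm_num))
      rw [mul_zero] at this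
      refine this.congr fun k => ?_
      rw [one_div, inv_pow, div_eq_mul_inv]
    have := le_of_tendsto hlim (Eventually.of_forall hk)
    simpa using this

/-- Stage `0`. -/
theorem stage_zero [FiniteDimensional ℝ X] {m : ℕ} (hfin : finrank ℝ X = m + 2)
    (h1 : P1 X (m + 2)) {V : Submodule ℝ X} (hV : finrank ℝ V = m + 1) (hno : ¬ HasPole V)
    {g : X →L[ℝ] ℝ} (hg : ∀ v, g v = 0 ↔ v ∈ V) {p : Fin (m + 1) → X}
    (hp : ∀ i, p i ∈ V ∧ p i ∈ Sm X) (hnd : ND p) (hne : ∀ i j, gr (p i) (p j) ≠ 0) :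
    Stage V g 0 p := by
  have hspan := span_eq_of_li hV (fun i => (hp i).1) hnd.1
  -- the direction `w`
  obtain ⟨e, he⟩ : ∃ e, g e = 1 := by
    have : ∃ e, g e ≠ 0 := by
      by_contra hcon
      push Not at hcon
      have hVtop : V = ⊤ := by
        rw [eq_top_iff]; intro v _; exact (hg v).1 (hcon v)
      have : finrank ℝ V = finrank ℝ X := by rw [hVtop, finrank_top]
      omega
    obtain ⟨e, he⟩ := this
    refine ⟨(g e)⁻¹ • e, ?_⟩
    rw [map_smul, smul_eq_mul, inv_mul_cancel₀ he]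
  obtain ⟨v0, hv0, hv0'⟩ := dual_vec hV (fun i => (hp i).1) hnd (fun i => gr (p i) e)
  set w : X := e - v0 with hw
  have hgw : g w = 1 := by rw [hw, map_sub, he, (hg v0).2 hv0, sub_zero]
  have hpw : ∀ i, gr (p i) w = 0 := fun i => by rw [hw, map_sub, hv0', sub_self]
  have hw0 : w ≠ 0 := by
    intro h0
    rw [h0, map_zero] at hgw
    exact zero_ne_one hgw
  -- the minimum point
  have hcont : Continuous fun y : X => ‖sh g w y‖ := by
    have : (fun y : X => ‖sh g w y‖) = fun y => ‖y + g y • w‖ := by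
      funext y; rw [sh_apply]
    rw [this]; fun_prop
  have hnt : Nontrivial X := ⟨w, 0, hw0⟩
  obtain ⟨z0, hz0, hz0min⟩ := (isCompact_sphere (0 : X) 1).exists_isMinOn
    (NormedSpace.sphere_nonempty.2 zero_le_one) hcont.continuousOn
  have hz0n : ‖z0‖ = 1 := by simpa using hz0
  have hmin0 : ∀ y, ‖sh g w z0‖ * ‖y‖ ≤ ‖sh g w y‖ := by
    intro y
    rcases eq_or_ne y 0 with rfl | hy
    · simp
    have hyn : ‖y‖ ≠ 0 := norm_ne_zero_iff.2 hy
    have h2 : ‖sh g w z0‖ ≤ ‖sh g w (‖y‖⁻¹ • y)‖ := by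
      apply hz0min
      rw [mem_sphere_zero_iff_norm, norm_smul, norm_inv, norm_norm, inv_mul_cancel₀ hyn]
    rw [map_smul, norm_smul, norm_inv, norm_norm] at h2
    have h3 := mul_le_mul_of_nonneg_right h2 (norm_nonneg y)
    calc ‖sh g w z0‖ * ‖y‖ ≤ ‖y‖⁻¹ * ‖sh g w y‖ * ‖y‖ := h3
      _ = ‖sh g w y‖ := by field_simp
  obtain ⟨y1, hy1⟩ := exists_contract hno hg hgw
  have hlt0 : ‖sh g w z0‖ < 1 := by
    have h2 := hmin0 y1
    rw [sh_apply g w y1] at h2
    have hy1n : 0 < ‖y1‖ := lt_of_le_of_lt (norm_nonneg _) hy1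
    by_contra hcon
    push Not at hcon
    nlinarith
  have hgz0 : g z0 ≠ 0 := by
    intro h0
    rw [sh_apply, h0, zero_smul, add_zero, hz0n] at hlt0
    exact lt_irrefl _ hlt0
  obtain ⟨z, hzn, hgz, hzmin, hzlt⟩ : ∃ z : X, ‖z‖ = 1 ∧ 0 < g z ∧
      (∀ y, ‖sh g w z‖ * ‖y‖ ≤ ‖sh g w y‖) ∧ ‖sh g w z‖ < 1 := by
    rcases lt_or_gt_of_ne hgz0 with h | h
    · refine ⟨-z0, by rw [norm_neg, hz0n], by rw [map_neg]; linarith, ?_, ?_⟩
      · intro y; rw [map_neg, norm_neg]; exact hmin0 y
      · rw [map_neg, norm_neg]; exact hlt0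
    · exact ⟨z0, hz0n, h, hmin0, hlt0⟩
  -- orthogonality is preserved
  have hpres : ∀ i, PresAt (sh g w) (p i) := by
    intro i
    apply PresAt.of_smooth (hp i).2
    · rw [sh_apply, (hg _).2 (hp i).1, zero_smul, add_zero]
    · intro u
      rw [sh_apply, map_add, map_smul, hpw, smul_zero, add_zero]
  have hpresz : PresAt (sh g w) z := by
    apply PresAt.of_min (m := ‖sh g w z‖) (norm_nonneg _) _ hzmin
    rw [hzn, mul_one]
  have hp0 : p 0 ≠ 0 := sm_ne (hp 0).2
  have hnot : ¬ IsScaledIso (sh g w) := by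
    apply not_scaled (x := p 0) (y := w) hp0 hw0 (a := 1) (b := 2)
    · rw [sh_apply, (hg _).2 (hp 0).1, zero_smul, add_zero, one_mul]
    · rw [sh_apply, hgw, one_smul, ← two_smul ℝ w, norm_smul]; norm_num
    · norm_num
  have hzV : z ∉ V := by
    intro hz
    rw [(hg z).2 hz] at hgz
    exact lt_irrefl _ hgz
  have hli : LinearIndependent ℝ (Fin.snoc p z : Fin (m + 2) → X) := by
    rw [linearIndependent_finSnoc]
    exact ⟨hnd.1, by rw [hspan]; exact hzV⟩
  obtain ⟨S, hS1, hS2, hS⟩ := h1 (sh g w) hnot (Fin.snoc p z) hli (by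
    intro i
    refine Fin.lastCases ?_ (fun i => ?_) i
    · rw [Fin.snoc_last]; exact hpresz
    · rw [Fin.snoc_castSucc]; exact hpres i)
  have hBJz : ∀ i, BJ z (p i) := by
    have hsame : ∀ i j : Fin (m + 1), i.castSucc ∈ S → j.castSucc ∈ S := by
      intro i j hi
      by_contra hj
      have := hS _ hi _ hj
      rw [Fin.snoc_castSucc, Fin.snoc_castSucc, sm_BJ_iff (hp i).2] at this
      exact hne i j this
    by_cases hlast : Fin.last (m + 1) ∈ S
    · have hout : ∀ i : Fin (m + 1), i.castSucc ∉ S := by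
        intro i hi
        obtain ⟨j, hj⟩ := hS2
        apply hj
        revert hj
        refine Fin.lastCases ?_ (fun j => ?_) j
        · intro hj; exact absurd hlast hj
        · intro _; exact hsame i j hi
      intro i
      have := hS _ hlast _ (hout i)
      rwa [Fin.snoc_last, Fin.snoc_castSucc] at this
    · exfalso
      obtain ⟨j, hj⟩ := hS1
      have hin : ∀ i : Fin (m + 1), i.castSucc ∈ S := by
        intro i
        revert hj
        refine Fin.lastCases ?_ (fun j => ?_) j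
        · intro hj; exact absurd hj hlast
        · intro hj; exact hsame j i hj
      have hz0' : ∀ i, gr (p i) z = 0 := by
        intro i
        have := hS _ (hin i) _ hlast
        rwa [Fin.snoc_last, Fin.snoc_castSucc, sm_BJ_iff (hp i).2] at this
      have hzw : z = g z • w := by
        have hmem : z - g z • w ∈ V := by
          rw [← hg, map_sub, map_smul, hgw]; simp
        have := hnd.2 (z - g z • w) (by rw [hspan]; exact hmem) (by
          intro i; rw [map_sub, map_smul, hpw, hz0', smul_zero, sub_zero])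
        exact sub_eq_zero.1 this
      have hT : sh g w z = (2 : ℝ) • z := by
        rw [sh_apply, ← hzw, two_smul]
      rw [hT, norm_smul, hzn] at hzlt
      norm_num at hzlt
  choose k hk hk0 using fun i => (hBJz i).exists_sub
  refine ⟨w, z, k, hgw, hpw, hzn, hgz, ?_, ?_, fun i => ⟨hk i, hk0 i⟩, ?_⟩
  · intro y
    have := hzmin y
    rwa [sh_apply, sh_apply] at this
  · rwa [sh_apply] at hzlt
  · intro b hb hb0 i j
    have : b = 0 := hnd.2 b (by rw [hspan]; exact hb) (fun i => hb0 i (Nat.zero_le _))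
    rw [this, map_zero, map_zero]

/-- Induction step. -/
theorem stage_succ [FiniteDimensional ℝ X] {m : ℕ}
    {V : Submodule ℝ X} (hV : finrank ℝ V = m + 1) (hno : ¬ HasPole V)
    {g : X →L[ℝ] ℝ} (hg : ∀ v, g v = 0 ↔ v ∈ V) {W : Fin (m + 1) → Set X}
    (hW : ∀ p : Fin (m + 1) → X, (∀ i, p i ∈ W i ∧ p i ∈ V ∧ p i ∈ Sm X) →
        ND p ∧ (∀ i j, gr (p i) (p j) ≠ 0) ∧
        ∀ w : X, w ≠ 0 → (∀ i, gr (p i) w = 0) → ∀ i, ∀ ε : ℝ, 0 < ε →
          ∃ x ∈ W i, x ∈ V ∧ x ∈ Sm X ∧ ‖x - p i‖ < ε ∧ gr x w ≠ 0)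
    {r : ℕ} (hr : r < m + 1)
    (hS : ∀ p : Fin (m + 1) → X, (∀ i, p i ∈ W i ∧ p i ∈ V ∧ p i ∈ Sm X) → Stage V g r p)
    (p : Fin (m + 1) → X) (hp : ∀ i, p i ∈ W i ∧ p i ∈ V ∧ p i ∈ Sm X) :
    Stage V g (r + 1) p := by
  classical
  obtain ⟨hnd, hne, hpert⟩ := hW p hp
  have hspan := span_eq_of_li hV (fun i => (hp i).2.1) hnd.1
  obtain ⟨w, -, -, hgw, hpw, -⟩ := hS p hp
  have hw0 : w ≠ 0 := by
    rintro rfl
    rw [map_zero] at hgw
    exact zero_ne_one hgw
  let ir : Fin (m + 1) := ⟨r, hr⟩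
  obtain ⟨br, hbr, hbr'⟩ := dual_vec hV (fun i => (hp i).2.1) hnd
    (fun i => if i = ir then 1 else 0)
  have hbr1 : gr (p ir) br = 1 := by rw [hbr']; simp
  have hbr0 : ∀ i, i ≠ ir → gr (p i) br = 0 := fun i hi => by rw [hbr']; simp [hi]
  have hgbr : g br = 0 := (hg br).2 hbr
  -- perturbed tuples
  have hex : ∀ j : ℕ, ∃ x ∈ W ir, x ∈ V ∧ x ∈ Sm X ∧ ‖x - p ir‖ < 1 / ((j : ℝ) + 1) ∧
      gr x w ≠ 0 := fun j => hpert w hw0 hpw ir _ (by positivity)
  choose x hxW hxV hxS hxn hxw using hex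
  have hq : ∀ j i, Function.update p ir (x j) i ∈ W i ∧ Function.update p ir (x j) i ∈ V ∧
      Function.update p ir (x j) i ∈ Sm X := by
    intro j i
    by_cases hi : i = ir
    · subst hi
      rw [Function.update_self]
      exact ⟨hxW j, hxV j, hxS j⟩
    · rw [Function.update_of_ne hi]
      exact hp i
  choose wj zj kj hgwj hpwj hznj hgzj hminj hltj hkj hagj using fun j => hS _ (hq j)
  -- compactness
  have hcpt : IsCompact ((sphere (0 : X) 1) ×ˢ
      (Set.pi Set.univ fun _ : Fin (m + 1) => closedBall (0 : X →L[ℝ] ℝ) 1)) :=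
    (isCompact_sphere _ _).prod (isCompact_univ_pi fun _ => isCompact_closedBall _ _)
  have hmem : ∀ j, (zj j, kj j) ∈ ((sphere (0 : X) 1) ×ˢ
      (Set.pi Set.univ fun _ : Fin (m + 1) => closedBall (0 : X →L[ℝ] ℝ) 1)) := by
    intro j
    refine ⟨by simpa using hznj j, fun i _ => ?_⟩
    simpa using (hkj j i).1.1
  obtain ⟨⟨z, k⟩, -, φ, hφ, hlim⟩ := hcpt.tendsto_subseq hmem
  have hzlim : Tendsto (fun j => zj (φ j)) atTop (𝓝 z) :=
    (continuous_fst.tendsto _).comp hlim
  have hklim' : Tendsto (fun j => kj (φ j)) atTop (𝓝 k) :=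
    (continuous_snd.tendsto _).comp hlim
  have hklim : ∀ i, Tendsto (fun j => kj (φ j) i) atTop (𝓝 (k i)) := fun i =>
    (tendsto_pi_nhds.1 hklim') i
  -- the points `x j` converge
  have hx0 : Tendsto x atTop (𝓝 (p ir)) := by
    rw [tendsto_iff_norm_sub_tendsto_zero]
    exact squeeze_zero (fun _ => norm_nonneg _) (fun n => (hxn n).le)
      tendsto_one_div_add_atTop_nhds_zero_nat
  have hgrx : Tendsto (fun j => gr (x j)) atTop (𝓝 (gr (p ir))) :=
    sm_tendsto (hp ir).2.2 hx0 (fun j => gr_mem _)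
  have happ : ∀ u : X, Tendsto (fun j => gr (x j) u) atTop (𝓝 (gr (p ir) u)) := fun u =>
    ((ContinuousLinearMap.apply ℝ ℝ u).continuous.tendsto _).comp hgrx
  -- the coefficients `a j`
  let a : ℕ → ℝ := fun j => gr (p ir) (wj j - w)
  have hwa : ∀ j, wj j = w + a j • br := by
    intro j
    have hmem : wj j - w - a j • br ∈ V := by
      rw [← hg, map_sub, map_sub, map_smul, hgwj, hgw, hgbr]; simp
    have h0 := hnd.2 (wj j - w - a j • br) (by rw [hspan]; exact hmem) (by
      intro i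
      by_cases hi : i = ir
      · subst hi
        rw [map_sub, map_smul, hbr1]
        simp [a]
      · rw [map_sub, map_smul, hbr0 i hi, smul_zero, sub_zero, map_sub, hpw, sub_zero]
        have := hpwj j i
        rwa [Function.update_of_ne hi] at this)
    rw [sub_sub, sub_eq_zero] at h0
    exact h0
  have hxa : ∀ j, gr (x j) w + a j * gr (x j) br = 0 := by
    intro j
    have := hpwj j ir
    rw [Function.update_self, hwa, map_add, map_smul, smul_eq_mul] at this
    exact this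
  have ha0 : ∀ j, a j ≠ 0 := by
    intro j h0
    apply hxw j
    have := hxa j
    rwa [h0, zero_mul, add_zero] at this
  have halim : Tendsto a atTop (𝓝 0) := by
    have h1 : Tendsto (fun j => -(gr (x j) w) / gr (x j) br) atTop (𝓝 (-(0 : ℝ) / 1)) := by
      apply Tendsto.div
      · have := happ w
        rw [hpw] at this
        exact this.neg
      · have := happ br
        rwa [hbr1] at this
      · exact one_ne_zero
    have h2 : ∀ᶠ j in atTop, gr (x j) br ≠ 0 := by
      have h3 : ∀ᶠ j in atTop, 0 < gr (x j) br :=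
        (happ br).eventually_const_lt (by rw [hbr1]; norm_num)
      filter_upwards [h3] with j hj using hj.ne'
    rw [neg_zero, zero_div] at h1
    refine h1.congr' ?_
    filter_upwards [h2] with j hj
    rw [div_eq_iff hj]
    linarith [hxa j]
  have hwlim : Tendsto wj atTop (𝓝 w) := by
    have h1 : Tendsto (fun j => w + a j • br) atTop (𝓝 (w + (0 : ℝ) • br)) :=
      tendsto_const_nhds.add (halim.smul_const br)
    rw [zero_smul, add_zero] at h1
    refine h1.congr fun j => (hwa j).symm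
  have hgzlim : Tendsto (fun j => g (zj (φ j))) atTop (𝓝 (g z)) :=
    (g.continuous.tendsto _).comp hzlim
  have hwφ : Tendsto (fun j => wj (φ j)) atTop (𝓝 w) := hwlim.comp hφ.tendsto_atTop
  -- properties of the limit
  have hzn : ‖z‖ = 1 := by
    have h1 := hzlim.norm
    have h2 : (fun j => ‖zj (φ j)‖) = fun _ => (1 : ℝ) := by funext j; exact hznj _
    rw [h2] at h1
    exact (tendsto_nhds_unique h1 tendsto_const_nhds)
  have hTz : Tendsto (fun j => ‖zj (φ j) + g (zj (φ j)) • wj (φ j)‖) atTop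
      (𝓝 ‖z + g z • w‖) := (hzlim.add (hgzlim.smul hwφ)).norm
  have hmin : ∀ y, ‖z + g z • w‖ * ‖y‖ ≤ ‖y + g y • w‖ := by
    intro y
    have h1 : Tendsto (fun j => ‖zj (φ j) + g (zj (φ j)) • wj (φ j)‖ * ‖y‖) atTop
      (𝓝 (‖z + g z • w‖ * ‖y‖)) := hTz.mul_const _
    have h2 : Tendsto (fun j => ‖y + g y • wj (φ j)‖) atTop (𝓝 ‖y + g y • w‖) :=
      (tendsto_const_nhds.add (hwφ.const_smul _)).norm
    exact le_of_tendsto_of_tendsto' h1 h2 (fun j => hminj (φ j) y)
  have hlt : ‖z + g z • w‖ < 1 := by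
    obtain ⟨y1, hy1⟩ := exists_contract hno hg hgw
    have h2 := hmin y1
    have hy1n : 0 < ‖y1‖ := lt_of_le_of_lt (norm_nonneg _) hy1
    by_contra hcon
    push Not at hcon
    nlinarith
  have hgz : 0 < g z := by
    have h1 : 0 ≤ g z := ge_of_tendsto hgzlim (Eventually.of_forall fun j => (hgzj (φ j)).le)
    rcases h1.lt_or_eq with h | h
    · exact h
    · exfalso
      rw [← h, zero_smul, add_zero, hzn] at hlt
      exact lt_irrefl _ hlt
  have hkmem : ∀ i, k i ∈ Sub z := fun i =>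
    sub_closed hzlim (hklim i) (fun j => (hkj (φ j) i).1)
  have hkapp : ∀ i (u : X), Tendsto (fun j => kj (φ j) i u) atTop (𝓝 (k i u)) := fun i u =>
    ((ContinuousLinearMap.apply ℝ ℝ u).continuous.tendsto _).comp (hklim i)
  have hkp : ∀ i, k i (p i) = 0 := by
    intro i
    by_cases hi : i = ir
    · subst hi
      have h1 : Tendsto (fun j => kj (φ j) ir (x (φ j))) atTop (𝓝 (k ir (p ir))) :=
        ((isBoundedBilinearMap_apply (𝕜 := ℝ) (E := X) (F := ℝ)).continuous.tendsto
          (k ir, p ir)).comp ((hklim ir).prodMk_nhds (hx0.comp hφ.tendsto_atTop))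
      have h2 : (fun j => kj (φ j) ir (x (φ j))) = fun _ => (0 : ℝ) := by
        funext j
        have := (hkj (φ j) ir).2
        rwa [Function.update_self] at this
      rw [h2] at h1
      exact (tendsto_nhds_unique h1 tendsto_const_nhds)
    · have h1 := hkapp i (p i)
      have h2 : (fun j => kj (φ j) i (p i)) = fun _ => (0 : ℝ) := by
        funext j
        have := (hkj (φ j) i).2
        rwa [Function.update_of_ne hi] at this
      rw [h2] at h1
      exact (tendsto_nhds_unique h1 tendsto_const_nhds)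
  -- the key inequality
  set μ : ℝ := ‖z + g z • w‖ with hμ
  have hμ0 : 0 < μ := by
    rw [hμ, norm_pos_iff]
    intro h0
    have h1 : g (z + g z • w) = 0 := by rw [h0, map_zero]
    rw [map_add, map_smul, hgw, smul_eq_mul, mul_one] at h1
    linarith
  have hineq : ∀ j, ‖zj (φ j) + (g (zj (φ j)) * a (φ j)) • br‖ *
      ‖z - (g z * a (φ j)) • br‖ ≤ 1 := by
    intro j
    set zz := zj (φ j) with hzz
    set aa := a (φ j) with haa
    have e1 : (zz + (g zz * aa) • br) + g (zz + (g zz * aa) • br) • w =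
        zz + g zz • wj (φ j) := by
      rw [hwa, map_add, map_smul, hgbr, smul_zero, add_zero, smul_add, smul_smul]
      abel
    have e2 : (z - (g z * aa) • br) + g (z - (g z * aa) • br) • wj (φ j) =
        z + g z • w := by
      rw [hwa, map_sub, map_smul, hgbr, smul_zero, sub_zero, smul_add, smul_smul]
      abel
    have h1 := hmin (zz + (g zz * aa) • br)
    rw [e1] at h1
    have h2 := hminj (φ j) (z - (g z * aa) • br)
    rw [e2] at h2
    have h3 : μ * ‖zz + (g zz * aa) • br‖ * ‖z - (g z * aa) • br‖ ≤ μ :=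
      (mul_le_mul_of_nonneg_right h1 (norm_nonneg _)).trans h2
    have h4 : μ * (‖zz + (g zz * aa) • br‖ * ‖z - (g z * aa) • br‖) ≤ μ * 1 := by
      rw [← mul_assoc, mul_one]; exact h3
    exact le_of_mul_le_mul_left h4 hμ0
  have hpair : ∀ i i', ∀ j, (1 + a (φ j) * (g (zj (φ j)) * kj (φ j) i br) ≤ 0 ∨
      1 - a (φ j) * (g z * k i' br) ≤ 0 ∨
      (1 + a (φ j) * (g (zj (φ j)) * kj (φ j) i br)) * (1 - a (φ j) * (g z * k i' br)) ≤ 1) := by
    intro i i' j
    by_cases c1 : 1 + a (φ j) * (g (zj (φ j)) * kj (φ j) i br) ≤ 0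
    · exact Or.inl c1
    by_cases c2 : 1 - a (φ j) * (g z * k i' br) ≤ 0
    · exact Or.inr (Or.inl c2)
    right; right
    push Not at c1 c2
    have u1 : 1 + a (φ j) * (g (zj (φ j)) * kj (φ j) i br) ≤
        ‖zj (φ j) + (g (zj (φ j)) * a (φ j)) • br‖ := by
      have := sub_le (hkj (φ j) i).1 (zj (φ j) + (g (zj (φ j)) * a (φ j)) • br)
      rw [map_add, map_smul, (hkj (φ j) i).1.2, hznj, smul_eq_mul] at this
      linarith
    have u2 : 1 - a (φ j) * (g z * k i' br) ≤ ‖z - (g z * a (φ j)) • br‖ := by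
      have := sub_le (hkmem i') (z - (g z * a (φ j)) • br)
      rw [map_sub, map_smul, (hkmem i').2, hzn, smul_eq_mul] at this
      linarith
    exact (mul_le_mul u1 u2 c2.le (norm_nonneg _)).trans (hineq j)
  have hkbr : ∀ i i', k i br = k i' br := by
    intro i i'
    have h1 : g z * k i br = g z * k i' br := by
      apply lim_lemma (a := fun j => a (φ j)) (A := fun j => g (zj (φ j)) * kj (φ j) i br)
        (A' := fun j => g (zj (φ j)) * kj (φ j) i' br) (halim.comp hφ.tendsto_atTop)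
        (fun j => ha0 _) (hgzlim.mul (hkapp i br)) (hgzlim.mul (hkapp i' br))
      · exact hpair i i'
      · exact hpair i' i
    exact mul_left_cancel₀ hgz.ne' h1
  refine ⟨w, z, k, hgw, hpw, hzn, hgz, hmin, hlt, fun i => ⟨hkmem i, hkp i⟩, ?_⟩
  -- agreement
  intro b hb hb0 i i'
  set c := gr (p ir) b with hc
  set b' := b - c • br with hb'
  have hb'V : b' ∈ V := V.sub_mem hb (V.smul_mem _ hbr)
  have hb'0 : ∀ i : Fin (m + 1), r ≤ (i : ℕ) → gr (p i) b' = 0 := by
    intro i hi
    by_cases hir : i = ir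
    · subst hir
      rw [hb', map_sub, map_smul, hbr1, smul_eq_mul, mul_one, hc, sub_self]
    · have hlt' : r + 1 ≤ (i : ℕ) := by
        have : (i : ℕ) ≠ r := fun h => hir (Fin.ext h)
        omega
      rw [hb', map_sub, map_smul, hbr0 i hir, smul_zero, sub_zero, hb0 i hlt']
  have hb'lim : k i b' = k i' b' := by
    let c' : ℕ → ℝ := fun j => gr (x (φ j)) b' / gr (x (φ j)) br
    have hc'lim : Tendsto c' atTop (𝓝 0) := by
      have h1 : Tendsto c' atTop (𝓝 ((0 : ℝ) / 1)) := by
        apply Tendsto.div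
        · have := (happ b').comp hφ.tendsto_atTop
          rwa [hb'0 ir le_rfl] at this
        · have := (happ br).comp hφ.tendsto_atTop
          rwa [hbr1] at this
        · exact one_ne_zero
      rwa [zero_div] at h1
    have hev : ∀ᶠ j in atTop, gr (x (φ j)) br ≠ 0 := by
      have h3 : ∀ᶠ j in atTop, 0 < gr (x (φ j)) br :=
        ((happ br).comp hφ.tendsto_atTop).eventually_const_lt (by rw [hbr1]; norm_num)
      filter_upwards [h3] with j hj using hj.ne'
    have hag : ∀ᶠ j in atTop, kj (φ j) i (b' - c' j • br) = kj (φ j) i' (b' - c' j • br) := by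
      filter_upwards [hev] with j hj
      apply hagj (φ j) (b' - c' j • br) (V.sub_mem hb'V (V.smul_mem _ hbr))
      intro l hl
      by_cases hlr : l = ir
      · subst hlr
        rw [Function.update_self, map_sub, map_smul, smul_eq_mul]
        simp only [c']
        rw [div_mul_cancel₀ _ hj, sub_self]
      · rw [Function.update_of_ne hlr, map_sub, map_smul, hb'0 l hl, hbr0 l hlr]
        simp
    have hblim : Tendsto (fun j => b' - c' j • br) atTop (𝓝 b') := by
      have : Tendsto (fun j => b' - c' j • br) atTop (𝓝 (b' - (0 : ℝ) • br)) :=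
        tendsto_const_nhds.sub (hc'lim.smul_const br)
      simpa using this
    have t1 : ∀ i, Tendsto (fun j => kj (φ j) i (b' - c' j • br)) atTop (𝓝 (k i b')) := fun i =>
      ((isBoundedBilinearMap_apply (𝕜 := ℝ) (E := X) (F := ℝ)).continuous.tendsto
          (k i, b')).comp ((hklim i).prodMk_nhds hblim)
    exact tendsto_nhds_unique ((t1 i).congr' hag) (t1 i')
  have hb_eq : b = b' + c • br := by rw [hb']; abel
  rw [hb_eq, map_add, map_smul, map_add, map_smul, hb'lim, hkbr i i']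

/-- KS-D. -/
theorem core [FiniteDimensional ℝ X] : CoreStm X := by
  intro m hfin h1 V hV hno W hex hW
  obtain ⟨g, -, hg⟩ := exists_functional hfin hV
  have hall : ∀ r, r ≤ m + 1 → ∀ p : Fin (m + 1) → X,
      (∀ i, p i ∈ W i ∧ p i ∈ V ∧ p i ∈ Sm X) → Stage V g r p := by
    intro r
    induction r with
    | zero =>
      intro _ p hp
      obtain ⟨hnd, hne, -⟩ := hW p hp
      exact stage_zero hfin h1 hV hno hg (fun i => (hp i).2) hnd hne
    | succ r ih =>
      intro hr p hp
      exact stage_succ hV hno hg hW (by omega) (ih (by omega)) p hp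
  obtain ⟨p, hp⟩ := hex
  obtain ⟨hnd, -, -⟩ := hW p hp
  have hspan := span_eq_of_li hV (fun i => (hp i).2.1) hnd.1
  obtain ⟨w, z, k, hgw, hpw, hzn, hgz, hmin, hlt, hk, hag⟩ := hall (m + 1) le_rfl p hp
  have hag' : ∀ b ∈ V, ∀ i j, k i b = k j b := fun b hb =>
    hag b hb (fun i hi => absurd i.2 (by omega))
  have hkV : ∀ b ∈ V, k 0 b = 0 := by
    intro b hb
    rw [← hspan] at hb
    induction hb using Submodule.span_induction with
    | mem x hx =>
      obtain ⟨i, rfl⟩ := hx
      rw [hag' _ (hp i).2.1 0 i]; exact (hk i).2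
    | zero => exact map_zero _
    | add x y _ _ hx hy => rw [map_add, hx, hy, add_zero]
    | smul c x _ hx => rw [map_smul, hx, smul_zero]
  have h2 : k 0 (z - g z • w) = 0 := by
    apply hkV
    rw [← hg, map_sub, map_smul, hgw]; simp
  have h3 : k 0 z = 1 := by rw [(hk 0).1.2, hzn]
  rw [map_sub, map_smul, h3, smul_eq_mul] at h2
  have h4 := sub_le (hk 0).1 (z + g z • w)
  rw [map_add, map_smul, h3, smul_eq_mul] at h4
  linarith

end R876.KS
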