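import Mathlib

/-!
# K-sets and inner product spaces (MP_a3b3eb_an): definitions and first lemmas
-/

namespace R876.KS

open Metric Filter Topology Module

variable {X : Type*} [NormedAddCommGroup X] [NormedSpace ℝ X]

/-- Birkhoff-James orthogonality. -/
def BJ (x y : X) : Prop := ∀ t : ℝ, ‖x‖ ≤ ‖x + t • y‖

/-- `T` preserves Birkhoff-James orthogonality at `x`. -/
def PresAt (T : X →ₗ[ℝ] X) (x : X) : Prop := ∀ y, BJ x y → BJ (T x) (T y)

/-- `T` is a scalar multiple of a linear isometry. -/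
def IsScaledIso (T : X →ₗ[ℝ] X) : Prop := ∃ (c : ℝ) (U : X ≃ₗᵢ[ℝ] X), ∀ x, T x = c • U x

/-- The norming functionals of `x`. -/
def Sub (x : X) : Set (X →L[ℝ] ℝ) := {h | ‖h‖ ≤ 1 ∧ h x = ‖x‖}

/-- Smooth points: nonzero points with a unique norming functional. -/
def Sm (X : Type*) [NormedAddCommGroup X] [NormedSpace ℝ X] : Set X :=
  {x | x ≠ 0 ∧ (Sub x).Subsingleton}

theorem sub_nonempty (x : X) : (Sub x).Nonempty := by
  obtain ⟨g, hg, hgx⟩ := exists_dual_vector'' ℝ x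
  exact ⟨g, hg, by simpa using hgx⟩

/-- A norming functional of `x` (the gradient of the norm at smooth points). -/
noncomputable def gr (x : X) : X →L[ℝ] ℝ := (sub_nonempty x).some

theorem gr_mem (x : X) : gr x ∈ Sub x := (sub_nonempty x).some_mem

theorem gr_self (x : X) : gr x x = ‖x‖ := (gr_mem x).2

theorem sm_eq_gr {x : X} (hx : x ∈ Sm X) {h : X →L[ℝ] ℝ} (hh : h ∈ Sub x) : h = gr x :=
  hx.2 hh (gr_mem x)

theorem sm_ne {x : X} (hx : x ∈ Sm X) : x ≠ 0 := hx.1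

theorem sub_le {x : X} {h : X →L[ℝ] ℝ} (hh : h ∈ Sub x) (y : X) : h y ≤ ‖y‖ := by
  have h1 : |h y| ≤ ‖h‖ * ‖y‖ := by simpa using h.le_opNorm y
  have h2 : ‖h‖ * ‖y‖ ≤ 1 * ‖y‖ := mul_le_mul_of_nonneg_right hh.1 (norm_nonneg _)
  linarith [le_abs_self (h y)]

theorem sub_abs_le {x : X} {h : X →L[ℝ] ℝ} (hh : h ∈ Sub x) (y : X) : |h y| ≤ ‖y‖ := by
  have h1 : |h y| ≤ ‖h‖ * ‖y‖ := by simpa using h.le_opNorm y
  have h2 : ‖h‖ * ‖y‖ ≤ 1 * ‖y‖ := mul_le_mul_of_nonneg_right hh.1 (norm_nonneg _)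
  linarith

/-- If a norming functional of `x` kills `y` then `x ⟂ y`. -/
theorem BJ.of_sub {x y : X} {h : X →L[ℝ] ℝ} (hh : h ∈ Sub x) (hy : h y = 0) : BJ x y := by
  intro t
  have h1 := sub_le hh (x + t • y)
  rw [map_add, map_smul, hy, hh.2] at h1
  simpa using h1

/-- James: `x ⟂ y` iff some norming functional of `x` kills `y`. -/
theorem BJ.exists_sub {x y : X} (hxy : BJ x y) : ∃ h ∈ Sub x, h y = 0 := by
  classical
  set p : Submodule ℝ X := Submodule.span ℝ {y} with hp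
  have hfin : FiniteDimensional ℝ p := by
    rw [hp]; infer_instance
  have hclosed : IsClosed (p : Set X) := p.closed_of_finiteDimensional
  obtain ⟨g, hg, hgx⟩ := exists_dual_vector'' ℝ (Submodule.Quotient.mk x : X ⧸ p)
  have hnorm : ‖(Submodule.Quotient.mk x : X ⧸ p)‖ = ‖x‖ := by
    apply le_antisymm (Submodule.Quotient.norm_mk_le p x)
    apply le_of_forall_pos_le_add
    intro ε hε
    obtain ⟨m, hm, hm'⟩ := Submodule.Quotient.norm_mk_lt (Submodule.Quotient.mk x : X ⧸ p) hε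
    have hmem : m - x ∈ p := by
      rw [← Submodule.Quotient.eq]; exact hm
    rw [hp, Submodule.mem_span_singleton] at hmem
    obtain ⟨t, ht⟩ := hmem
    have h1 := hxy t
    have h2 : x + t • y = m := by rw [ht]; abel
    rw [h2] at h1
    linarith
  let h0 : X →ₗ[ℝ] ℝ := g.toLinearMap.comp p.mkQ
  have hb : ∀ z, ‖h0 z‖ ≤ 1 * ‖z‖ := by
    intro z
    have h1 : ‖g (p.mkQ z)‖ ≤ ‖g‖ * ‖p.mkQ z‖ := g.le_opNorm _
    have h2 : ‖p.mkQ z‖ ≤ ‖z‖ := Submodule.Quotient.norm_mk_le p z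
    have h3 : ‖g‖ * ‖p.mkQ z‖ ≤ 1 * ‖z‖ :=
      mul_le_mul hg h2 (norm_nonneg _) zero_le_one
    exact h1.trans h3
  refine ⟨h0.mkContinuous 1 hb, ⟨LinearMap.mkContinuous_norm_le _ zero_le_one _, ?_⟩, ?_⟩
  · change g (p.mkQ x) = ‖x‖
    have : g (Submodule.Quotient.mk x) = ‖(Submodule.Quotient.mk x : X ⧸ p)‖ := by
      simpa using hgx
    rw [← hnorm]; exact this
  · change g (p.mkQ y) = 0
    have : p.mkQ y = 0 := by
      rw [Submodule.mkQ_apply, Submodule.Quotient.mk_eq_zero]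
      exact Submodule.mem_span_singleton_self y
    rw [this, map_zero]

theorem BJ_iff {x y : X} : BJ x y ↔ ∃ h ∈ Sub x, h y = 0 :=
  ⟨BJ.exists_sub, fun ⟨_, hh, hy⟩ => BJ.of_sub hh hy⟩

theorem sm_BJ_iff {x y : X} (hx : x ∈ Sm X) : BJ x y ↔ gr x y = 0 := by
  constructor
  · intro h
    obtain ⟨k, hk, hky⟩ := h.exists_sub
    rw [← sm_eq_gr hx hk]; exact hky
  · intro h
    exact BJ.of_sub (gr_mem x) h

/-- A bound on a small interval suffices for orthogonality (convexity). -/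
theorem BJ.of_local {x y : X} {δ : ℝ} (hδ : 0 < δ)
    (h : ∀ t : ℝ, |t| < δ → ‖x‖ ≤ ‖x + t • y‖) : BJ x y := by
  intro t
  obtain ⟨c, hc0, hc1, hc⟩ : ∃ c : ℝ, 0 < c ∧ c ≤ 1 ∧ |c * t| < δ := by
    refine ⟨min 1 (δ / (2 * (|t| + 1))), ?_, min_le_left _ _, ?_⟩
    · have : 0 < |t| + 1 := by positivity
      apply lt_min one_pos; positivity
    · have h1 : 0 < |t| + 1 := by positivity
      rw [abs_mul]
      have h2 : |min 1 (δ / (2 * (|t| + 1)))| ≤ δ / (2 * (|t| + 1)) := by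
        rw [abs_of_pos]
        · exact min_le_right _ _
        · apply lt_min one_pos; positivity
      calc |min 1 (δ / (2 * (|t| + 1)))| * |t| ≤ δ / (2 * (|t| + 1)) * (|t| + 1) := by
            apply mul_le_mul h2 (by linarith) (abs_nonneg _) (by positivity)
        _ = δ / 2 := by field_simp
        _ < δ := by linarith
  have h1 := h (c * t) hc
  have h2 : x + (c * t) • y = (1 - c) • x + c • (x + t • y) := by
    rw [smul_add, smul_smul, sub_smul, one_smul]; abel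
  have h3 : ‖x + (c * t) • y‖ ≤ (1 - c) * ‖x‖ + c * ‖x + t • y‖ := by
    rw [h2]
    refine (norm_add_le _ _).trans ?_
    rw [norm_smul, norm_smul, Real.norm_of_nonneg (by linarith), Real.norm_of_nonneg hc0.le]
  have h4 : c * ‖x‖ ≤ c * ‖x + t • y‖ := by nlinarith
  exact le_of_mul_le_mul_left h4 hc0

theorem BJ.smul_left {x y : X} (a : ℝ) (h : BJ x y) : BJ (a • x) y := by
  rcases eq_or_ne a 0 with rfl | ha
  · intro t; simp
  · intro t
    have h1 := h (a⁻¹ * t)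
    have h2 : a • x + t • y = a • (x + (a⁻¹ * t) • y) := by
      rw [smul_add, smul_smul, mul_inv_cancel_left₀ ha]
    rw [h2, norm_smul, norm_smul]
    exact mul_le_mul_of_nonneg_left h1 (norm_nonneg _)

theorem BJ.smul_right {x y : X} (a : ℝ) (h : BJ x y) : BJ x (a • y) := by
  intro t
  rw [smul_smul]; exact h (t * a)

theorem BJ_smul_left_iff {x y : X} {a : ℝ} (ha : a ≠ 0) : BJ (a • x) y ↔ BJ x y := by
  constructor
  · intro h
    have := h.smul_left a⁻¹
    rwa [smul_smul, inv_mul_cancel₀ ha, one_smul] at this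
  · exact fun h => h.smul_left a

theorem PresAt.smul {T : X →ₗ[ℝ] X} {x : X} (h : PresAt T x) {a : ℝ} (ha : a ≠ 0) :
    PresAt T (a • x) := by
  intro y hy
  rw [map_smul]
  exact (h y ((BJ_smul_left_iff ha).1 hy)).smul_left a

/-- Points close to each other are not orthogonal. -/
theorem not_BJ_of_close {x y : X} (h : ‖x - y‖ < ‖x‖) : ¬ BJ x y := by
  intro hxy
  have := hxy (-1)
  rw [neg_one_smul, ← sub_eq_add_neg] at this
  linarith

theorem not_BJ_self {x : X} (h : x ≠ 0) : ¬ BJ x x := by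
  apply not_BJ_of_close
  rw [sub_self, norm_zero]; exact norm_pos_iff.2 h

/-- `T` preserves orthogonality at a point where `‖T x‖ / ‖x‖` is minimal. -/
theorem PresAt.of_min {T : X →ₗ[ℝ] X} {z : X} {m : ℝ} (hm : 0 ≤ m) (hz : ‖T z‖ = m * ‖z‖)
    (hmin : ∀ y, m * ‖y‖ ≤ ‖T y‖) : PresAt T z := by
  intro y hy t
  have h1 := hmin (z + t • y)
  have h2 := hy t
  rw [map_add, map_smul] at h1
  rw [hz]
  exact (mul_le_mul_of_nonneg_left h2 hm).trans h1

/-- `T` preserves orthogonality at a smooth fixed point whose gradient is `T`-invariant. -/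
theorem PresAt.of_smooth {T : X →ₗ[ℝ] X} {x : X} (hx : x ∈ Sm X) (hT : T x = x)
    (hg : ∀ u, gr x (T u) = gr x u) : PresAt T x := by
  intro y hy
  rw [hT]
  rw [sm_BJ_iff hx] at hy ⊢
  rw [hg, hy]

/-- If `T` is norm preserving near `x` then it preserves orthogonality at `x`. -/
theorem PresAt.of_local {T : X →ₗ[ℝ] X} {x : X} {ε : ℝ} (hε : 0 < ε)
    (h : ∀ y, ‖y - x‖ < ε → ‖T y‖ = ‖y‖) : PresAt T x := by
  intro y hy
  have hx : ‖T x‖ = ‖x‖ := h x (by simpa using hε)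
  have hpos : 0 < ‖y‖ + 1 := by positivity
  apply BJ.of_local (δ := ε / (‖y‖ + 1)) (by positivity)
  intro t ht
  have h1 : ‖(x + t • y) - x‖ < ε := by
    rw [add_sub_cancel_left, norm_smul, Real.norm_eq_abs]
    calc |t| * ‖y‖ ≤ |t| * (‖y‖ + 1) := by
          apply mul_le_mul_of_nonneg_left _ (abs_nonneg _); linarith
      _ < ε / (‖y‖ + 1) * (‖y‖ + 1) := mul_lt_mul_of_pos_right ht hpos
      _ = ε := by field_simp
  have h2 := h _ h1
  rw [map_add, map_smul] at h2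
  rw [hx, h2]
  exact hy t

/-- Two vectors on which `T` scales the norm differently: `T` is not a scaled isometry. -/
theorem not_scaled {T : X →ₗ[ℝ] X} {x y : X} (hx : x ≠ 0) (hy : y ≠ 0) {a b : ℝ}
    (h1 : ‖T x‖ = a * ‖x‖) (h2 : ‖T y‖ = b * ‖y‖) (hab : a ≠ b) : ¬ IsScaledIso T := by
  rintro ⟨c, U, hU⟩
  have e1 : ‖T x‖ = |c| * ‖x‖ := by
    rw [hU, norm_smul, U.norm_map, Real.norm_eq_abs]
  have e2 : ‖T y‖ = |c| * ‖y‖ := by
    rw [hU, norm_smul, U.norm_map, Real.norm_eq_abs]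
  have nx : ‖x‖ ≠ 0 := norm_ne_zero_iff.2 hx
  have ny : ‖y‖ ≠ 0 := norm_ne_zero_iff.2 hy
  have f1 : a = |c| := mul_right_cancel₀ nx (h1.symm.trans e1)
  have f2 : b = |c| := mul_right_cancel₀ ny (h2.symm.trans e2)
  exact hab (f1.trans f2.symm)

/-- The graph of `Sub` is closed. -/
theorem sub_closed {ι : Type*} {l : Filter ι} [l.NeBot] {x : ι → X} {h : ι → X →L[ℝ] ℝ}
    {x0 : X} {h0 : X →L[ℝ] ℝ} (hx : Tendsto x l (𝓝 x0)) (hh : Tendsto h l (𝓝 h0))
    (hmem : ∀ i, h i ∈ Sub (x i)) : h0 ∈ Sub x0 := by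
  constructor
  · exact le_of_tendsto (hh.norm) (Eventually.of_forall fun i => (hmem i).1)
  · have h1 : Tendsto (fun i => h i (x i)) l (𝓝 (h0 x0)) :=
      ((isBoundedBilinearMap_apply (𝕜 := ℝ) (E := X) (F := ℝ)).continuous.tendsto (h0, x0)).comp
        (hh.prodMk_nhds hx)
    have h2 : Tendsto (fun i => ‖x i‖) l (𝓝 ‖x0‖) := hx.norm
    have h3 : (fun i => h i (x i)) = fun i => ‖x i‖ := by
      funext i; exact (hmem i).2
    rw [h3] at h1
    exact tendsto_nhds_unique h1 h2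

section fin
variable [FiniteDimensional ℝ X]

/-- Upper semicontinuity at smooth points. -/
theorem sm_usc {x : X} (hx : x ∈ Sm X) {ε : ℝ} (hε : 0 < ε) :
    ∃ δ > 0, ∀ y, ‖y - x‖ < δ → ∀ h ∈ Sub y, ‖h - gr x‖ < ε := by
  by_contra hcon
  push Not at hcon
  have hs : ∀ n : ℕ, ∃ y, ‖y - x‖ < 1 / ((n : ℝ) + 1) ∧ ∃ h ∈ Sub y, ε ≤ ‖h - gr x‖ := fun n =>
    hcon (1 / ((n : ℝ) + 1)) (by positivity)
  choose y hy h hh hε' using hs
  have hb : ∀ n, h n ∈ closedBall (0 : X →L[ℝ] ℝ) 1 := fun n => by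
    simpa using (hh n).1
  obtain ⟨h0, -, φ, hφ, hlim⟩ := (isCompact_closedBall (0 : X →L[ℝ] ℝ) 1).tendsto_subseq hb
  have hy0 : Tendsto y atTop (𝓝 x) := by
    rw [tendsto_iff_norm_sub_tendsto_zero]
    exact squeeze_zero (fun _ => norm_nonneg _) (fun n => (hy n).le)
      tendsto_one_div_add_atTop_nhds_zero_nat
  have hmem : h0 ∈ Sub x :=
    sub_closed (hy0.comp hφ.tendsto_atTop) hlim (fun n => hh (φ n))
  have h0eq : h0 = gr x := sm_eq_gr hx hmem
  have h1 : Tendsto (fun n => ‖h (φ n) - gr x‖) atTop (𝓝 0) := by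
    rw [← tendsto_iff_norm_sub_tendsto_zero, ← h0eq]; exact hlim
  have h2 := ge_of_tendsto h1 (Eventually.of_forall fun n => hε' (φ n))
  linarith

/-- Continuity of the gradient on the set of smooth points (sequential form). -/
theorem sm_tendsto {x : X} (hx : x ∈ Sm X) {y : ℕ → X} (hy : Tendsto y atTop (𝓝 x))
    {h : ℕ → X →L[ℝ] ℝ} (hh : ∀ n, h n ∈ Sub (y n)) : Tendsto h atTop (𝓝 (gr x)) := by
  rw [Metric.tendsto_atTop]
  intro ε hε
  obtain ⟨δ, hδ, hδ'⟩ := sm_usc hx hε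
  rw [Metric.tendsto_atTop] at hy
  obtain ⟨N, hN⟩ := hy δ hδ
  refine ⟨N, fun n hn => ?_⟩
  rw [dist_eq_norm]
  have := hN n hn
  rw [dist_eq_norm] at this
  exact hδ' _ this _ (hh n)

omit [FiniteDimensional ℝ X] in
theorem differentiable_sm {x : X} (hx : x ≠ 0)
    (hd : DifferentiableAt ℝ (fun y : X => ‖y‖) x) : x ∈ Sm X := by
  refine ⟨hx, ?_⟩
  have key : ∀ h ∈ Sub x, ∀ y, h y = fderiv ℝ (fun y : X => ‖y‖) x y := by
    intro h hh y
    have hline : HasDerivAt (fun t : ℝ => ‖x + t • y‖) (fderiv ℝ (fun y : X => ‖y‖) x y) 0 := by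
      have h1 : HasFDerivAt (fun y : X => ‖y‖) (fderiv ℝ (fun y : X => ‖y‖) x)
          (x + (0 : ℝ) • y) := by simpa using hd.hasFDerivAt
      have h2 : HasDerivAt (fun t : ℝ => x + t • y) y 0 := by
        simpa using ((hasDerivAt_id (0 : ℝ)).smul_const y).const_add x
      exact h1.comp_hasDerivAt 0 h2
    have hlin : HasDerivAt (fun t : ℝ => ‖x‖ + t * h y) (h y) 0 := by
      simpa using ((hasDerivAt_id (0 : ℝ)).mul_const (h y)).const_add ‖x‖
    have hdiff := hline.sub hlin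
    have hmin : IsLocalMin (fun t : ℝ => ‖x + t • y‖ - (‖x‖ + t * h y)) 0 := by
      apply Eventually.of_forall
      intro t
      have := sub_le hh (x + t • y)
      rw [map_add, map_smul, hh.2, smul_eq_mul] at this
      simp only [zero_smul, add_zero, zero_mul]
      linarith
    have := hmin.hasDerivAt_eq_zero hdiff
    linarith
  intro h hh k hk
  ext y
  rw [key h hh y, key k hk y]

/-- Smooth points are dense (Rademacher). -/
theorem dense_sm [Nontrivial X] : Dense (Sm X) := by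
  let _ : MeasurableSpace X := borel X
  have _ : BorelSpace X := ⟨rfl⟩
  have h1 : ∀ᵐ x ∂(MeasureTheory.Measure.addHaar : MeasureTheory.Measure X),
      DifferentiableAt ℝ (fun y : X => ‖y‖) x :=
    (lipschitzWith_one_norm (E := X)).ae_differentiableAt
  have hd : Dense {x : X | DifferentiableAt ℝ (fun y : X => ‖y‖) x} :=
    MeasureTheory.Measure.dense_of_ae h1
  have hd2 : Dense ({x : X | DifferentiableAt ℝ (fun y : X => ‖y‖) x} ∩ {0}ᶜ) :=
    hd.inter_of_isOpen_right (dense_compl_singleton 0) isOpen_compl_singleton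
  exact hd2.mono fun x hx => differentiable_sm hx.2 hx.1

end fin

end R876.KS
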