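import Pool.Agent.R876.KS.D

/-!
# Project KS, piece E
-/

namespace R876.KS

open Metric Filter Topology Module

variable {X : Type*} [NormedAddCommGroup X] [NormedSpace ℝ X]

/-- The set of frames spanning a hyperplane without pole is open. -/
theorem isOpen_noPole [FiniteDimensional ℝ X] (m : ℕ) :
    IsOpen {v : Fin (m + 1) → X | LinearIndependent ℝ v ∧
      ¬ HasPole (Submodule.span ℝ (Set.range v))} := by
  rw [← isClosed_compl_iff]
  apply IsSeqClosed.isClosed
  intro v v0 hv hlim
  simp only [Set.mem_compl_iff, Set.mem_ofPred_eq, not_and, not_not] at hv ⊢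
  intro hli
  -- eventually independent
  have hev : ∀ᶠ j in atTop, LinearIndependent ℝ (v j) :=
    hlim.eventually (isOpen_setOfPred_linearIndependent.mem_nhds hli)
  obtain ⟨N, hN⟩ := eventually_atTop.1 hev
  have hpole : ∀ j, ∃ w : X, ‖w‖ = 1 ∧ ∀ y ∈ Submodule.span ℝ (Set.range (v (N + j))), BJ y w := by
    intro j
    obtain ⟨w, hw0, hw⟩ := hv (N + j) (hN _ (Nat.le_add_right _ _))
    have hwn : ‖w‖ ≠ 0 := norm_ne_zero_iff.2 hw0
    refine ⟨‖w‖⁻¹ • w, ?_, fun y hy => (hw y hy).smul_right _⟩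
    rw [norm_smul, norm_inv, norm_norm, inv_mul_cancel₀ hwn]
  choose w hwn hw using hpole
  obtain ⟨w0, hw0, φ, hφ, hwlim⟩ := (isCompact_sphere (0 : X) 1).tendsto_subseq
    (x := w) (fun j => by simpa using hwn j)
  have hw0n : ‖w0‖ = 1 := by simpa using hw0
  refine ⟨w0, ?_, ?_⟩
  · intro h0
    rw [h0, norm_zero] at hw0n
    exact zero_ne_one hw0n
  · intro y hy t
    obtain ⟨c, rfl⟩ := (Submodule.mem_span_range_iff_exists_fun ℝ).1 hy
    have hvlim : Tendsto (fun j => v (N + φ j)) atTop (𝓝 v0) := by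
      apply hlim.comp
      exact tendsto_atTop_mono (fun j => Nat.le_add_left _ _) hφ.tendsto_atTop
    have hylim : Tendsto (fun j => ∑ i, c i • v (N + φ j) i) atTop (𝓝 (∑ i, c i • v0 i)) := by
      apply tendsto_finsetSum
      intro i _
      exact ((tendsto_pi_nhds.1 hvlim) i).const_smul (c i)
    have h1 : Tendsto (fun j => ‖∑ i, c i • v (N + φ j) i‖) atTop
        (𝓝 ‖∑ i, c i • v0 i‖) := hylim.norm
    have h2 : Tendsto (fun j => ‖∑ i, c i • v (N + φ j) i + t • w (φ j)‖) atTop
        (𝓝 ‖∑ i, c i • v0 i + t • w0‖) := (hylim.add (hwlim.const_smul t)).norm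
    apply le_of_tendsto_of_tendsto' h1 h2
    intro j
    apply hw (φ j)
    exact (Submodule.mem_span_range_iff_exists_fun ℝ).2 ⟨c, rfl⟩

/-- KS-E. -/
theorem pole_of [FiniteDimensional ℝ X] (h1 : GenStm X) (h2 : SelStm X) (h3 : CoreStm X) :
    PoleStm X := by
  intro m hfin hP V hV
  rcases Nat.eq_zero_or_pos m with rfl | hm
  · -- dimension two
    obtain ⟨x, hx, hspan⟩ : ∃ x : V, x ≠ 0 ∧ ∀ y : V, ∃ c : ℝ, c • x = y := by
      obtain ⟨x, hx0, hx⟩ := finrank_eq_one_iff'.1 (by simpa using hV : finrank ℝ V = 1)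
      exact ⟨x, hx0, hx⟩
    obtain ⟨h, hh⟩ := sub_nonempty (x : X)
    have hker : ∃ w : X, w ≠ 0 ∧ h w = 0 := by
      by_contra hcon
      push Not at hcon
      have hinj : Function.Injective h.toLinearMap := by
        rw [← LinearMap.ker_eq_bot, LinearMap.ker_eq_bot']
        intro v hv
        by_contra h0
        exact hcon v h0 hv
      have := LinearMap.finrank_le_finrank_of_injective hinj
      rw [hfin, finrank_self] at this
      omega
    obtain ⟨w, hw0, hw⟩ := hker
    refine ⟨w, hw0, ?_⟩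
    intro v hv
    obtain ⟨c, hc⟩ := hspan ⟨v, hv⟩
    have : v = c • (x : X) := by
      have := congrArg Subtype.val hc
      simpa using this.symm
    rw [this]
    exact (BJ.of_sub hh hw).smul_left c
  · by_contra hno
    -- a basis of `V`
    let b := finBasisOfFinrankEq ℝ V hV
    let v0 : Fin (m + 1) → X := fun i => (b i : X)
    have hli : LinearIndependent ℝ v0 := by
      have := b.linearIndependent.map' V.subtype V.ker_subtype
      exact this
    have hspan : Submodule.span ℝ (Set.range v0) = V :=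
      span_eq_of_li hV (fun i => (b i).2) hli
    obtain ⟨v, ⟨hvli, hvno⟩, hgen⟩ := h1 m hfin hP _ (isOpen_noPole m)
      ⟨v0, hli, by rw [hspan]; exact hno⟩
    have hdim : finrank ℝ (Submodule.span ℝ (Set.range v)) = m + 1 := by
      rw [finrank_span_eq_card hvli, Fintype.card_fin]
    obtain ⟨W, -, hex, hW⟩ := h2 m hm hfin _ hdim hgen hvno
    exact h3 m hfin hP _ hdim hvno W hex hW

end R876.KS
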