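import Pool.Agent.R876.KS.Stm

/-!
# KS-F: a hyperplane with a pole and dense smooth points gives an isometric reflection
-/

namespace R876.KS

open Metric Filter Topology Module

section
variable {X : Type*} [NormedAddCommGroup X] [NormedSpace ℝ X] [FiniteDimensional ℝ X]

/-- A set whose span contains the kernel of `g`, together with a vector outside, contains a basis
using this vector. -/
theorem exists_basis_in {n : ℕ} (hn : finrank ℝ X = n) (Y : Set X) (z : X) (hz : z ≠ 0)
    (hspan : ⊤ ≤ Submodule.span ℝ (insert z Y)) :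
    ∃ x : Fin n → X, LinearIndependent ℝ x ∧ (∀ i, x i = z ∨ x i ∈ Y) ∧ ∃ i, x i = z := by
  classical
  have h0 : LinearIndepOn ℝ id ({z} : Set X) := by
    rw [linearIndepOn_singleton_iff]
    exact hz
  obtain ⟨b, hb2, hb1, hb3, hb4⟩ := exists_linearIndepOn_id_extension h0
    (Set.singleton_subset_iff.2 (Set.mem_insert z Y))
  have hli : LinearIndependent ℝ (fun i : b => (i : X)) := hb4
  have htop : ⊤ ≤ Submodule.span ℝ (Set.range (fun i : b => (i : X))) := by
    rw [Subtype.range_coe]
    refine hspan.trans ?_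
    rw [Submodule.span_le]
    exact hb3
  let bas := Basis.mk hli htop
  have _ : Fintype b := FiniteDimensional.fintypeBasisIndex bas
  have hcard : Fintype.card b = n := by
    rw [← hn, Module.finrank_eq_card_basis bas]
  let e : Fin n ≃ b := (Fintype.equivFinOfCardEq hcard).symm
  refine ⟨fun i => (e i : X), hli.comp e e.injective, fun i => ?_, e.symm ⟨z, ?_⟩, ?_⟩
  · exact hb2 (e i).2
  · exact hb1 (Set.mem_singleton z)
  · simp

/-- the main claim for the expansions -/
theorem refl_claim {n : ℕ} (hn : finrank ℝ X = n) (hP : P1 X n) (g : X →L[ℝ] ℝ)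
    (w : X) (hgw : g w = 1) (hpole : ∀ v, g v = 0 → BJ v w)
    (hdense : ∀ y, g y = 0 → ∀ ε : ℝ, 0 < ε → ∃ x ∈ Sm X, g x = 0 ∧ ‖x - y‖ < ε)
    (s : ℝ) (hs : s < -1) (y0 : X) : ‖y0‖ ≤ ‖y0 + ((s - 1) * g y0) • w‖ := by
  by_contra hcon
  push Not at hcon
  let T : X →ₗ[ℝ] X := LinearMap.id + (s - 1) • (g : X →ₗ[ℝ] ℝ).smulRight w
  have hT : ∀ y, T y = y + ((s - 1) * g y) • w := by
    intro y
    show y + (s - 1) • (g y • w) = _
    rw [smul_smul]
  have hTc : Continuous T := T.continuous_of_finiteDimensional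
  have hy0 : y0 ≠ 0 := by
    rintro rfl
    simp at hcon
  have hny0 : 0 < ‖y0‖ := norm_pos_iff.2 hy0
  -- the minimum
  obtain ⟨z, hz1, hzmin⟩ := (isCompact_sphere (0 : X) 1).exists_isMinOn
    (f := fun y => ‖T y‖) ⟨‖y0‖⁻¹ • y0, by
      rw [mem_sphere_zero_iff_norm, norm_smul, norm_inv, norm_norm, inv_mul_cancel₀ hny0.ne']⟩
    hTc.norm.continuousOn
  have hz : ‖z‖ = 1 := by simpa using hz1
  set m := ‖T z‖ with hm
  have hmin : ∀ y, m * ‖y‖ ≤ ‖T y‖ := by
    intro y
    by_cases hy : y = 0
    · rw [hy]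
      simp
    · have hny : 0 < ‖y‖ := norm_pos_iff.2 hy
      have h1 : ‖y‖⁻¹ • y ∈ sphere (0 : X) 1 := by
        rw [mem_sphere_zero_iff_norm, norm_smul, norm_inv, norm_norm, inv_mul_cancel₀ hny.ne']
      have h2 : m ≤ ‖T (‖y‖⁻¹ • y)‖ := hzmin h1
      rw [map_smul, norm_smul, norm_inv, norm_norm] at h2
      calc m * ‖y‖ ≤ ‖y‖⁻¹ * ‖T y‖ * ‖y‖ := mul_le_mul_of_nonneg_right h2 hny.le
        _ = ‖T y‖ := by field_simp
  have hm1 : m < 1 := by
    have h1 := hmin y0
    rw [hT] at h1
    by_contra h2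
    push Not at h2
    nlinarith
  have hm0 : 0 ≤ m := norm_nonneg _
  have hTz : PresAt T z := PresAt.of_min hm0 (by rw [hz, mul_one]) hmin
  set τ := g z with hτ
  set v := z - τ • w with hv
  have hgv : g v = 0 := by
    rw [hv, map_sub, map_smul, hgw, ← hτ]
    simp
  have hz' : z = v + τ • w := by rw [hv]; abel
  have hTz' : T z = v + (s * τ) • w := by
    rw [hT, ← hτ]
    conv_lhs => rw [hz']
    module
  have hTw : T w = s • w := by
    rw [hT, hgw]
    module
  have hw0 : w ≠ 0 := by
    rintro rfl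
    simp at hgw
  have hsabs : 1 < |s| := by
    rw [abs_of_neg (by linarith)]
    linarith
  have hv0 : v ≠ 0 := by
    intro h0
    rw [h0, zero_add] at hz' hTz'
    have h1 : T z = s • z := by
      rw [hTz']
      conv_rhs => rw [hz']
      rw [smul_smul]
    have h2 : m = |s| := by
      rw [hm, h1, norm_smul, hz, mul_one, Real.norm_eq_abs]
    linarith
  have hns : ¬ IsScaledIso T := by
    refine not_scaled (x := w) (y := z) (a := |s|) (b := m) hw0 ?_ ?_ ?_ ?_
    · rintro rfl
      simp at hz
    · rw [hTw, norm_smul, Real.norm_eq_abs]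
    · rw [hz, mul_one]
    · intro h
      linarith
  have hnv : 0 < ‖v‖ := norm_pos_iff.2 hv0
  -- the key: points near `v` to which `z` is orthogonal
  have hnear : ∀ ε : ℝ, 0 < ε → ∃ y, ‖y - v‖ < ε ∧ BJ z y := by
    intro ε' hε'
    obtain ⟨ε, hε, hεε', hεv⟩ : ∃ ε : ℝ, 0 < ε ∧ ε ≤ ε' ∧ ε ≤ ‖v‖ / 4 :=
      ⟨min ε' (‖v‖ / 4), by positivity, min_le_left _ _, min_le_right _ _⟩
    let Y : Set X := {x | x ∈ Sm X ∧ g x = 0 ∧ ‖x - v‖ < ε}
    have hgrw : ∀ y ∈ Y, gr y w = 0 := fun y hy => (sm_BJ_iff hy.1).1 (hpole y hy.2.1)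
    have hPy : ∀ y ∈ Y, PresAt T y := by
      intro y hy
      refine PresAt.of_smooth hy.1 ?_ ?_
      · rw [hT, hy.2.1]
        simp
      · intro u
        rw [hT, map_add, map_smul, hgrw y hy]
        simp
    have hYn : ∀ y ∈ Y, ‖v‖ * (3 / 4) ≤ ‖y‖ := by
      intro y hy
      have h1 : ‖v‖ ≤ ‖y‖ + ‖y - v‖ := by
        have : v = y - (y - v) := by abel
        calc ‖v‖ = ‖y - (y - v)‖ := by rw [← this]
          _ ≤ _ := norm_sub_le _ _
      have := hy.2.2
      linarith
    have hYY : ∀ y ∈ Y, ∀ y' ∈ Y, ¬ BJ y y' := by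
      intro y hy y' hy'
      apply not_BJ_of_close
      have h1 := hYn y hy
      have h2 : ‖y - y'‖ ≤ ‖y - v‖ + ‖y' - v‖ := by
        have : y - y' = (y - v) - (y' - v) := by abel
        rw [this]
        exact norm_sub_le _ _
      have h3 := hy.2.2
      have h4 := hy'.2.2
      linarith
    have hYz : ∀ y ∈ Y, ¬ BJ y z := by
      intro y hy h
      have h1 := (sm_BJ_iff hy.1).1 h
      rw [hz', map_add, map_smul, hgrw y hy, smul_zero, add_zero] at h1
      have h2 : gr y y = ‖y‖ := gr_self y
      have h3 : gr y (y - v) ≤ ‖y - v‖ := sub_le (gr_mem y) _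
      rw [map_sub, h1, h2] at h3
      have h4 := hYn y hy
      have h5 := hy.2.2
      linarith
    -- the span
    have hker : ∀ u, g u = 0 → u ∈ Submodule.span ℝ Y := by
      have hball : ∀ u, g u = 0 → ‖u - v‖ < ε → u ∈ Submodule.span ℝ Y := by
        intro u hu huv
        have hcl : IsClosed ((Submodule.span ℝ Y : Submodule ℝ X) : Set X) :=
          (Submodule.span ℝ Y).closed_of_finiteDimensional
        have hmem : u ∈ closure ((Submodule.span ℝ Y : Submodule ℝ X) : Set X) := by
          rw [Metric.mem_closure_iff]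
          intro η hη
          obtain ⟨x, hxs, hxg, hxu⟩ := hdense u hu (min η (ε - ‖u - v‖))
            (lt_min hη (by linarith))
          refine ⟨x, Submodule.subset_span ⟨hxs, hxg, ?_⟩, ?_⟩
          · have h1 : ‖x - v‖ ≤ ‖x - u‖ + ‖u - v‖ := by
              have : x - v = (x - u) + (u - v) := by abel
              rw [this]
              exact norm_add_le _ _
            have h2 := lt_of_lt_of_le hxu (min_le_right _ _)
            linarith
          · rw [dist_eq_norm, norm_sub_rev]
            exact lt_of_lt_of_le hxu (min_le_left _ _)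
        rw [hcl.closure_eq] at hmem
        exact hmem
      have hvm : v ∈ Submodule.span ℝ Y := hball v hgv (by simpa using hε)
      intro u hu
      by_cases hu0 : u = 0
      · rw [hu0]
        exact Submodule.zero_mem _
      have hnu : 0 < ‖u‖ := norm_pos_iff.2 hu0
      set c := ε / (2 * ‖u‖) with hc
      have hc0 : 0 < c := by positivity
      have h1 : v + c • u ∈ Submodule.span ℝ Y := by
        apply hball
        · rw [map_add, map_smul, hgv, hu]
          simp
        · rw [add_sub_cancel_left, norm_smul, Real.norm_of_nonneg hc0.le, hc]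
          have : ε / (2 * ‖u‖) * ‖u‖ = ε / 2 := by field_simp
          rw [this]
          linarith
      have h2 : c • u ∈ Submodule.span ℝ Y := by
        have := Submodule.sub_mem _ h1 hvm
        rwa [add_sub_cancel_left] at this
      have h3 := Submodule.smul_mem _ c⁻¹ h2
      rwa [smul_smul, inv_mul_cancel₀ hc0.ne', one_smul] at h3
    have hτ0 : τ ≠ 0 := by
      intro h0
      have h1 : T z = z := by
        rw [hT, ← hτ, h0]
        simp
      rw [hm, h1, hz] at hm1
      exact lt_irrefl _ hm1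
    have htop : ⊤ ≤ Submodule.span ℝ (insert z Y) := by
      intro u _
      have h1 : u - (g u / τ) • z ∈ Submodule.span ℝ Y := by
        apply hker
        rw [map_sub, map_smul, ← hτ, smul_eq_mul]
        field_simp
        ring
      have h2 : u = (u - (g u / τ) • z) + (g u / τ) • z := by abel
      rw [h2]
      refine Submodule.add_mem _ (Submodule.span_mono (Set.subset_insert _ _) h1)
        (Submodule.smul_mem _ _ (Submodule.subset_span (Set.mem_insert _ _)))
    obtain ⟨x, hli, hx, i0, hi0⟩ := exists_basis_in hn Y z (by rintro rfl; simp at hz) htop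
    obtain ⟨S, ⟨i, hi⟩, ⟨j, hj⟩, hS⟩ := hP T hns x hli (by
      intro i
      rcases hx i with h | h
      · rw [h]
        exact hTz
      · exact hPy _ h)
    have hij := hS i hi j hj
    rcases hx i with h | h
    · rcases hx j with h' | h'
      · exfalso
        have h1 : i = j := hli.injective (h.trans h'.symm)
        exact hj (h1 ▸ hi)
      · refine ⟨x j, lt_of_lt_of_le h'.2.2 hεε', ?_⟩
        rw [← h]
        exact hij
    · exfalso
      rcases hx j with h' | h'
      · rw [h'] at hij
        exact hYz _ h hij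
      · exact hYY _ h _ h' hij
  -- the limit
  have hzv : BJ z v := by
    intro t
    apply le_of_forall_pos_le_add
    intro η hη
    obtain ⟨y, hy, hzy⟩ := hnear (η / (|t| + 1)) (by positivity)
    have h1 := hzy t
    have h2 : z + t • y = (z + t • v) + t • (y - v) := by module
    rw [h2] at h1
    refine h1.trans ((norm_add_le _ _).trans ?_)
    rw [norm_smul, Real.norm_eq_abs]
    have h3 : |t| * ‖y - v‖ ≤ η := by
      have h4 : |t| * ‖y - v‖ ≤ (|t| + 1) * (η / (|t| + 1)) :=
        mul_le_mul (by linarith) hy.le (norm_nonneg _) (by positivity)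
      have h5 : (|t| + 1) * (η / (|t| + 1)) = η := by
        have : (|t| + 1) ≠ 0 := by positivity
        field_simp
      linarith
    linarith
  have hs0 : s ≠ 0 := by
    intro h
    rw [h] at hs
    linarith
  have h1 := hzv (s⁻¹ - 1)
  have h2 : z + (s⁻¹ - 1) • v = s⁻¹ • T z := by
    rw [hTz']
    conv_lhs => rw [hz']
    rw [smul_add, smul_smul, ← mul_assoc, inv_mul_cancel₀ hs0, one_mul]
    module
  rw [h2, norm_smul, hz, norm_inv, Real.norm_eq_abs, ← hm] at h1
  have h3 : |s|⁻¹ * m ≤ 1 * m := by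
    apply mul_le_mul_of_nonneg_right _ hm0
    exact (inv_lt_one_of_one_lt₀ hsabs).le
  linarith

end

/-- KS-F -/
theorem refl (X : Type*) [NormedAddCommGroup X] [NormedSpace ℝ X] [FiniteDimensional ℝ X] :
    ReflStm X := by
  intro n _ hn hP g w hgw hpole hdense
  have key : ∀ y, ‖y‖ ≤ ‖y - (2 * g y) • w‖ := by
    intro y
    have h1 : Tendsto (fun s : ℝ => ‖y + ((s - 1) * g y) • w‖) (𝓝[<] (-1))
        (𝓝 ‖y + (((-1 : ℝ) - 1) * g y) • w‖) := by
      apply Tendsto.mono_left _ nhdsWithin_le_nhds
      apply Continuous.tendsto (f := fun s : ℝ => ‖y + ((s - 1) * g y) • w‖)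
      fun_prop
    have h2 : ‖y‖ ≤ ‖y + (((-1 : ℝ) - 1) * g y) • w‖ := by
      refine ge_of_tendsto h1 ?_
      filter_upwards [self_mem_nhdsWithin] with s hs
      exact refl_claim hn hP g w hgw hpole hdense s hs y
    have h3 : y + (((-1 : ℝ) - 1) * g y) • w = y - (2 * g y) • w := by
      module
    rwa [h3] at h2
  intro x
  apply le_antisymm _ (key x)
  have h1 := key (x - (2 * g x) • w)
  have h2 : (x - (2 * g x) • w) - (2 * g (x - (2 * g x) • w)) • w = x := by
    rw [map_sub, map_smul, hgw]
    simp only [smul_eq_mul, mul_one]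
    module
  rwa [h2] at h1

end R876.KS
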