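import Pool.Agent.R876.KS.Stm

/-!
# KS-G: all reflections are isometries
-/

namespace R876.KS

open Metric Filter Topology Module

section
variable {X : Type*} [NormedAddCommGroup X] [NormedSpace ℝ X] [FiniteDimensional ℝ X]

theorem finrank_ker_of_ne {n : ℕ} (hn : finrank ℝ X = n + 1) (f : X →ₗ[ℝ] ℝ) (hf : f ≠ 0) :
    finrank ℝ (LinearMap.ker f) = n := by
  have h1 := LinearMap.finrank_range_add_finrank_ker f
  have h2 : LinearMap.range f = ⊤ := by
    rw [LinearMap.range_eq_top]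
    exact LinearMap.surjective hf
  rw [h2, finrank_top, finrank_self, hn] at h1
  omega

/-- one generic hyperplane -/
theorem stage (hPole : PoleStm X) (hRefl : ReflStm X) {m : ℕ} (hm : finrank ℝ X = m + 2)
    (hP : P1 X (m + 2)) (v : Fin (m + 1) → X) (hv : LinearIndependent ℝ v)
    (hgen : Gen m (Submodule.span ℝ (Set.range v))) :
    ∃ (u : X) (f : X →L[ℝ] ℝ), ‖u‖ = 1 ∧ ‖f‖ = 1 ∧ (∀ i, f (v i) = 0) ∧
      (∀ c : Fin (m + 1) → ℝ, BJ (∑ i, c i • v i) u) ∧
      ∀ x, ‖x - (2 * (f x / f u)) • u‖ = ‖x‖ := by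
  set V := Submodule.span ℝ (Set.range v) with hV
  have hVr : finrank ℝ V = m + 1 := by
    rw [hV, finrank_span_eq_card hv, Fintype.card_fin]
  have hlt : V < ⊤ := by
    rw [lt_top_iff_ne_top]
    intro h
    rw [h, finrank_top, hm] at hVr
    omega
  obtain ⟨w, hw0, hw⟩ := hPole m hm hP V hVr
  obtain ⟨f0, hf0, hf0V⟩ := V.exists_le_ker_of_lt_top hlt
  have hker : V = LinearMap.ker f0 :=
    Submodule.eq_of_le_of_finrank_eq hf0V
      (by rw [hVr, finrank_ker_of_ne (n := m + 1) hm f0 hf0])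
  let f1 : X →L[ℝ] ℝ := LinearMap.toContinuousLinearMap f0
  have hf1 : ∀ x, f1 x = f0 x := fun x => rfl
  have hf1n : ‖f1‖ ≠ 0 := by
    rw [norm_ne_zero_iff]
    intro h
    apply hf0
    ext x
    rw [← hf1, h]
    rfl
  have hwn : ‖w‖ ≠ 0 := norm_ne_zero_iff.2 hw0
  set u := ‖w‖⁻¹ • w with hu
  set f := ‖f1‖⁻¹ • f1 with hf
  have hun : ‖u‖ = 1 := by
    rw [hu, norm_smul, norm_inv, norm_norm, inv_mul_cancel₀ hwn]
  have hfn : ‖f‖ = 1 := by
    rw [hf, norm_smul, norm_inv, norm_norm, inv_mul_cancel₀ hf1n]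
  have hmem : ∀ x, f x = 0 ↔ x ∈ V := by
    intro x
    rw [hker, LinearMap.mem_ker]
    show ‖f1‖⁻¹ * f0 x = 0 ↔ _
    rw [mul_eq_zero]
    constructor
    · rintro (h | h)
      · exact absurd (inv_eq_zero.1 h) hf1n
      · exact h
    · exact Or.inr
  have hBJ : ∀ x ∈ V, BJ x u := fun x hx => (hw x hx).smul_right _
  have hfu : f u ≠ 0 := by
    intro h
    have h1 := hBJ u ((hmem u).1 h)
    exact not_BJ_self (by rw [← norm_ne_zero_iff, hun]; norm_num) h1
  refine ⟨u, f, hun, hfn, fun i => ?_, fun c => ?_, ?_⟩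
  · rw [hmem]
    exact Submodule.subset_span (Set.mem_range_self i)
  · apply hBJ
    exact Submodule.sum_mem _ fun i _ => Submodule.smul_mem _ _
      (Submodule.subset_span (Set.mem_range_self i))
  · have h1 := hRefl (m + 2) (by omega) hm hP ((f u)⁻¹ • f) u
      (by
        show (f u)⁻¹ * f u = 1
        exact inv_mul_cancel₀ hfu)
      (by
        intro x hx
        apply hBJ
        rw [← hmem]
        have h2 : (f u)⁻¹ * f x = 0 := hx
        rcases mul_eq_zero.1 h2 with h3 | h3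
        · exact absurd (inv_eq_zero.1 h3) hfu
        · exact h3)
      (by
        intro y hy ε hε
        have h2 : (f u)⁻¹ * f y = 0 := hy
        have h3 : f y = 0 := by
          rcases mul_eq_zero.1 h2 with h3 | h3
          · exact absurd (inv_eq_zero.1 h3) hfu
          · exact h3
        obtain ⟨x, hx, -⟩ := hgen y ((hmem y).1 h3) ε hε
        refine ⟨x 0, (hx 0).2.1, ?_, (hx 0).2.2⟩
        show (f u)⁻¹ * f (x 0) = 0
        rw [(hmem _).2 (hx 0).1, mul_zero])
    intro x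
    have h2 := h1 x
    have h3 : ((f u)⁻¹ • f) x = f x / f u := by
      show (f u)⁻¹ * f x = _
      rw [div_eq_inv_mul]
    rw [h3] at h2
    exact h2

end

/-- KS-G -/
theorem allRefl (X : Type*) [NormedAddCommGroup X] [NormedSpace ℝ X] [FiniteDimensional ℝ X] :
    AllReflStm X := by
  intro hGen hPole hRefl m hm hP g hg
  have hg0 : (g : X →ₗ[ℝ] ℝ) ≠ 0 := by
    intro h
    apply hg
    ext x
    exact LinearMap.congr_fun h x
  have hkr := finrank_ker_of_ne (n := m + 1) hm (g : X →ₗ[ℝ] ℝ) hg0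
  let b := finBasisOfFinrankEq ℝ (LinearMap.ker (g : X →ₗ[ℝ] ℝ)) hkr
  let v0 : Fin (m + 1) → X := fun i => (b i : X)
  have hv0 : LinearIndependent ℝ v0 :=
    b.linearIndependent.map' (LinearMap.ker (g : X →ₗ[ℝ] ℝ)).subtype
      (Submodule.ker_subtype _)
  have hspan : ∀ y, g y = 0 → ∃ c : Fin (m + 1) → ℝ, y = ∑ i, c i • v0 i := by
    intro y hy
    let y' : LinearMap.ker (g : X →ₗ[ℝ] ℝ) := ⟨y, hy⟩
    refine ⟨fun i => b.repr y' i, ?_⟩
    have h1 := b.sum_repr y'
    have h2 := congrArg (fun z : LinearMap.ker (g : X →ₗ[ℝ] ℝ) => (z : X)) h1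
    simp only [Submodule.coe_sum, Submodule.coe_smul] at h2
    exact h2.symm
  -- the sequence
  have hseq : ∀ j : ℕ, ∃ (v : Fin (m + 1) → X) (u : X) (f : X →L[ℝ] ℝ),
      ‖v - v0‖ < 1 / ((j : ℝ) + 1) ∧ ‖u‖ = 1 ∧ ‖f‖ = 1 ∧ (∀ i, f (v i) = 0) ∧
      (∀ c : Fin (m + 1) → ℝ, BJ (∑ i, c i • v i) u) ∧
      ∀ x, ‖x - (2 * (f x / f u)) • u‖ = ‖x‖ := by
    intro j
    have hopen : IsOpen ({v : Fin (m + 1) → X | LinearIndependent ℝ v} ∩
        ball v0 (1 / ((j : ℝ) + 1))) :=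
      isOpen_setOfPred_linearIndependent.inter isOpen_ball
    obtain ⟨v, ⟨hv1, hv2⟩, hv3⟩ := hGen m hm hP _ hopen
      ⟨v0, hv0, mem_ball_self (by positivity)⟩
    obtain ⟨u, f, h1, h2, h3, h4, h5⟩ := stage hPole hRefl hm hP v hv1 hv3
    exact ⟨v, u, f, by rw [← dist_eq_norm]; exact hv2, h1, h2, h3, h4, h5⟩
  choose v u f hv hu hf hfv hBJ hR using hseq
  have hmem : ∀ j, (u j, f j) ∈ sphere (0 : X) 1 ×ˢ sphere (0 : X →L[ℝ] ℝ) 1 := fun j =>
    ⟨by simpa using hu j, by simpa using hf j⟩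
  obtain ⟨⟨u0, f0⟩, ⟨hu0, hf0⟩, φ, hφ, hlim⟩ :=
    ((isCompact_sphere (0 : X) 1).prod (isCompact_sphere (0 : X →L[ℝ] ℝ) 1)).tendsto_subseq hmem
  have hul : Tendsto (fun j => u (φ j)) atTop (𝓝 u0) :=
    (continuous_fst.tendsto (u0, f0)).comp hlim
  have hfl : Tendsto (fun j => f (φ j)) atTop (𝓝 f0) :=
    (continuous_snd.tendsto (u0, f0)).comp hlim
  have hvl : Tendsto (fun j => v (φ j)) atTop (𝓝 v0) := by
    have h1 : Tendsto v atTop (𝓝 v0) := by
      rw [tendsto_iff_norm_sub_tendsto_zero]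
      exact squeeze_zero (fun _ => norm_nonneg _) (fun n => (hv n).le)
        tendsto_one_div_add_atTop_nhds_zero_nat
    exact h1.comp hφ.tendsto_atTop
  have hu1 : ‖u0‖ = 1 := by simpa using hu0
  have hf1 : ‖f0‖ = 1 := by simpa using hf0
  have happ : ∀ (y : ℕ → X) (y0 : X), Tendsto y atTop (𝓝 y0) →
      Tendsto (fun j => f (φ j) (y j)) atTop (𝓝 (f0 y0)) := by
    intro y y0 hy
    exact ((isBoundedBilinearMap_apply (𝕜 := ℝ) (E := X) (F := ℝ)).continuous.tendsto
      (f0, y0)).comp (hfl.prodMk_nhds hy)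
  have hcomb : ∀ c : Fin (m + 1) → ℝ,
      Tendsto (fun j => ∑ i, c i • v (φ j) i) atTop (𝓝 (∑ i, c i • v0 i)) := by
    intro c
    refine tendsto_finsetSum _ fun i _ => ?_
    exact (((continuous_apply i).tendsto v0).comp hvl).const_smul (c i)
  have hker : ∀ y, g y = 0 → f0 y = 0 ∧ BJ y u0 := by
    intro y hy
    obtain ⟨c, rfl⟩ := hspan y hy
    constructor
    · have h1 := happ _ _ (hcomb c)
      have h2 : (fun j => f (φ j) (∑ i, c i • v (φ j) i)) = fun _ => (0 : ℝ) := by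
        funext j
        rw [map_sum]
        refine Finset.sum_eq_zero fun i _ => ?_
        rw [map_smul, hfv, smul_zero]
      rw [h2] at h1
      exact tendsto_nhds_unique h1 tendsto_const_nhds |>.symm ▸ rfl
    · intro t
      refine le_of_tendsto_of_tendsto' (hcomb c).norm
        (((hcomb c).add (hul.const_smul t)).norm) fun j => ?_
      exact hBJ (φ j) c t
  have hgu : g u0 ≠ 0 := by
    intro h
    exact not_BJ_self (by rw [← norm_ne_zero_iff, hu1]; norm_num) (hker u0 h).2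
  have hfx : ∀ x, f0 x = g x / g u0 * f0 u0 := by
    intro x
    have h1 : g (x - (g x / g u0) • u0) = 0 := by
      rw [map_sub, map_smul, smul_eq_mul]
      field_simp
      ring
    have h2 := (hker _ h1).1
    rw [map_sub, map_smul, smul_eq_mul] at h2
    linarith
  have hfu : f0 u0 ≠ 0 := by
    intro h
    have h1 : f0 = 0 := by
      ext x
      rw [hfx, h, mul_zero]
      rfl
    rw [h1, norm_zero] at hf1
    exact zero_ne_one hf1
  refine ⟨(g u0)⁻¹ • u0, ?_, fun x => ?_⟩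
  · rw [map_smul, smul_eq_mul, inv_mul_cancel₀ hgu]
  · have h1 : Tendsto (fun j => ‖x - (2 * (f (φ j) x / f (φ j) (u (φ j)))) • u (φ j)‖) atTop
        (𝓝 ‖x - (2 * (f0 x / f0 u0)) • u0‖) := by
      have h2 := happ _ _ hul
      have h3 := happ (fun _ => x) x tendsto_const_nhds
      exact (tendsto_const_nhds.sub (((h3.div h2 hfu).const_mul 2).smul hul)).norm
    have h4 : (fun j => ‖x - (2 * (f (φ j) x / f (φ j) (u (φ j)))) • u (φ j)‖) = fun _ => ‖x‖ := by
      funext j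
      exact hR (φ j) x
    rw [h4] at h1
    have h5 := tendsto_nhds_unique h1 tendsto_const_nhds
    rw [← h5, hfx x, smul_smul]
    congr 3
    field_simp

end R876.KS
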