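import Pool.Agent.R876.KS.Stm

/-!
# KS-H: all reflections isometric implies that the norm is induced by an inner product
-/

namespace R876.KS

open Metric Filter Topology Module MeasureTheory

section
variable {X : Type*} [NormedAddCommGroup X] [NormedSpace ℝ X] [FiniteDimensional ℝ X]

/-- a positive definite form invariant under all isometric reflections -/
theorem exists_form :
    ∃ B : X →ₗ[ℝ] X →ₗ[ℝ] ℝ, (∀ x y, B x y = B y x) ∧ (∀ x, x ≠ 0 → 0 < B x x) ∧
      ∀ (g : X →L[ℝ] ℝ) (w : X), g w = 1 → (∀ x, ‖x - (2 * g x) • w‖ = ‖x‖) →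
        ∀ x y, B (x - (2 * g x) • w) (y - (2 * g y) • w) = B x y := by
  let _ : MeasurableSpace (X →L[ℝ] ℝ) := borel _
  have _ : BorelSpace (X →L[ℝ] ℝ) := ⟨rfl⟩
  let μ : Measure (X →L[ℝ] ℝ) := Measure.addHaar
  set K : Set (X →L[ℝ] ℝ) := closedBall 0 1 with hK
  have hKc : IsCompact K := isCompact_closedBall _ _
  have hcont : ∀ x y : X, Continuous (fun h : X →L[ℝ] ℝ => h x * h y) := fun x y => by
    fun_prop
  have hint : ∀ x y : X, IntegrableOn (fun h : X →L[ℝ] ℝ => h x * h y) K μ := fun x y =>
    (hcont x y).continuousOn.integrableOn_compact hKc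
  let B : X →ₗ[ℝ] X →ₗ[ℝ] ℝ := LinearMap.mk₂ ℝ (fun x y => ∫ h in K, h x * h y ∂μ)
    (by
      intro x x' y
      rw [← integral_add (hint x y) (hint x' y)]
      congr 1
      funext h
      rw [map_add]; ring)
    (by
      intro c x y
      rw [smul_eq_mul, ← integral_const_mul]
      congr 1
      funext h
      rw [map_smul, smul_eq_mul]; ring)
    (by
      intro x y y'
      rw [← integral_add (hint x y) (hint x y')]
      congr 1
      funext h
      rw [map_add]; ring)
    (by
      intro c x y
      rw [smul_eq_mul, ← integral_const_mul]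
      congr 1
      funext h
      rw [map_smul, smul_eq_mul]; ring)
  have hB : ∀ x y, B x y = ∫ h in K, h x * h y ∂μ := fun x y => rfl
  refine ⟨B, ?_, ?_, ?_⟩
  · intro x y
    rw [hB, hB]
    congr 1
    funext h
    ring
  · intro x hx
    have h0 : 0 ≤ B x x := by
      rw [hB]
      exact integral_nonneg fun h => mul_self_nonneg _
    refine lt_of_le_of_ne h0 fun heq => ?_
    have h1 : ∫ h in K, h x * h x ∂μ = 0 := heq.symm
    rw [integral_eq_zero_iff_of_nonneg (fun h => mul_self_nonneg _) (hint x x)] at h1
    have h2 : (fun h : X →L[ℝ] ℝ => h x * h x) =ᵐ[μ.restrict (ball 0 1)] 0 :=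
      ae_mono (Measure.restrict_mono ball_subset_closedBall le_rfl) h1
    have h3 := Measure.eqOn_open_of_ae_eq h2 isOpen_ball (hcont x x).continuousOn
      continuousOn_const
    obtain ⟨g, hg, hgx⟩ := exists_dual_vector ℝ x (norm_ne_zero_iff.2 hx)
    have h4 : ((1 / 2 : ℝ) • g) ∈ ball (0 : X →L[ℝ] ℝ) 1 := by
      rw [mem_ball_zero_iff, norm_smul, hg]
      norm_num
    have h5 := h3 h4
    simp only [FunLike.coe_smul, Pi.smul_apply, smul_eq_mul, Pi.zero_apply] at h5
    rw [hgx] at h5
    have h6 : 0 < ‖x‖ := norm_pos_iff.2 hx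
    simp only [RCLike.ofReal_real_eq_id, id_eq] at h5
    nlinarith
  · intro g w hgw hiso x y
    -- the reflection
    let R : X →L[ℝ] X := ContinuousLinearMap.id ℝ X - (2 : ℝ) • g.smulRight w
    have hR : ∀ z, R z = z - (2 * g z) • w := by
      intro z
      show z - (2 : ℝ) • (g z • w) = _
      rw [smul_smul]
    have hRR : ∀ z, R (R z) = z := by
      intro z
      rw [hR (R z), hR z, map_sub, map_smul, hgw]
      simp only [smul_eq_mul, mul_one]
      module
    let Φ : (X →L[ℝ] ℝ) →ₗ[ℝ] (X →L[ℝ] ℝ) :=
      { toFun := fun h => h.comp R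
        map_add' := fun h h' => rfl
        map_smul' := fun c h => rfl }
    have hΦ : ∀ h z, Φ h z = h (R z) := fun h z => rfl
    have hinv : Function.Involutive Φ := by
      intro h
      ext z
      rw [hΦ, hΦ, hRR]
    have hΦc : Continuous Φ := Φ.continuous_of_finiteDimensional
    have hnorm : ∀ h, ‖Φ h‖ ≤ ‖h‖ := by
      intro h
      refine ContinuousLinearMap.opNorm_le_bound _ (norm_nonneg _) fun z => ?_
      rw [hΦ]
      refine (h.le_opNorm _).trans ?_
      rw [hR, hiso]
    have hpre : Φ ⁻¹' K = K := by
      ext h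
      simp only [Set.mem_preimage, hK, mem_closedBall_zero_iff]
      constructor
      · intro h1
        have h2 := hnorm (Φ h)
        rw [hinv h] at h2
        exact h2.trans h1
      · intro h1
        exact (hnorm h).trans h1
    have hdet : |LinearMap.det Φ| = 1 := by
      have h1 : LinearMap.det Φ * LinearMap.det Φ = 1 := by
        rw [← LinearMap.det_comp]
        have h2 : Φ ∘ₗ Φ = LinearMap.id := by
          ext h z
          show Φ (Φ h) z = h z
          rw [hinv h]
        rw [h2, LinearMap.det_id]
      have h3 : |LinearMap.det Φ| * |LinearMap.det Φ| = 1 := by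
        rw [← abs_mul, h1, abs_one]
      nlinarith [abs_nonneg (LinearMap.det Φ)]
    have hne : LinearMap.det Φ ≠ 0 := by
      intro h0
      rw [h0] at hdet
      simp at hdet
    have hmp : MeasurePreserving Φ μ μ := by
      refine ⟨hΦc.measurable, ?_⟩
      rw [Measure.map_linearMap_addHaar_eq_smul_addHaar μ hne, abs_inv, hdet]
      simp
    have hemb : MeasurableEmbedding Φ :=
      (MeasurableEquiv.ofInvolutive Φ hinv hΦc.measurable).measurableEmbedding
    have h1 := hmp.setIntegral_preimage_emb hemb (fun h => h x * h y) K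
    rw [hpre] at h1
    rw [hB, hB, ← h1]
    congr 1
    funext h
    rw [hΦ, hΦ, hR, hR]

/-- KS-H -/
theorem hilb (X : Type*) [NormedAddCommGroup X] [NormedSpace ℝ X] [FiniteDimensional ℝ X] :
    HilbStm X := by
  intro hX
  obtain ⟨B, hsymm, hpos, hinvB⟩ := exists_form (X := X)
  -- equal B-norm implies equal norm
  have key : ∀ x y : X, B x x = B y y → ‖x‖ = ‖y‖ := by
    intro x y hxy
    by_cases hne : x = y
    · rw [hne]
    set u := x - y with hu
    have hu0 : u ≠ 0 := sub_ne_zero.2 hne
    let g : X →L[ℝ] ℝ := LinearMap.toContinuousLinearMap (B u)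
    have hg : ∀ z, g z = B u z := fun z => rfl
    have hg0 : g ≠ 0 := by
      intro h0
      have h1 : g u = 0 := by rw [h0]; rfl
      rw [hg] at h1
      exact (hpos u hu0).ne' h1
    obtain ⟨w, hgw, hiso⟩ := hX g hg0
    have hI := hinvB g w hgw hiso
    -- ker g is orthogonal to w
    have horth : ∀ v, g v = 0 → B v w = 0 := by
      intro v hv
      have h1 := hI v w
      rw [hv, hgw] at h1
      have h2 : v - (2 * (0 : ℝ)) • w = v := by simp
      have h3 : w - (2 * (1 : ℝ)) • w = -w := by module
      rw [h2, h3, map_neg] at h1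
      linarith
    set v := u - g u • w with hv
    have hgv : g v = 0 := by
      rw [hv, map_sub, map_smul, hgw]
      simp
    have hv0 : v = 0 := by
      by_contra hv0
      have h1 := hpos v hv0
      have h2 : B v v = B v u - g u * B v w := by
        conv_lhs => rw [hv]
        rw [← hv]
        have : B v (u - g u • w) = B v u - g u * B v w := by
          rw [map_sub, map_smul, smul_eq_mul]
        rw [← this, ← hv]
      rw [horth v hgv, hsymm v u, ← hg, hgv] at h2
      linarith
    have huw : u = g u • w := sub_eq_zero.1 hv0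
    have hRu : u - (2 * g u) • w = -u := by
      have : (2 * g u) • w = (2 : ℝ) • u := by
        conv_rhs => rw [huw]
        rw [smul_smul]
      rw [this]
      module
    have hgs : g (x + y) = 0 := by
      rw [hg, hu, map_sub, LinearMap.sub_apply, map_add, map_add, hsymm y x]
      linarith
    have hx : x - (2 * g x) • w = y := by
      have e1 : x = (1 / 2 : ℝ) • (x + y) + (1 / 2 : ℝ) • u := by rw [hu]; module
      have e2 : g x = (1 / 2) * g u := by
        conv_lhs => rw [e1]
        rw [map_add, map_smul, map_smul, hgs]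
        simp
      have e3 : (2 * g x) • w = u := by
        rw [e2, huw]
        have : 2 * (1 / 2 * g u) = g u := by ring
        rw [← huw, this]
        exact huw.symm
      rw [e3, hu]
      abel
    rw [← hx, hiso]
  by_cases hX0 : ∀ x : X, x = 0
  · refine ⟨0, fun _ _ => rfl, fun x => ?_⟩
    rw [hX0 x]
    simp
  · push Not at hX0
    obtain ⟨x0, hx0⟩ := hX0
    have hb0 := hpos x0 hx0
    refine ⟨(‖x0‖ ^ 2 / B x0 x0) • B, ?_, ?_⟩
    · intro x y
      simp only [LinearMap.smul_apply]
      rw [hsymm x y]
    · intro x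
      simp only [LinearMap.smul_apply, smul_eq_mul]
      by_cases hx : x = 0
      · rw [hx]
        simp
      have hb := hpos x hx
      set s := Real.sqrt (B x0 x0 / B x x) with hs
      have hs2 : s ^ 2 = B x0 x0 / B x x := Real.sq_sqrt (by positivity)
      have h1 : B (s • x) (s • x) = B x0 x0 := by
        rw [map_smul, smul_eq_mul, map_smul, LinearMap.smul_apply, smul_eq_mul, ← mul_assoc,
          ← sq, hs2]
        field_simp
      have h2 := key _ _ h1
      rw [norm_smul] at h2
      have h3 : s ^ 2 * ‖x‖ ^ 2 = ‖x0‖ ^ 2 := by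
        rw [← h2, mul_pow, Real.norm_eq_abs, sq_abs]
      rw [hs2] at h3
      rw [← h3]
      field_simp

end

end R876.KS
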