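import Pool.Agent.R876.KS.B
import Pool.Agent.R876.KS.C
import Pool.Agent.R876.KS.E
import Pool.Agent.R876.KS.F
import Pool.Agent.R876.KS.G
import Pool.Agent.R876.KS.H

/-!
# Project KS: assembly
-/

namespace R876.KS

open Metric Filter Topology Module

variable {X : Type*} [NormedAddCommGroup X] [NormedSpace ℝ X]

/-- Property (P) implies `P1`. -/
theorem p1_of_propP {n : ℕ} (hfin : finrank ℝ X = n) (hn : 1 ≤ n) (hP : PropP X) :
    P1 X n := by
  subst hfin
  intro T hT x hli hpres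
  by_contra hcon
  push Not at hcon
  have hx0 : ∀ i, x i ≠ 0 := fun i => hli.ne_zero i
  have hxn : ∀ i, ‖x i‖ ≠ 0 := fun i => norm_ne_zero_iff.2 (hx0 i)
  let u : Fin (finrank ℝ X) → X := fun i => ‖x i‖⁻¹ • x i
  have hinv : ∀ i, ‖x i‖⁻¹ ≠ 0 := fun i => inv_ne_zero (hxn i)
  have hun : ∀ i, ‖u i‖ = 1 := by
    intro i
    simp only [u]
    rw [norm_smul, norm_inv, norm_norm, inv_mul_cancel₀ (hxn i)]
  have hu0 : ∀ i, u i ≠ 0 := by
    intro i h0
    have := hun i
    rw [h0, norm_zero] at this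
    exact zero_ne_one this
  have huli : LinearIndependent ℝ u := by
    have := hli.units_smul (fun i => Units.mk0 (‖x i‖⁻¹) (hinv i))
    exact this
  have hupres : ∀ i, PresAt T (u i) := fun i => (hpres i).smul (hinv i)
  have hsub : Set.range u ⊆ sphere (0 : X) 1 := by
    rintro _ ⟨i, rfl⟩
    simpa using hun i
  have hne : (Set.range u).Nonempty := ⟨u ⟨0, hn⟩, ⟨_, rfl⟩⟩
  have hmin : IsMinKSet (Set.range u) := by
    apply (hP _ hsub hne).2
    refine ⟨⟨u, huli, rfl⟩, ?_⟩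
    intro A₁ A₂ h1 h2 hA hort
    have hmem : ∀ i, u i ∈ A₁ ∨ u i ∈ A₂ := by
      intro i
      have : u i ∈ A₁ ∪ A₂ := by rw [← hA]; exact ⟨i, rfl⟩
      exact this
    have hdisj : ∀ i, u i ∈ A₁ → u i ∈ A₂ → False := fun i h1 h2 =>
      not_BJ_self (hu0 i) (hort _ h1 _ h2)
    obtain ⟨a, ha⟩ := h1
    obtain ⟨b, hb⟩ := h2
    obtain ⟨i, rfl⟩ : a ∈ Set.range u := by rw [hA]; exact Or.inl ha
    obtain ⟨j, rfl⟩ : b ∈ Set.range u := by rw [hA]; exact Or.inr hb
    obtain ⟨i', hi', j', hj', hbad⟩ := hcon {i | u i ∈ A₁} ⟨i, ha⟩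
      ⟨j, fun h => hdisj j h hb⟩
    apply hbad
    have h3 : u j' ∈ A₂ := (hmem j').resolve_left hj'
    have h4 : BJ (u i') (u j') := hort _ hi' _ h3
    simp only [u] at h4
    rw [BJ_smul_left_iff (hinv i')] at h4
    have h5 := h4.smul_right (‖x j'‖)
    rwa [smul_smul, mul_inv_cancel₀ (hxn j'), one_smul] at h5
  have : IsKSet (Set.range u) := hmin.1
  apply hT
  apply this
  rintro _ ⟨i, rfl⟩
  exact hupres i

/-- The main theorem: property (P) forces the norm to come from an inner product. -/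
theorem hilb_of_propP (hn : 2 ≤ finrank ℝ X) (hP : PropP X) : IsHilb X := by
  have _ : FiniteDimensional ℝ X := FiniteDimensional.of_finrank_pos (by omega)
  obtain ⟨m, hm⟩ : ∃ m, finrank ℝ X = m + 2 := ⟨finrank ℝ X - 2, by omega⟩
  have h1 : P1 X (m + 2) := p1_of_propP hm (by omega) hP
  have hgen : GenStm X := gen_of_f5 f5
  have hpole : PoleStm X := pole_of hgen (sel X) core
  exact hilb X (allRefl X hgen hpole (refl X) m hm h1)

end R876.KS
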