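import Pool.Agent.R876.KS.Stm

/-!
# KS-I: in a Euclidean space the property (P) holds
-/

namespace R876.KS

open Metric Filter Topology Module
open scoped InnerProductSpace

section
variable {X : Type*} [NormedAddCommGroup X] [InnerProductSpace ℝ X]

theorem BJ_inner {x y : X} : BJ x y ↔ ⟪x, y⟫_ℝ = 0 := by
  constructor
  · intro h
    by_cases hy : y = 0
    · rw [hy, inner_zero_right]
    have hy2 : 0 < ‖y‖ ^ 2 := by positivity
    have h1 := h (-(⟪x, y⟫_ℝ / ‖y‖ ^ 2))
    have h2 : ‖x‖ ^ 2 ≤ ‖x + (-(⟪x, y⟫_ℝ / ‖y‖ ^ 2)) • y‖ ^ 2 := by gcongr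
    rw [norm_add_sq_real, inner_smul_right, norm_smul, mul_pow, Real.norm_eq_abs, sq_abs] at h2
    have h3 : 2 * (-(⟪x, y⟫_ℝ / ‖y‖ ^ 2) * ⟪x, y⟫_ℝ)
        + (-(⟪x, y⟫_ℝ / ‖y‖ ^ 2)) ^ 2 * ‖y‖ ^ 2 = -(⟪x, y⟫_ℝ ^ 2 / ‖y‖ ^ 2) := by
      field_simp
      ring
    have h4 : ⟪x, y⟫_ℝ ^ 2 / ‖y‖ ^ 2 ≤ 0 := by linarith
    have h5 : ⟪x, y⟫_ℝ ^ 2 ≤ 0 := by
      rw [div_le_iff₀ hy2] at h4
      linarith
    have h6 : ⟪x, y⟫_ℝ ^ 2 = 0 := le_antisymm h5 (sq_nonneg _)
    exact pow_eq_zero_iff (two_ne_zero) |>.1 h6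
  · intro h t
    have h1 : ‖x‖ ^ 2 ≤ ‖x + t • y‖ ^ 2 := by
      rw [norm_add_sq_real, inner_smul_right, h]
      nlinarith [sq_nonneg ‖t • y‖]
    exact (sq_le_sq₀ (norm_nonneg _) (norm_nonneg _)).1 h1

theorem BJ_comm' {x y : X} (h : BJ x y) : BJ y x := by
  rw [BJ_inner] at *
  rw [real_inner_comm]
  exact h

/-- irreducible sets -/
def Irr (A : Set X) : Prop := ∀ A₁ A₂ : Set X, A₁.Nonempty → A₂.Nonempty → A = A₁ ∪ A₂ →
  ¬ ∀ x ∈ A₁, ∀ y ∈ A₂, BJ x y

variable [FiniteDimensional ℝ X]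

theorem kset_of_span {A : Set X} (hA : A ⊆ sphere 0 1) (hne : A.Nonempty)
    (hspan : Submodule.span ℝ A = ⊤) (hirr : Irr A) : IsKSet A := by
  intro T hT
  have h1 : ∀ a ∈ A, ∀ y, ⟪T a, T y⟫_ℝ = ‖T a‖ ^ 2 * ⟪a, y⟫_ℝ := by
    intro a ha y
    have hn : ‖a‖ = 1 := by simpa using hA ha
    have h2 : BJ a (y - ⟪a, y⟫_ℝ • a) := by
      rw [BJ_inner, inner_sub_right, inner_smul_right, real_inner_self_eq_norm_sq, hn]
      ring
    have h3 := BJ_inner.1 (hT a ha _ h2)
    rw [map_sub, map_smul, inner_sub_right, inner_smul_right, real_inner_self_eq_norm_sq] at h3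
    linarith
  obtain ⟨a0, ha0⟩ := hne
  have h2 : ∀ a ∈ A, ‖T a‖ ^ 2 = ‖T a0‖ ^ 2 := by
    by_contra hcon
    push Not at hcon
    obtain ⟨a1, ha1, hne1⟩ := hcon
    refine hirr {a | a ∈ A ∧ ‖T a‖ ^ 2 = ‖T a0‖ ^ 2} {a | a ∈ A ∧ ‖T a‖ ^ 2 ≠ ‖T a0‖ ^ 2}
      ⟨a0, ha0, rfl⟩ ⟨a1, ha1, hne1⟩ ?_ ?_
    · ext a
      constructor
      · intro ha
        by_cases h : ‖T a‖ ^ 2 = ‖T a0‖ ^ 2
        · exact Or.inl ⟨ha, h⟩
        · exact Or.inr ⟨ha, h⟩
      · rintro (h | h)
        · exact h.1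
        · exact h.1
    · rintro x ⟨hx, hx'⟩ y ⟨hy, hy'⟩
      rw [BJ_inner]
      have e1 := h1 x hx y
      have e2 := h1 y hy x
      rw [real_inner_comm (T x) (T y), real_inner_comm x y] at e2
      have e3 : (‖T x‖ ^ 2 - ‖T y‖ ^ 2) * ⟪x, y⟫_ℝ = 0 := by linarith
      rcases mul_eq_zero.1 e3 with h | h
      · exfalso
        apply hy'
        linarith
      · exact h
  set l := ‖T a0‖ ^ 2 with hl
  have h3 : ∀ x y, ⟪T x, T y⟫_ℝ = l * ⟪x, y⟫_ℝ := by
    intro x y
    have hx : x ∈ Submodule.span ℝ A := by rw [hspan]; trivial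
    induction hx using Submodule.span_induction with
    | mem a ha => rw [h1 a ha, h2 a ha]
    | zero => simp
    | add u v _ _ hu hv => rw [map_add, inner_add_left, inner_add_left, hu, hv]; ring
    | smul c u _ hu =>
      rw [map_smul, real_inner_smul_left, real_inner_smul_left, hu]
      ring
  have hl0 : 0 ≤ l := sq_nonneg _
  have h4 : ∀ x, ‖T x‖ = Real.sqrt l * ‖x‖ := by
    intro x
    have h5 := h3 x x
    rw [real_inner_self_eq_norm_sq, real_inner_self_eq_norm_sq] at h5
    have h6 : ‖T x‖ ^ 2 = (Real.sqrt l * ‖x‖) ^ 2 := by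
      rw [h5, mul_pow, Real.sq_sqrt hl0]
    exact (sq_eq_sq₀ (norm_nonneg _) (by positivity)).1 h6
  by_cases hl1 : l = 0
  · refine ⟨0, LinearIsometryEquiv.refl ℝ X, fun x => ?_⟩
    rw [zero_smul]
    exact norm_eq_zero.1 (by rw [h4, hl1, Real.sqrt_zero, zero_mul])
  · have hs : 0 < Real.sqrt l := Real.sqrt_pos.2 (lt_of_le_of_ne hl0 (Ne.symm hl1))
    let U0 : X →ₗᵢ[ℝ] X := ⟨(Real.sqrt l)⁻¹ • T, fun x => by
      rw [LinearMap.smul_apply, norm_smul, h4, Real.norm_of_nonneg (by positivity),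
        ← mul_assoc, inv_mul_cancel₀ hs.ne', one_mul]⟩
    refine ⟨Real.sqrt l, U0.toLinearIsometryEquiv rfl, fun x => ?_⟩
    show T x = Real.sqrt l • ((Real.sqrt l)⁻¹ • T x)
    rw [smul_smul, mul_inv_cancel₀ hs.ne', one_smul]

omit [FiniteDimensional ℝ X] in
theorem presAt_of_zero {T : X →ₗ[ℝ] X} {x : X} (h : T x = 0) : PresAt T x := by
  intro y _ t
  rw [h, norm_zero]
  exact norm_nonneg _

theorem irr_of_kset {A : Set X} (hA : A ⊆ sphere 0 1) (hK : IsKSet A) : Irr A := by
  intro A₁ A₂ ⟨a1, ha1⟩ ⟨a2, ha2⟩ hU hperp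
  set L : Submodule ℝ X := Submodule.span ℝ A₁ with hL
  let T : X →ₗ[ℝ] X := (2 : ℝ) • LinearMap.id - (L.starProjection : X →ₗ[ℝ] X)
  have hT : ∀ x, T x = (2 : ℝ) • x - L.starProjection x := fun x => rfl
  have hP1 : ∀ a ∈ L, L.starProjection a = a := fun a ha => L.starProjection_eq_self_iff.2 ha
  have horth : ∀ a ∈ A₂, ∀ z ∈ L, ⟪z, a⟫_ℝ = 0 := by
    intro a ha z hz
    induction hz using Submodule.span_induction with
    | mem x hx => exact BJ_inner.1 (hperp x hx a ha)
    | zero => simp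
    | add u v _ _ hu hv => rw [inner_add_left, hu, hv, add_zero]
    | smul c u _ hu => rw [real_inner_smul_left, hu, mul_zero]
  have hP2 : ∀ a ∈ A₂, L.starProjection a = 0 := by
    intro a ha
    refine L.eq_starProjection_of_mem_of_inner_eq_zero L.zero_mem ?_
    intro z hz
    rw [sub_zero, real_inner_comm]
    exact horth a ha z hz
  have hT1 : ∀ a ∈ A₁, T a = a := by
    intro a ha
    rw [hT, hP1 a (Submodule.subset_span ha)]
    module
  have hT2 : ∀ a ∈ A₂, T a = (2 : ℝ) • a := by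
    intro a ha
    rw [hT, hP2 a ha, sub_zero]
  have hpres : ∀ a ∈ A, PresAt T a := by
    intro a ha y hy
    rw [BJ_inner] at hy ⊢
    rw [hU] at ha
    rcases ha with ha | ha
    · rw [hT1 a ha, hT, inner_sub_right, inner_smul_right, hy]
      have h1 : ⟪y - L.starProjection y, a⟫_ℝ = 0 :=
        L.starProjection_inner_eq_zero y a (Submodule.subset_span ha)
      rw [inner_sub_left, real_inner_comm a y, hy, real_inner_comm a] at h1
      linarith
    · rw [hT2 a ha, hT, inner_sub_right, inner_smul_right, real_inner_smul_left,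
        real_inner_smul_left, hy]
      have h1 : ⟪L.starProjection y, a⟫_ℝ = 0 := horth a ha _ (L.starProjection_apply_mem y)
      rw [real_inner_comm] at h1
      rw [h1]
      ring
  have hn : ∀ a ∈ A, a ≠ 0 := by
    intro a ha h0
    have h1 : ‖a‖ = 1 := by simpa using hA ha
    rw [h0, norm_zero] at h1
    exact zero_ne_one h1
  refine not_scaled (T := T) (x := a1) (y := a2) (a := 1) (b := 2)
    (hn a1 (hU ▸ Or.inl ha1)) (hn a2 (hU ▸ Or.inr ha2)) ?_ ?_ (by norm_num) (hK T hpres)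
  · rw [hT1 a1 ha1, one_mul]
  · rw [hT2 a2 ha2, norm_smul]
    simp

theorem span_of_kset {A : Set X} (hA : A ⊆ sphere 0 1) (hne : A.Nonempty) (hK : IsKSet A) :
    Submodule.span ℝ A = ⊤ := by
  set L : Submodule ℝ X := Submodule.span ℝ A with hL
  by_contra hcon
  have h1 : Lᗮ ≠ ⊥ := by
    intro h
    exact hcon (Submodule.orthogonal_eq_bot_iff.1 h)
  obtain ⟨y, hy, hy0⟩ := Submodule.exists_mem_ne_zero_of_ne_bot h1
  let T : X →ₗ[ℝ] X := LinearMap.id - (L.starProjection : X →ₗ[ℝ] X)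
  have hT : ∀ x, T x = x - L.starProjection x := fun x => rfl
  have hTA : ∀ a ∈ A, T a = 0 := by
    intro a ha
    rw [hT, L.starProjection_eq_self_iff.2 (Submodule.subset_span ha), sub_self]
  have hTy : T y = y := by
    have h2 : L.starProjection y = 0 := by
      refine L.eq_starProjection_of_mem_of_inner_eq_zero L.zero_mem ?_
      intro z hz
      rw [sub_zero, real_inner_comm]
      exact hy z hz
    rw [hT, h2, sub_zero]
  obtain ⟨a, ha⟩ := hne
  have ha0 : a ≠ 0 := by
    intro h0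
    have h1 : ‖a‖ = 1 := by simpa using hA ha
    rw [h0, norm_zero] at h1
    exact zero_ne_one h1
  refine not_scaled (T := T) (x := a) (y := y) (a := 0) (b := 1) ha0 hy0 ?_ ?_ (by norm_num)
    (hK T fun a ha => presAt_of_zero (hTA a ha))
  · rw [hTA a ha, norm_zero, zero_mul]
  · rw [hTy, one_mul]

omit [FiniteDimensional ℝ X] in
/-- growing irreducible independent families -/
theorem exists_family {A : Set X} (hA : A ⊆ sphere 0 1) (hne : A.Nonempty)
    (hspan : Submodule.span ℝ A = ⊤) (hirr : Irr A) (k : ℕ) (hk : k + 1 ≤ finrank ℝ X) :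
    ∃ x : Fin (k + 1) → X, LinearIndependent ℝ x ∧ Set.range x ⊆ A ∧ Irr (Set.range x) := by
  have hn : ∀ a ∈ A, a ≠ 0 := by
    intro a ha h0
    have h1 : ‖a‖ = 1 := by simpa using hA ha
    rw [h0, norm_zero] at h1
    exact zero_ne_one h1
  induction k with
  | zero =>
    obtain ⟨a, ha⟩ := hne
    refine ⟨fun _ => a, ?_, ?_, ?_⟩
    · have hli : LinearIndependent ℝ (fun _ : Fin 1 => a) := by
        rw [linearIndependent_unique_iff]
        exact hn a ha
      exact hli
    · rintro _ ⟨_, rfl⟩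
      exact ha
    · intro A₁ A₂ ⟨a1, ha1⟩ ⟨a2, ha2⟩ hU hperp
      have h1 : a1 ∈ Set.range (fun _ : Fin 1 => a) := hU ▸ Or.inl ha1
      have h2 : a2 ∈ Set.range (fun _ : Fin 1 => a) := hU ▸ Or.inr ha2
      obtain ⟨_, h1⟩ := h1
      obtain ⟨_, h2⟩ := h2
      have h3 := hperp a1 ha1 a2 ha2
      simp only at h1 h2
      rw [← h1, ← h2] at h3
      exact not_BJ_self (hn a ha) h3
  | succ k ih =>
    obtain ⟨x, hx, hxA, hxI⟩ := ih (by omega)
    set L := Submodule.span ℝ (Set.range x) with hL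
    have hLr : finrank ℝ L = k + 1 := by
      rw [hL, finrank_span_eq_card hx, Fintype.card_fin]
    have hLtop : L ≠ ⊤ := by
      intro h
      rw [h, finrank_top] at hLr
      omega
    -- an element of `A` outside `L` connected with `L`
    have h1 : ¬ ∀ u ∈ {u | u ∈ A ∧ u ∈ L}, ∀ v ∈ {v | v ∈ A ∧ v ∉ L}, BJ u v := by
      apply hirr
      · exact ⟨x 0, hxA ⟨0, rfl⟩, Submodule.subset_span ⟨0, rfl⟩⟩
      · by_contra hcon
        rw [Set.not_nonempty_iff_eq_empty] at hcon
        apply hLtop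
        rw [eq_top_iff, ← hspan, Submodule.span_le]
        intro v hv
        by_contra hvL
        have : v ∈ {v | v ∈ A ∧ v ∉ L} := ⟨hv, hvL⟩
        rw [hcon] at this
        exact this
      · ext a
        constructor
        · intro ha
          by_cases h : a ∈ L
          · exact Or.inl ⟨ha, h⟩
          · exact Or.inr ⟨ha, h⟩
        · rintro (h | h)
          · exact h.1
          · exact h.1
    push Not at h1
    obtain ⟨u, ⟨huA, huL⟩, v, ⟨hvA, hvL⟩, huv⟩ := h1
    have h2 : ∃ i, ¬ BJ (x i) v := by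
      by_contra hcon
      push Not at hcon
      apply huv
      rw [BJ_inner]
      have hall : ∀ y ∈ L, ⟪y, v⟫_ℝ = 0 := by
        intro y hy
        induction hy using Submodule.span_induction with
        | mem y hy =>
          obtain ⟨i, rfl⟩ := hy
          exact BJ_inner.1 (hcon i)
        | zero => simp
        | add y z _ _ hu hv => rw [inner_add_left, hu, hv, add_zero]
        | smul c y _ hu => rw [real_inner_smul_left, hu, mul_zero]
      exact hall u huL
    obtain ⟨i, hi⟩ := h2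
    refine ⟨Fin.snoc x v, linearIndependent_finSnoc.2 ⟨hx, hvL⟩, ?_, ?_⟩
    · rw [Fin.range_snoc]
      exact Set.insert_subset hvA hxA
    · rw [Fin.range_snoc]
      -- symmetric core
      have core : ∀ A₁ A₂ : Set X, A₂.Nonempty → insert v (Set.range x) = A₁ ∪ A₂ → v ∈ A₁ →
          (∀ y ∈ A₁, ∀ z ∈ A₂, BJ y z) → False := by
        intro A₁ A₂ hne2 hU hv1 hperp
        have hv2 : v ∉ A₂ := fun h => not_BJ_self (hn v hvA) (hperp v hv1 v h)
        by_cases hne1 : (A₁ ∩ Set.range x).Nonempty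
        · refine hxI (A₁ ∩ Set.range x) A₂ hne1 hne2 ?_ fun y hy z hz => hperp y hy.1 z hz
          ext a
          constructor
          · intro ha
            have h3 : a ∈ A₁ ∪ A₂ := hU ▸ Set.mem_insert_of_mem _ ha
            rcases h3 with h3 | h3
            · exact Or.inl ⟨h3, ha⟩
            · exact Or.inr h3
          · rintro (h3 | h3)
            · exact h3.2
            · have h4 : a ∈ insert v (Set.range x) := hU ▸ Or.inr h3
              rcases h4 with h4 | h4
              · exact absurd (h4 ▸ h3) hv2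
              · exact h4
        · have h3 : x i ∈ A₁ ∪ A₂ := hU ▸ Set.mem_insert_of_mem _ ⟨i, rfl⟩
          rcases h3 with h3 | h3
          · exact hne1 ⟨x i, h3, ⟨i, rfl⟩⟩
          · exact hi (BJ_comm' (hperp v hv1 _ h3))
      intro A₁ A₂ hne1 hne2 hU hperp
      have h3 : v ∈ A₁ ∪ A₂ := hU ▸ Set.mem_insert _ _
      rcases h3 with h3 | h3
      · exact core A₁ A₂ hne2 hU h3 hperp
      · exact core A₂ A₁ hne1 (by rw [hU, Set.union_comm]) h3
          fun y hy z hz => BJ_comm' (hperp z hz y hy)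

/-- the property (P) in Euclidean spaces -/
theorem conv_inner (h2 : 2 ≤ finrank ℝ X) : PropP X := by
  intro A hA hne
  have hn : ∀ a ∈ A, a ≠ 0 := by
    intro a ha h0
    have h1 : ‖a‖ = 1 := by simpa using hA ha
    rw [h0, norm_zero] at h1
    exact zero_ne_one h1
  constructor
  · rintro ⟨hK, hmin⟩
    have hirr := irr_of_kset hA hK
    refine ⟨?_, hirr⟩
    have hspan := span_of_kset hA hne hK
    obtain ⟨x, hx, hxA, hxI⟩ := exists_family hA hne hspan hirr (finrank ℝ X - 1) (by omega)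
    have hcard : finrank ℝ X - 1 + 1 = finrank ℝ X := by omega
    have hxs : Submodule.span ℝ (Set.range x) = ⊤ :=
      hx.span_eq_top_of_card_eq_finrank' (by rw [Fintype.card_fin, hcard])
    have hxK : IsKSet (Set.range x) :=
      kset_of_span (hxA.trans hA) (Set.range_nonempty x) hxs hxI
    have heq : A = Set.range x := by
      by_contra hcon
      exact hmin _ (lt_of_le_of_ne hxA (Ne.symm hcon)) hxK
    refine ⟨x ∘ finCongr hcard.symm, hx.comp _ (finCongr hcard.symm).injective, ?_⟩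
    rw [heq]
    exact ((finCongr hcard.symm).surjective.range_comp x).symm
  · rintro ⟨⟨x, hx, rfl⟩, hirr⟩
    have hxs : Submodule.span ℝ (Set.range x) = ⊤ :=
      hx.span_eq_top_of_card_eq_finrank' (by rw [Fintype.card_fin])
    refine ⟨kset_of_span hA hne hxs hirr, ?_⟩
    intro B hB hBK
    obtain ⟨hB1, hB2⟩ := Set.ssubset_iff_subset_ne.1 hB
    obtain ⟨y, ⟨j, rfl⟩, hj⟩ := Set.exists_of_ssubset hB
    let bas : Basis (Fin (finrank ℝ X)) ℝ X := Basis.mk hx (by rw [hxs])
    let T : X →ₗ[ℝ] X := (bas.coord j).smulRight (x j)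
    have hT : ∀ i, T (x i) = if i = j then x j else 0 := by
      intro i
      show (bas.coord j (x i)) • x j = _
      have h3 : x i = bas i := by simp [bas]
      rw [h3, Basis.coord_apply, Basis.repr_self, Finsupp.single_apply]
      split_ifs <;> simp
    obtain ⟨i, hij⟩ : ∃ i : Fin (finrank ℝ X), i ≠ j := by
      have : Nontrivial (Fin (finrank ℝ X)) := Fin.nontrivial_iff_two_le.2 h2
      exact exists_ne j
    refine not_scaled (T := T) (x := x i) (y := x j) (a := 0) (b := 1) (hx.ne_zero i)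
      (hx.ne_zero j) ?_ ?_ (by norm_num) (hBK T ?_)
    · rw [hT, if_neg hij, norm_zero, zero_mul]
    · rw [hT, if_pos rfl, one_mul]
    · intro b hb
      obtain ⟨k, rfl⟩ := hB1 hb
      have hkj : k ≠ j := by
        rintro rfl
        exact hj hb
      apply presAt_of_zero
      rw [hT, if_neg hkj]

end

/-- KS-I -/
theorem conv (X : Type*) [NormedAddCommGroup X] [inst : NormedSpace ℝ X]
    [FiniteDimensional ℝ X] : ConvStm X := by
  rintro h2 ⟨B, hs, hB⟩
  let _ : InnerProductSpace ℝ X :=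
    { toNormedSpace := inst
      inner := fun x y => B x y
      norm_sq_eq_re_inner := fun x => by
        rw [hB]
        rfl
      conj_inner_symm := fun x y => by
        show B y x = B x y
        exact hs y x
      add_left := fun x y z => by
        show B (x + y) z = B x z + B y z
        rw [map_add, LinearMap.add_apply]
      smul_left := fun x y r => by
        show B (r • x) y = r * B x y
        rw [map_smul, LinearMap.smul_apply, smul_eq_mul] }
  exact conv_inner h2

end R876.KS
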