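import Pool.Agent.R876.KS.Defs

/-!
# MP_a3b3eb_an: statements of the pieces (project KS)
-/

namespace R876.KS

open Metric Filter Topology Module

section
variable {X : Type*} [NormedAddCommGroup X] [NormedSpace ℝ X]

/-- `A` is a K-set. -/
def IsKSet (A : Set X) : Prop := ∀ T : X →ₗ[ℝ] X, (∀ x ∈ A, PresAt T x) → IsScaledIso T

/-- `A` is a minimal K-set. -/
def IsMinKSet (A : Set X) : Prop := IsKSet A ∧ ∀ B : Set X, B ⊂ A → ¬ IsKSet B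

/-- Nondegenerate family: linearly independent, and the gradients separate the points of
the span. -/
def ND {r : ℕ} (x : Fin r → X) : Prop :=
  LinearIndependent ℝ x ∧
    ∀ v ∈ Submodule.span ℝ (Set.range x), (∀ i, gr (x i) v = 0) → v = 0

/-- The hyperplane `V` is orthogonal to some nonzero vector. -/
def HasPole (V : Submodule ℝ X) : Prop := ∃ w : X, w ≠ 0 ∧ ∀ v ∈ V, BJ v w

/-- Generic hyperplane: near each point of `V` there are nondegenerate families of smooth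
points of `V` of full size. -/
def Gen (m : ℕ) (V : Submodule ℝ X) : Prop :=
  ∀ y ∈ V, ∀ ε : ℝ, 0 < ε → ∃ x : Fin (m + 1) → X,
    (∀ i, x i ∈ V ∧ x i ∈ Sm X ∧ ‖x i - y‖ < ε) ∧ ND x ∧ ND (Fin.init x)

end

/-- Property (P) of the problem. -/
def PropP (X : Type*) [NormedAddCommGroup X] [NormedSpace ℝ X] : Prop :=
  ∀ A : Set X, A ⊆ sphere 0 1 → A.Nonempty →
    (IsMinKSet A ↔
      (∃ x : Fin (finrank ℝ X) → X, LinearIndependent ℝ x ∧ A = Set.range x) ∧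
      ∀ A₁ A₂ : Set X, A₁.Nonempty → A₂.Nonempty → A = A₁ ∪ A₂ →
        ¬ ∀ x ∈ A₁, ∀ y ∈ A₂, BJ x y)

/-- The norm is induced by an inner product. -/
def IsHilb (X : Type*) [NormedAddCommGroup X] [NormedSpace ℝ X] : Prop :=
  ∃ B : X →ₗ[ℝ] X →ₗ[ℝ] ℝ, (∀ x y, B x y = B y x) ∧ ∀ x, ‖x‖ ^ 2 = B x x

/-- The consequence of (P) which is used: a linear map which is not a scaled isometry cannot
preserve orthogonality at the points of an irreducible basis. -/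
def P1 (X : Type*) [NormedAddCommGroup X] [NormedSpace ℝ X] (n : ℕ) : Prop :=
  ∀ T : X →ₗ[ℝ] X, ¬ IsScaledIso T → ∀ x : Fin n → X, LinearIndependent ℝ x →
    (∀ i, PresAt T (x i)) →
    ∃ S : Set (Fin n), S.Nonempty ∧ Sᶜ.Nonempty ∧ ∀ i ∈ S, ∀ j ∈ Sᶜ, BJ (x i) (x j)

/-! ### Pieces. Everywhere `n = finrank X`; hyperplanes have dimension `m + 1`, `n = m + 2`. -/

/-- KS-A1. -/
def GPStm (X : Type*) [NormedAddCommGroup X] [NormedSpace ℝ X] : Prop :=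
  ∀ n : ℕ, 2 ≤ n → finrank ℝ X = n → P1 X n → ∀ T : X →ₗ[ℝ] X, ¬ IsScaledIso T →
    ∀ O : Set X, IsOpen O → O.Nonempty → (∀ x ∈ O, ‖T x‖ = ‖x‖) → False

/-- KS-A2. -/
def F5Stm (X : Type*) [NormedAddCommGroup X] [NormedSpace ℝ X] : Prop :=
  ∀ n : ℕ, 2 ≤ n → finrank ℝ X = n → P1 X n → ∀ r : ℕ, r < n → ∀ x : Fin r → X,
    (∀ i, x i ∈ Sm X) → ND x → ∀ O : Set X, IsOpen O → O.Nonempty →
    ∃ y ∈ O, y ∈ Sm X ∧ ND (Fin.snoc x y : Fin (r + 1) → X)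

/-- KS-B: generic hyperplanes. -/
def GenStm (X : Type*) [NormedAddCommGroup X] [NormedSpace ℝ X] : Prop :=
  ∀ m : ℕ, finrank ℝ X = m + 2 → P1 X (m + 2) → ∀ U : Set (Fin (m + 1) → X), IsOpen U →
    U.Nonempty → ∃ v ∈ U, Gen m (Submodule.span ℝ (Set.range v))

/-- KS-C: selection of the open sets. -/
def SelStm (X : Type*) [NormedAddCommGroup X] [NormedSpace ℝ X] : Prop :=
  ∀ m : ℕ, 1 ≤ m → finrank ℝ X = m + 2 → ∀ V : Submodule ℝ X, finrank ℝ V = m + 1 →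
    Gen m V → ¬ HasPole V →
    ∃ W : Fin (m + 1) → Set X, (∀ i, IsOpen (W i)) ∧
      (∃ p : Fin (m + 1) → X, ∀ i, p i ∈ W i ∧ p i ∈ V ∧ p i ∈ Sm X) ∧
      (∀ p : Fin (m + 1) → X, (∀ i, p i ∈ W i ∧ p i ∈ V ∧ p i ∈ Sm X) →
        ND p ∧ (∀ i j, gr (p i) (p j) ≠ 0) ∧
        ∀ w : X, w ≠ 0 → (∀ i, gr (p i) w = 0) → ∀ i, ∀ ε : ℝ, 0 < ε →
          ∃ x ∈ W i, x ∈ V ∧ x ∈ Sm X ∧ ‖x - p i‖ < ε ∧ gr x w ≠ 0)

/-- KS-D: the core argument. -/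
def CoreStm (X : Type*) [NormedAddCommGroup X] [NormedSpace ℝ X] : Prop :=
  ∀ m : ℕ, finrank ℝ X = m + 2 → P1 X (m + 2) → ∀ V : Submodule ℝ X, finrank ℝ V = m + 1 →
    ¬ HasPole V →
    ∀ W : Fin (m + 1) → Set X,
      (∃ p : Fin (m + 1) → X, ∀ i, p i ∈ W i ∧ p i ∈ V ∧ p i ∈ Sm X) →
      (∀ p : Fin (m + 1) → X, (∀ i, p i ∈ W i ∧ p i ∈ V ∧ p i ∈ Sm X) →
        ND p ∧ (∀ i j, gr (p i) (p j) ≠ 0) ∧
        ∀ w : X, w ≠ 0 → (∀ i, gr (p i) w = 0) → ∀ i, ∀ ε : ℝ, 0 < ε →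
          ∃ x ∈ W i, x ∈ V ∧ x ∈ Sm X ∧ ‖x - p i‖ < ε ∧ gr x w ≠ 0) → False

/-- KS-E: every hyperplane has a pole. -/
def PoleStm (X : Type*) [NormedAddCommGroup X] [NormedSpace ℝ X] : Prop :=
  ∀ m : ℕ, finrank ℝ X = m + 2 → P1 X (m + 2) → ∀ V : Submodule ℝ X, finrank ℝ V = m + 1 →
    HasPole V

/-- KS-F: reflection in a hyperplane with a pole and dense smooth points. -/
def ReflStm (X : Type*) [NormedAddCommGroup X] [NormedSpace ℝ X] : Prop :=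
  ∀ n : ℕ, 2 ≤ n → finrank ℝ X = n → P1 X n → ∀ (g : X →L[ℝ] ℝ) (w : X), g w = 1 →
    (∀ v, g v = 0 → BJ v w) →
    (∀ y, g y = 0 → ∀ ε : ℝ, 0 < ε → ∃ x ∈ Sm X, g x = 0 ∧ ‖x - y‖ < ε) →
    ∀ x, ‖x - (2 * g x) • w‖ = ‖x‖

/-- All reflections are isometries. -/
def AllRefl (X : Type*) [NormedAddCommGroup X] [NormedSpace ℝ X] : Prop :=
  ∀ g : X →L[ℝ] ℝ, g ≠ 0 → ∃ w : X, g w = 1 ∧ ∀ x, ‖x - (2 * g x) • w‖ = ‖x‖

/-- KS-G. -/
def AllReflStm (X : Type*) [NormedAddCommGroup X] [NormedSpace ℝ X] : Prop :=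
  GenStm X → PoleStm X → ReflStm X →
    ∀ m : ℕ, finrank ℝ X = m + 2 → P1 X (m + 2) → AllRefl X

/-- KS-H. -/
def HilbStm (X : Type*) [NormedAddCommGroup X] [NormedSpace ℝ X] : Prop :=
  AllRefl X → IsHilb X

/-- KS-I: the known converse. -/
def ConvStm (X : Type*) [NormedAddCommGroup X] [NormedSpace ℝ X] : Prop :=
  2 ≤ finrank ℝ X → IsHilb X → PropP X

end R876.KS
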